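import Pool.Agent.helper70.TB.Check
import Pool.Agent.helper70.TB.Data

/-!
# The kernel checks of all pieces
-/

set_option autoImplicit false

namespace Pool.Agent.H70TB

theorem okP0 : okPiece P0 65 = true := by decide +kernel
theorem okP1 : okPiece P1 65 = true := by decide +kernel
theorem okP2 : okPiece P2 73 = true := by decide +kernel
theorem okP3 : okPiece P3 96 = true := by decide +kernel
theorem okP4 : okPiece P4 127 = true := by decide +kernel
theorem okP5 : okPiece P5 165 = true := by decide +kernel
theorem okP6 : okPiece P6 186 = true := by decide +kernel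
theorem okP7 : okPiece P7 187 = true := by decide +kernel
theorem okP8 : okPiece P8 170 = true := by decide +kernel
theorem okP9 : okPiece P9 134 = true := by decide +kernel
theorem okP10 : okPiece P10 100 = true := by decide +kernel
theorem okP11 : okPiece P11 75 = true := by decide +kernel
theorem okP12 : okPiece P12 65 = true := by decide +kernel
theorem okP13 : okPiece P13 65 = true := by decide +kernel
theorem okP14 : okPiece P14 65 = true := by decide +kernel
theorem okP15 : okPiece P15 65 = true := by decide +kernel
theorem okP16 : okPiece P16 65 = true := by decide +kernel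
theorem okP17 : okPiece P17 65 = true := by decide +kernel
theorem okP18 : okPiece P18 65 = true := by decide +kernel
theorem okP19 : okPiece P19 65 = true := by decide +kernel
theorem okP20 : okPiece P20 65 = true := by decide +kernel
theorem okP21 : okPiece P21 65 = true := by decide +kernel
theorem okP22 : okPiece P22 65 = true := by decide +kernel
theorem okP23 : okPiece P23 65 = true := by decide +kernel
theorem okP24 : okPiece P24 66 = true := by decide +kernel
theorem okP25 : okPiece P25 77 = true := by decide +kernel
theorem okP26 : okPiece P26 90 = true := by decide +kernel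
theorem okP27 : okPiece P27 103 = true := by decide +kernel
theorem okP28 : okPiece P28 114 = true := by decide +kernel
theorem okP29 : okPiece P29 118 = true := by decide +kernel
theorem okN0 : okNode P0 P1 = true := by decide +kernel
theorem okN1 : okNode P1 P2 = true := by decide +kernel
theorem okN2 : okNode P2 P3 = true := by decide +kernel
theorem okN3 : okNode P3 P4 = true := by decide +kernel
theorem okN4 : okNode P4 P5 = true := by decide +kernel
theorem okN5 : okNode P5 P6 = true := by decide +kernel
theorem okN6 : okNode P6 P7 = true := by decide +kernel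
theorem okN7 : okNode P7 P8 = true := by decide +kernel
theorem okN8 : okNode P8 P9 = true := by decide +kernel
theorem okN9 : okNode P9 P10 = true := by decide +kernel
theorem okN10 : okNode P10 P11 = true := by decide +kernel
theorem okN11 : okNode P11 P12 = true := by decide +kernel
theorem okN12 : okNode P12 P13 = true := by decide +kernel
theorem okN13 : okNode P13 P14 = true := by decide +kernel
theorem okN14 : okNode P14 P15 = true := by decide +kernel
theorem okN15 : okNode P15 P16 = true := by decide +kernel
theorem okN16 : okNode P16 P17 = true := by decide +kernel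
theorem okN17 : okNode P17 P18 = true := by decide +kernel
theorem okN18 : okNode P18 P19 = true := by decide +kernel
theorem okN19 : okNode P19 P20 = true := by decide +kernel
theorem okN20 : okNode P20 P21 = true := by decide +kernel
theorem okN21 : okNode P21 P22 = true := by decide +kernel
theorem okN22 : okNode P22 P23 = true := by decide +kernel
theorem okN23 : okNode P23 P24 = true := by decide +kernel
theorem okN24 : okNode P24 P25 = true := by decide +kernel
theorem okN25 : okNode P25 P26 = true := by decide +kernel
theorem okN26 : okNode P26 P27 = true := by decide +kernel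
theorem okN27 : okNode P27 P28 = true := by decide +kernel
theorem okN28 : okNode P28 P29 = true := by decide +kernel

def nthP : List (List (List ℤ)) → ℕ → List (List ℤ)
  | [], _ => []
  | a :: _, 0 => a
  | _ :: l, n + 1 => nthP l n

/-- piece `k` -/
def pc (k : ℕ) : List (List ℤ) := nthP pcs k

/-- exponent of piece `k` -/
def jn (k : ℕ) : ℕ := nthN js k

/-- growth factors at the nodes -/
def ks : List ℕ := [256, 332, 430, 574, 837, 1377, 2628, 5444, 11320, 22021, 37207, 55032, 73809, 95192, 122770, 158337, 204207, 263366, 339663, 438062, 564967, 728635, 939716, 1211946, 1563039, 2023746, 2735519, 3890635, 5822352, 9096493, 14436059]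

theorem okPiece_all : ∀ k : ℕ, k < 30 → okPiece (pc k) (jn k) = true
  | 0, _ => okP0
  | 1, _ => okP1
  | 2, _ => okP2
  | 3, _ => okP3
  | 4, _ => okP4
  | 5, _ => okP5
  | 6, _ => okP6
  | 7, _ => okP7
  | 8, _ => okP8
  | 9, _ => okP9
  | 10, _ => okP10
  | 11, _ => okP11
  | 12, _ => okP12
  | 13, _ => okP13
  | 14, _ => okP14
  | 15, _ => okP15
  | 16, _ => okP16
  | 17, _ => okP17
  | 18, _ => okP18
  | 19, _ => okP19
  | 20, _ => okP20
  | 21, _ => okP21
  | 22, _ => okP22
  | 23, _ => okP23
  | 24, _ => okP24
  | 25, _ => okP25
  | 26, _ => okP26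
  | 27, _ => okP27
  | 28, _ => okP28
  | 29, _ => okP29
  | _ + 30, h => absurd h (by omega)

theorem okNode_all : ∀ k : ℕ, k < 29 → okNode (pc k) (pc (k + 1)) = true
  | 0, _ => okN0
  | 1, _ => okN1
  | 2, _ => okN2
  | 3, _ => okN3
  | 4, _ => okN4
  | 5, _ => okN5
  | 6, _ => okN6
  | 7, _ => okN7
  | 8, _ => okN8
  | 9, _ => okN9
  | 10, _ => okN10
  | 11, _ => okN11
  | 12, _ => okN12
  | 13, _ => okN13
  | 14, _ => okN14
  | 15, _ => okN15
  | 16, _ => okN16
  | 17, _ => okN17
  | 18, _ => okN18
  | 19, _ => okN19
  | 20, _ => okN20
  | 21, _ => okN21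
  | 22, _ => okN22
  | 23, _ => okN23
  | 24, _ => okN24
  | 25, _ => okN25
  | 26, _ => okN26
  | 27, _ => okN27
  | 28, _ => okN28
  | _ + 29, h => absurd h (by omega)

theorem ks_ok : (∀ k < 31, 256 ≤ nthN ks k ∧ nthN ks k ≤ 2 ^ 24) ∧
    ∀ k < 30, nthN ks k * 256 ^ (jn k) + 255 ^ (jn k) ≤ nthN ks (k + 1) * 255 ^ (jn k) := by
  decide +kernel

theorem jn_ok : ∀ k < 30, 65 ≤ jn k := by decide +kernel

end Pool.Agent.H70TB
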