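import Pool.Agent.helper70.TB.Shoot

/-!
# The contraction
-/

set_option autoImplicit false

open Complex ComplexConjugate Set Metric
open scoped NNReal ENNReal

namespace Pool.Agent.H70TB

lemma ball_fixed {E : Type*} [NormedAddCommGroup E] [CompleteSpace E] (f : E → E) {ρ : ℝ}
    (hρ : 0 ≤ ρ) (h0 : ‖f 0‖ ≤ ρ / 2)
    (hc : ∀ x y, ‖x‖ ≤ ρ → ‖y‖ ≤ ρ → ‖f x - f y‖ ≤ 1 / 2 * ‖x - y‖) :
    ∃ x, ‖x‖ ≤ ρ ∧ f x = x := by
  have hmaps : MapsTo f (closedBall 0 ρ) (closedBall 0 ρ) := by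
    intro x hx
    rw [mem_closedBall_zero_iff] at hx ⊢
    have h1 := hc x 0 hx (by simpa using hρ)
    rw [sub_zero] at h1
    have h2 := norm_add_le (f x - f 0) (f 0)
    rw [sub_add_cancel] at h2
    linarith
  have hcontr : ContractingWith (1 / 2) (hmaps.restrict f _ _) := by
    refine ⟨by
      rw [← NNReal.coe_lt_coe]; norm_num, ?_⟩
    apply LipschitzWith.of_dist_le_mul
    intro x y
    have hx := x.2
    have hy := y.2
    rw [mem_closedBall_zero_iff] at hx hy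
    rw [Subtype.dist_eq, Subtype.dist_eq, dist_eq_norm, dist_eq_norm]
    have := hc x y hx hy
    simpa using this
  obtain ⟨y, hy, hfix, -⟩ := hcontr.exists_fixedPoint' isClosed_closedBall.isComplete hmaps
    (x := 0) (by simpa using hρ) (edist_ne_top _ _)
  exact ⟨y, by simpa using hy, hfix⟩

lemma bil {A B a₁ b₁ a₂ b₂ pa pb : ℂ} {W : ℝ} (hA : ‖A‖ ≤ 4) (hB : ‖B‖ ≤ 4)
    (ra : ‖a₁ - a₂ - pa‖ ≤ 1 / 2 ^ 8 * W) (rb : ‖b₁ - b₂ - pb‖ ≤ 1 / 2 ^ 8 * W)
    (hpa : ‖pa‖ ≤ 14 * W) (hpb : ‖pb‖ ≤ 14 * W)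
    (hb₁ : ‖b₁ - B‖ ≤ 1 / 2 ^ 40) (ha₂ : ‖a₂ - A‖ ≤ 1 / 2 ^ 40) :
    ‖a₁ * conj b₁ - a₂ * conj b₂ - (pa * conj B + A * conj pb)‖ ≤ 1 / 16 * W := by
  have hW : 0 ≤ W := by
    have := (norm_nonneg _).trans hpa
    linarith
  have hda : ‖a₁ - a₂‖ ≤ 16 * W := by
    have := norm_add_le (a₁ - a₂ - pa) pa
    rw [sub_add_cancel] at this
    linarith
  have hdb : ‖b₁ - b₂‖ ≤ 16 * W := by
    have := norm_add_le (b₁ - b₂ - pb) pb
    rw [sub_add_cancel] at this
    linarith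
  have e : a₁ * conj b₁ - a₂ * conj b₂ - (pa * conj B + A * conj pb) =
      (a₁ - a₂ - pa) * conj B + A * conj (b₁ - b₂ - pb) + (a₁ - a₂) * conj (b₁ - B) +
        (a₂ - A) * conj (b₁ - b₂) := by
    simp only [map_sub]; ring
  rw [e]
  have n1 : ‖(a₁ - a₂ - pa) * conj B‖ ≤ (1 / 2 ^ 8 * W) * 4 := by
    rw [norm_mul, RCLike.norm_conj]; gcongr
  have n2 : ‖A * conj (b₁ - b₂ - pb)‖ ≤ 4 * (1 / 2 ^ 8 * W) := by
    rw [norm_mul, RCLike.norm_conj]; gcongr
  have n3 : ‖(a₁ - a₂) * conj (b₁ - B)‖ ≤ (16 * W) * (1 / 2 ^ 40) := by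
    rw [norm_mul, RCLike.norm_conj]; gcongr
  have n4 : ‖(a₂ - A) * conj (b₁ - b₂)‖ ≤ (1 / 2 ^ 40) * (16 * W) := by
    rw [norm_mul, RCLike.norm_conj]; gcongr
  have := norm_add₄_le (a := (a₁ - a₂ - pa) * conj B) (b := A * conj (b₁ - b₂ - pb))
    (c := (a₁ - a₂) * conj (b₁ - B)) (d := (a₂ - A) * conj (b₁ - b₂))
  nlinarith

lemma abs_re_le' (z : ℂ) : |z.re| ≤ ‖z‖ := Complex.abs_re_le_norm z
lemma abs_im_le' (z : ℂ) : |z.im| ≤ ‖z‖ := Complex.abs_im_le_norm z

lemma bil0 {A B a₁ b₁ : ℂ} (hA : ‖A‖ ≤ 4) (hB : ‖B‖ ≤ 4)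
    (ha : ‖a₁ - A‖ ≤ 1 / 2 ^ 49) (hb : ‖b₁ - B‖ ≤ 1 / 2 ^ 49) :
    ‖a₁ * conj b₁ - A * conj B‖ ≤ 1 / 2 ^ 45 - 1 / 2 ^ 47 := by
  have e : a₁ * conj b₁ - A * conj B = (a₁ - A) * conj B + A * conj (b₁ - B) +
      (a₁ - A) * conj (b₁ - B) := by
    simp only [map_sub]; ring
  rw [e]
  have n1 : ‖(a₁ - A) * conj B‖ ≤ (1 / 2 ^ 49) * 4 := by
    rw [norm_mul, RCLike.norm_conj]; gcongr
  have n2 : ‖A * conj (b₁ - B)‖ ≤ 4 * (1 / 2 ^ 49) := by
    rw [norm_mul, RCLike.norm_conj]; gcongr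
  have n3 : ‖(a₁ - A) * conj (b₁ - B)‖ ≤ (1 / 2 ^ 49) * (1 / 2 ^ 49) := by
    rw [norm_mul, RCLike.norm_conj]; gcongr
  have := norm_add₃_le (a := (a₁ - A) * conj B) (b := A * conj (b₁ - B))
    (c := (a₁ - A) * conj (b₁ - B))
  refine (this.trans (add_le_add (add_le_add n1 n2) n3)).trans ?_
  norm_num

section
variable {a b u v : ℕ → ℝ → ℂ} {fa fb fu fv : ℕ → ℝ → Fin 3 → ℂ} {Λ l κ : ℕ → ℝ}
    {ell : ℝ} {w0 : ℂ} {cl : Fin 3 → ℝ} {cw : Fin 3 → ℂ}

theorem shoot (h : Chain a b u v fa fb fu fv Λ l κ ell w0 cl cw) :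
    ∃ a b u v : ℝ → ℂ, Quarter (3 / 50) (1 / 10) (15 / 2) a b u v := by
  have hex : ∀ x : Fin 3 → ℝ, ∃ a b u v : ℝ → ℂ,
      a 0 = -((ell : ℂ) + lin x (fun i => (cl i : ℂ))) ∧
      b 0 = (ell : ℂ) + lin x (fun i => (cl i : ℂ)) ∧
      u 0 = w0 + lin x cw ∧ v 0 = w0 + lin x cw ∧ Sol (15 / 2) a b u v := fun x =>
    exists_sol (15 / 2) (by norm_num) _ _ _ _
  choose ya yb yu yv h1 h2 h3 h4 hs using hex
  have c1 := claim1 h (hs 0) (by rw [h1, lin_zero, add_zero]) (by rw [h2, lin_zero, add_zero])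
    (by rw [h3, lin_zero, add_zero]) (by rw [h4, lin_zero, add_zero])
  -- claim 2
  have c2 : ∀ x : Fin 3 → ℝ, ‖x‖ ≤ 1 / 2 ^ 44 → ∀ k : ℕ, k < 30 →
      ∀ t ∈ Icc ((k : ℝ) / 4) (((k + 1 : ℕ) : ℝ) / 4),
      ‖rr x (ya x) (yb x) (yu x) (yv x) (ya 0) (yb 0) (yu 0) (yv 0) (fa k) (fb k) (fu k) (fv k) t‖ ≤
        1 / 2 ^ 8 * ‖x‖ := by
    intro x hx
    by_cases hx0 : x = 0
    · subst hx0
      intro k hk t ht
      rw [rr, lin_zero, lin_zero, lin_zero, lin_zero]
      simp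
    · have := pair h (x := x) (x' := 0) (by rwa [sub_zero]) (hs x) (hs 0) (h1 x) (h2 x) (h3 x)
        (h4 x) (h1 0) (h2 0) (h3 0) (h4 0) (by
          rw [sub_zero]
          intro k hk t ht hr
          have m := (h.ref k hk).hM t ht x
          have q := c1 k hk t ht
          have q1 := (norm4_1 _).trans q
          have q2 := (norm4_2 _).trans q
          have r1 := (norm4_1 _).trans hr
          have r2 := (norm4_2 _).trans hr
          simp only [rr] at q1 q2 r1 r2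
          have e1 : ya x t - a k t = (ya x t - ya 0 t - lin x (fa k t)) + lin x (fa k t) +
            (ya 0 t - a k t) := by ring
          have e2 : yb x t - b k t = (yb x t - yb 0 t - lin x (fb k t)) + lin x (fb k t) +
            (yb 0 t - b k t) := by ring
          have n1 := norm_add₃_le (a := ya x t - ya 0 t - lin x (fa k t)) (b := lin x (fa k t))
            (c := ya 0 t - a k t)
          have n2 := norm_add₃_le (a := yb x t - yb 0 t - lin x (fb k t)) (b := lin x (fb k t))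
            (c := yb 0 t - b k t)
          rw [← e1] at n1
          rw [← e2] at n2
          obtain ⟨m1, m2⟩ := m
          refine ⟨?_, ?_, q1.trans (by norm_num), q2.trans (by norm_num)⟩
          · refine n1.trans ((add_le_add (add_le_add r1 m1) q1).trans ?_)
            linarith
          · refine n2.trans ((add_le_add (add_le_add r2 m2) q2).trans ?_)
            linarith)
      rw [sub_zero] at this
      exact this
  have c3 : ∀ x : Fin 3 → ℝ, ‖x‖ ≤ 1 / 2 ^ 44 → ∀ k : ℕ, k < 30 →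
      ∀ t ∈ Icc ((k : ℝ) / 4) (((k + 1 : ℕ) : ℝ) / 4),
      ‖ya x t - a k t‖ ≤ 1 / 2 ^ 40 ∧ ‖yb x t - b k t‖ ≤ 1 / 2 ^ 40 := by
    intro x hx k hk t ht
    have hr := c2 x hx k hk t ht
    have m := (h.ref k hk).hM t ht x
    have q := c1 k hk t ht
    have q1 := (norm4_1 _).trans q
    have q2 := (norm4_2 _).trans q
    have r1 := (norm4_1 _).trans hr
    have r2 := (norm4_2 _).trans hr
    simp only [rr] at q1 q2 r1 r2
    have e1 : ya x t - a k t = (ya x t - ya 0 t - lin x (fa k t)) + lin x (fa k t) +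
      (ya 0 t - a k t) := by ring
    have e2 : yb x t - b k t = (yb x t - yb 0 t - lin x (fb k t)) + lin x (fb k t) +
      (yb 0 t - b k t) := by ring
    have n1 := norm_add₃_le (a := ya x t - ya 0 t - lin x (fa k t)) (b := lin x (fa k t))
      (c := ya 0 t - a k t)
    have n2 := norm_add₃_le (a := yb x t - yb 0 t - lin x (fb k t)) (b := lin x (fb k t))
      (c := yb 0 t - b k t)
    rw [← e1] at n1
    rw [← e2] at n2
    obtain ⟨m1, m2⟩ := m
    constructor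
    · refine n1.trans ((add_le_add (add_le_add r1 m1) q1).trans ?_)
      linarith
    · refine n2.trans ((add_le_add (add_le_add r2 m2) q2).trans ?_)
      linarith
  have hτ : (15 / 2 : ℝ) ∈ Icc (((29 : ℕ) : ℝ) / 4) (((29 + 1 : ℕ) : ℝ) / 4) := by
    constructor <;> norm_num
  -- velocities at the end
  have c3' : ∀ x : Fin 3 → ℝ, ‖x‖ ≤ 1 / 2 ^ 44 →
      ‖yu x (15 / 2) - u 29 (15 / 2)‖ ≤ 1 / 2 ^ 40 ∧
      ‖yv x (15 / 2) - v 29 (15 / 2)‖ ≤ 1 / 2 ^ 40 := by
    intro x hx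
    have hr := c2 x hx 29 (by norm_num) _ hτ
    have m1 := h.efu x
    have m2 := h.efv x
    have q := c1 29 (by norm_num) _ hτ
    have q1 := (norm4_3 _).trans q
    have q2 := (norm4_4 _).trans q
    have r1 := (norm4_3 _).trans hr
    have r2 := (norm4_4 _).trans hr
    simp only [rr] at q1 q2 r1 r2
    have e1 : yu x (15 / 2) - u 29 (15 / 2) = (yu x (15 / 2) - yu 0 (15 / 2) -
      lin x (fu 29 (15 / 2))) + lin x (fu 29 (15 / 2)) + (yu 0 (15 / 2) - u 29 (15 / 2)) := by ring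
    have e2 : yv x (15 / 2) - v 29 (15 / 2) = (yv x (15 / 2) - yv 0 (15 / 2) -
      lin x (fv 29 (15 / 2))) + lin x (fv 29 (15 / 2)) + (yv 0 (15 / 2) - v 29 (15 / 2)) := by ring
    have n1 := norm_add₃_le (a := yu x (15 / 2) - yu 0 (15 / 2) -
      lin x (fu 29 (15 / 2))) (b := lin x (fu 29 (15 / 2))) (c := yu 0 (15 / 2) - u 29 (15 / 2))
    have n2 := norm_add₃_le (a := yv x (15 / 2) - yv 0 (15 / 2) -
      lin x (fv 29 (15 / 2))) (b := lin x (fv 29 (15 / 2))) (c := yv 0 (15 / 2) - v 29 (15 / 2))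
    rw [← e1] at n1
    rw [← e2] at n2
    constructor
    · refine n1.trans ((add_le_add (add_le_add r1 m1) q1).trans ?_)
      linarith
    · refine n2.trans ((add_le_add (add_le_add r2 m2) q2).trans ?_)
      linarith
  -- claim 3
  have c4 : ∀ x x' : Fin 3 → ℝ, ‖x‖ ≤ 1 / 2 ^ 44 → ‖x'‖ ≤ 1 / 2 ^ 44 →
      ‖rr (x - x') (ya x) (yb x) (yu x) (yv x) (ya x') (yb x') (yu x') (yv x')
        (fa 29) (fb 29) (fu 29) (fv 29) (15 / 2)‖ ≤ 1 / 2 ^ 8 * ‖x - x'‖ := by
    intro x x' hx hx'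
    by_cases hxx : x = x'
    · subst hxx
      rw [sub_self, rr, lin_zero, lin_zero, lin_zero, lin_zero]
      simp
    · exact pair h (x := x) (x' := x') (sub_ne_zero.2 hxx) (hs x) (hs x') (h1 x) (h2 x) (h3 x)
        (h4 x) (h1 x') (h2 x') (h3 x') (h4 x') (by
          intro k hk t ht _
          obtain ⟨p1, p2⟩ := c3 x hx k hk t ht
          obtain ⟨p3, p4⟩ := c3 x' hx' k hk t ht
          exact ⟨p1, p2, p3, p4⟩) 29 (by norm_num) _ hτ
  set N : (Fin 3 → ℝ) → (Fin 3 → ℝ) := fun x =>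
    ![x 0 - (ya x (15 / 2) * conj (yb x (15 / 2))).im,
      x 1 - (yu x (15 / 2) * conj (ya x (15 / 2))).re,
      x 2 - (yv x (15 / 2) * conj (yb x (15 / 2))).re] with hN
  have hM29 := fun x => (h.ref 29 (by norm_num)).hM _ hτ x
  obtain ⟨x, hxρ, hfix⟩ := ball_fixed N (ρ := 1 / 2 ^ 44) (by positivity)
    (by
      have q := c1 29 (by norm_num) _ hτ
      have q1 := (norm4_1 _).trans q
      have q2 := (norm4_2 _).trans q
      have q3 := (norm4_3 _).trans q
      have q4 := (norm4_4 _).trans q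
      simp only at q1 q2 q3 q4
      have b1 := (abs_im_le' _).trans (bil0 h.eA h.eB q1 q2)
      have b2 := (abs_re_le' _).trans (bil0 h.eU h.eA q3 q1)
      have b3 := (abs_re_le' _).trans (bil0 h.eV h.eB q4 q2)
      rw [sub_im] at b1
      rw [sub_re] at b2 b3
      have g1 := h.eG1
      have g2 := h.eG2
      have g3 := h.eG3
      rw [abs_le] at b1 b2 b3 g1 g2 g3
      rw [pi_norm_le_iff_of_nonneg (by positivity)]
      intro i
      fin_cases i
      · change ‖(0 : ℝ) - (ya 0 (15 / 2) * conj (yb 0 (15 / 2))).im‖ ≤ _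
        rw [Real.norm_eq_abs, abs_le]
        constructor <;> linarith [b1.1, b1.2, g1.1, g1.2]
      · change ‖(0 : ℝ) - (yu 0 (15 / 2) * conj (ya 0 (15 / 2))).re‖ ≤ _
        rw [Real.norm_eq_abs, abs_le]
        constructor <;> linarith [b2.1, b2.2, g2.1, g2.2]
      · change ‖(0 : ℝ) - (yv 0 (15 / 2) * conj (yb 0 (15 / 2))).re‖ ≤ _
        rw [Real.norm_eq_abs, abs_le]
        constructor <;> linarith [b3.1, b3.2, g3.1, g3.2])
    (by
      intro x x' hx hx'
      have hr := c4 x x' hx hx'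
      have r1 := (norm4_1 _).trans hr
      have r2 := (norm4_2 _).trans hr
      have r3 := (norm4_3 _).trans hr
      have r4 := (norm4_4 _).trans hr
      simp only [rr] at r1 r2 r3 r4
      obtain ⟨m1, m2⟩ := hM29 (x - x')
      have m3 := h.efu (x - x')
      have m4 := h.efv (x - x')
      obtain ⟨p1, p2⟩ := c3 x hx 29 (by norm_num) _ hτ
      obtain ⟨p3, p4⟩ := c3 x' hx' 29 (by norm_num) _ hτ
      obtain ⟨p5, p6⟩ := c3' x hx
      obtain ⟨p7, p8⟩ := c3' x' hx'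
      have b1 := (abs_im_le' _).trans (bil h.eA h.eB r1 r2 m1 m2 p2 p3)
      have b2 := (abs_re_le' _).trans (bil h.eU h.eA r3 r1 m3 m1 p1 p7)
      have b3 := (abs_re_le' _).trans (bil h.eV h.eB r4 r2 m4 m2 p2 p8)
      rw [sub_im, sub_im] at b1
      rw [sub_re, sub_re] at b2 b3
      have g1 := h.eD1 (x - x')
      have g2 := h.eD2 (x - x')
      have g3 := h.eD3 (x - x')
      have hn := norm_nonneg (x - x')
      simp only [Pi.sub_apply] at g1 g2 g3
      rw [abs_le] at b1 b2 b3 g1 g2 g3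
      rw [pi_norm_le_iff_of_nonneg (by positivity)]
      intro i
      fin_cases i
      · change ‖(x 0 - (ya x (15 / 2) * conj (yb x (15 / 2))).im) -
          (x' 0 - (ya x' (15 / 2) * conj (yb x' (15 / 2))).im)‖ ≤ _
        rw [Real.norm_eq_abs, abs_le]
        constructor <;> linarith [b1.1, b1.2, g1.1, g1.2]
      · change ‖(x 1 - (yu x (15 / 2) * conj (ya x (15 / 2))).re) -
          (x' 1 - (yu x' (15 / 2) * conj (ya x' (15 / 2))).re)‖ ≤ _
        rw [Real.norm_eq_abs, abs_le]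
        constructor <;> linarith [b2.1, b2.2, g2.1, g2.2]
      · change ‖(x 2 - (yv x (15 / 2) * conj (yb x (15 / 2))).re) -
          (x' 2 - (yv x' (15 / 2) * conj (yb x' (15 / 2))).re)‖ ≤ _
        rw [Real.norm_eq_abs, abs_le]
        constructor <;> linarith [b3.1, b3.2, g3.1, g3.2])
  have f1 : (ya x (15 / 2) * conj (yb x (15 / 2))).im = 0 := by
    have := congrFun hfix 0
    simp only [hN, Matrix.cons_val_zero] at this
    linarith
  have f2 : (yu x (15 / 2) * conj (ya x (15 / 2))).re = 0 := by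
    have := congrFun hfix 1
    simp only [hN, Matrix.cons_val_one, Matrix.cons_val_zero] at this
    linarith
  have f3 : (yv x (15 / 2) * conj (yb x (15 / 2))).re = 0 := by
    have := congrFun hfix 2
    simp only [hN, Matrix.cons_val_two, Matrix.tail_cons, Matrix.head_cons] at this
    linarith
  -- position of every time in a piece
  have hpiece : ∀ t ∈ Icc (0 : ℝ) (15 / 2), ∃ k : ℕ, k < 30 ∧
      t ∈ Icc ((k : ℝ) / 4) (((k + 1 : ℕ) : ℝ) / 4) := by
    intro t ht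
    rcases eq_or_lt_of_le ht.2 with h5 | h5
    · exact ⟨29, by norm_num, by rw [h5]; exact hτ⟩
    · refine ⟨⌊4 * t⌋₊, ?_, ?_, ?_⟩
      · rw [Nat.floor_lt (by linarith [ht.1])]
        push_cast
        linarith
      · have := Nat.floor_le (by linarith [ht.1] : 0 ≤ 4 * t)
        linarith
      · have := Nat.lt_floor_add_one (4 * t)
        push_cast
        linarith
  have hS := hs x
  have hfar : ∀ t ∈ Icc (0 : ℝ) (15 / 2), 2 / 5 ≤ ‖ya x t‖ ∧ 2 / 5 ≤ ‖yb x t‖ ∧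
      2 / 5 ≤ ‖yb x t - ya x t‖ := by
    intro t ht
    obtain ⟨k, hk, htk⟩ := hpiece t ht
    obtain ⟨p1, p2⟩ := c3 x hxρ k hk t htk
    have q1 := (h.ref k hk).ha t htk
    have q2 := (h.ref k hk).hb t htk
    have q3 := (h.ref k hk).hc t htk
    have e1 := norm_sub_norm_le (a k t) (a k t - ya x t)
    rw [sub_sub_cancel, norm_sub_rev (a k t)] at e1
    have e2 := norm_sub_norm_le (b k t) (b k t - yb x t)
    rw [sub_sub_cancel, norm_sub_rev (b k t)] at e2
    have e3 := norm_sub_norm_le (b k t - a k t) ((b k t - a k t) - (yb x t - ya x t))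
    rw [sub_sub_cancel] at e3
    have e4 : (b k t - a k t) - (yb x t - ya x t) = (ya x t - a k t) - (yb x t - b k t) := by ring
    rw [e4] at e3
    have e5 := norm_sub_le (ya x t - a k t) (yb x t - b k t)
    have e6 : (1 : ℝ) / 2 ^ 40 ≤ 1 / 100 := by norm_num
    refine ⟨?_, ?_, ?_⟩ <;> linarith
  have hlre : ∀ x : Fin 3 → ℝ, (lin x (fun i => (cl i : ℂ))).im = 0 := by
    intro x
    simp [lin]
  refine ⟨ya x, yb x, yu x, yv x, ⟨by norm_num, by norm_num, by norm_num, hS.da, hS.db, ?_, ?_,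
    ?_, ?_, ?_, f1, ?_, f2, f3, ?_, ?_, ?_⟩⟩
  · intro t ht
    obtain ⟨k1, k2, k3⟩ := hfar t ht
    rw [Fa_eq, ← FA_gt k1 k2 k3]
    exact hS.du t ht
  · intro t ht
    obtain ⟨k1, k2, k3⟩ := hfar t ht
    rw [Fb_eq, ← FB_gt k1 k2 k3]
    exact hS.dv t ht
  · rw [h1, h2]
  · rw [h2, add_im, hlre]; simp
  · rw [h3, h4]
  · obtain ⟨p1, p2⟩ := c3 x hxρ 29 (by norm_num) _ hτ
    have a1 := (abs_re_le' _).trans p1
    have a2 := (abs_im_le' _).trans p1
    have a3 := (abs_re_le' _).trans p2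
    have a4 := (abs_im_le' _).trans p2
    rw [sub_re] at a1 a3
    rw [sub_im] at a2 a4
    rw [abs_le] at a1 a2 a3 a4
    have e6 : (1 : ℝ) / 2 ^ 40 ≤ 1 / 100 := by norm_num
    have k1 := h.eAre
    have k2 := h.eAim
    have k3 := h.eBre
    have k4 := h.eBim
    have j1 : 0 < (ya x (15 / 2)).re := by linarith [a1.1]
    have j2 : 0 < (ya x (15 / 2)).im := by linarith [a2.1]
    have j3 : 0 < (yb x (15 / 2)).re := by linarith [a3.1]
    have j4 : 0 < (yb x (15 / 2)).im := by linarith [a4.1]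
    rw [mul_re, conj_re, conj_im]
    nlinarith [mul_pos j1 j3, mul_pos j2 j4]
  · intro t ht
    obtain ⟨k, hk, htk⟩ := hpiece t ht
    obtain ⟨p1, p2⟩ := c3 x hxρ k hk t htk
    have a1 := (abs_re_le' _).trans p1
    have a2 := (abs_im_le' _).trans p1
    rw [sub_re] at a1
    rw [sub_im] at a2
    rw [abs_le] at a1 a2
    have e6 : (1 : ℝ) / 2 ^ 40 ≤ 1 / 1000 := by norm_num
    rw [mem_slitPlane_iff]
    simp only [mul_re, I_re, zero_mul, I_im, one_mul, zero_sub, mul_im, zero_add]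
    rcases h.sa k hk t htk with s | s | s
    · right
      have : 0 < (ya x t).re := by linarith [a1.1]
      simpa using this.ne'
    · right
      have : (ya x t).re < 0 := by linarith [a1.2]
      simpa using this.ne
    · left
      linarith [a2.2]
  · intro t ht
    obtain ⟨k, hk, htk⟩ := hpiece t ht
    obtain ⟨p1, p2⟩ := c3 x hxρ k hk t htk
    have a1 := (abs_re_le' _).trans p2
    rw [sub_re, abs_le] at a1
    have e6 : (1 : ℝ) / 2 ^ 40 ≤ 1 / 1000 := by norm_num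
    linarith [h.sb k hk t htk, a1.1]
  · intro t ht
    obtain ⟨k, hk, htk⟩ := hpiece t ht
    obtain ⟨p1, p2⟩ := c3 x hxρ k hk t htk
    have a1 := (abs_re_le' _).trans p1
    have a2 := (abs_im_le' _).trans p1
    have a3 := (abs_re_le' _).trans p2
    have a4 := (abs_im_le' _).trans p2
    rw [sub_re] at a1 a3
    rw [sub_im] at a2 a4
    rw [abs_le] at a1 a2 a3 a4
    have e6 : (1 : ℝ) / 2 ^ 40 ≤ 1 / 1000 := by norm_num
    have hs := h.sc k hk t htk
    rw [sub_re, sub_im] at hs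
    rw [mem_slitPlane_iff]
    simp only [mul_re, I_re, zero_mul, I_im, one_mul, zero_sub, mul_im, zero_add, sub_re, sub_im]
    rcases hs with s | s | s
    · right
      have : 0 < (yb x t).re - (ya x t).re := by linarith [a1.1, a1.2, a3.1, a3.2]
      simpa using this.ne'
    · right
      have : (yb x t).re - (ya x t).re < 0 := by linarith [a1.1, a1.2, a3.1, a3.2]
      simpa using this.ne
    · left
      linarith [a2.1, a2.2, a4.1, a4.2]

end

end Pool.Agent.H70TB
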