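import Pool.Agent.helper70.TB.Ends
import Pool.Agent.helper70.TB.Checks
import Pool.Agent.helper70.TB.Fix

/-!
# The chain, and the quarter period solution
-/

set_option autoImplicit false
set_option exponentiation.threshold 1000

open Complex ComplexConjugate Set

namespace Pool.Agent.H70TB

lemma exp_256 (j : ℕ) : Real.exp ((j : ℝ) / 64 / 4) ≤ 256 ^ j / 255 ^ j := by
  have h1 : Real.exp (1 / 256) ≤ 256 / 255 := by
    have h := Real.one_sub_le_exp_neg (1 / 256)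
    rw [Real.exp_neg] at h
    have hp := Real.exp_pos (1 / 256)
    have h2 : (255 : ℝ) / 256 ≤ (Real.exp (1 / 256))⁻¹ := by
      refine le_trans (le_of_eq ?_) h
      norm_num
    rw [le_inv_comm₀ (by norm_num) hp] at h2
    refine h2.trans (le_of_eq ?_)
    norm_num
  have e : (j : ℝ) / 64 / 4 = (j : ℝ) * (1 / 256) := by ring
  rw [e, Real.exp_nat_mul, ← div_pow]
  gcongr

lemma three_bound (x : Fin 3 → ℝ) (c0 c1 c2 q : ℝ) (h : |c0| + |c1| + |c2| ≤ q) :
    |x 0 * c0 + x 1 * c1 + x 2 * c2| ≤ q * ‖x‖ := by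
  have n : ∀ i, |x i| ≤ ‖x‖ := fun i => by
    have := norm_le_pi_norm x i
    rwa [Real.norm_eq_abs] at this
  have hx := norm_nonneg x
  calc |x 0 * c0 + x 1 * c1 + x 2 * c2| ≤ |x 0 * c0| + |x 1 * c1| + |x 2 * c2| :=
        abs_add_three _ _ _
    _ = |x 0| * |c0| + |x 1| * |c1| + |x 2| * |c2| := by rw [abs_mul, abs_mul, abs_mul]
    _ ≤ ‖x‖ * |c0| + ‖x‖ * |c1| + ‖x‖ * |c2| := by gcongr <;> exact n _
    _ = (|c0| + |c1| + |c2|) * ‖x‖ := by ring
    _ ≤ q * ‖x‖ := by gcongr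

/-- initial data of the reference -/
noncomputable def ell0 : ℝ := 1252344710726366238304848042 / 2 ^ 90
noncomputable def w00 : ℂ :=
  ⟨516382959115607066238743299 / 2 ^ 90, -496839179352804965271983067 / 2 ^ 90⟩
noncomputable def cl0 : Fin 3 → ℝ :=
  ![-321213463640267 / 2 ^ 50, 235702885670657 / 2 ^ 50, -663374074635123 / 2 ^ 50]
noncomputable def cw0 : Fin 3 → ℂ :=
  ![⟨344896408819992 / 2 ^ 50, 106534366875166 / 2 ^ 50⟩,
    ⟨-137291994384374 / 2 ^ 50, -113990153949539 / 2 ^ 50⟩,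
    ⟨703687443443741 / 2 ^ 50, 92227334532627 / 2 ^ 50⟩]

lemma norm_mk_le {x y p q : ℝ} (h1 : |x| ≤ p) (h2 : |y| ≤ q) : ‖(⟨x, y⟩ : ℂ)‖ ≤ p + q :=
  norm_le_re_im (z := ⟨x, y⟩) h1 h2

lemma mk_sub (x y z w : ℝ) : (⟨x, y⟩ : ℂ) - ⟨z, w⟩ = ⟨x - z, y - w⟩ := by
  apply Complex.ext <;> simp

lemma ofReal_mk (x : ℝ) : (x : ℂ) = ⟨x, 0⟩ := rfl

lemma neg_mk (x y : ℝ) : -(⟨x, y⟩ : ℂ) = ⟨-x, -y⟩ := by
  apply Complex.ext <;> simp


lemma im_form (x : Fin 3 → ℝ) {a0 b0 a1 b1 a2 b2 c0 d0 c1 d1 c2 d2 r s t w X : ℝ} {q Q : ℝ}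
    (δ0 δ1 δ2 : ℝ) (hX : X = x 0 * δ0 + x 1 * δ1 + x 2 * δ2) (hQ : 3 * q = Q)
    (h0 : |b0 * r - a0 * s + (w * c0 - t * d0) - δ0| ≤ q)
    (h1 : |b1 * r - a1 * s + (w * c1 - t * d1) - δ1| ≤ q)
    (h2 : |b2 * r - a2 * s + (w * c2 - t * d2) - δ2| ≤ q) :
    |((⟨x 0 * a0 + x 1 * a1 + x 2 * a2, x 0 * b0 + x 1 * b1 + x 2 * b2⟩ : ℂ) * conj ⟨r, s⟩ +
      ⟨t, w⟩ * conj ⟨x 0 * c0 + x 1 * c1 + x 2 * c2, x 0 * d0 + x 1 * d1 + x 2 * d2⟩).im -
      X| ≤ Q * ‖x‖ := by
  have h := three_bound x _ _ _ Q (by linarith :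
    |b0 * r - a0 * s + (w * c0 - t * d0) - δ0| + |b1 * r - a1 * s + (w * c1 - t * d1) - δ1| +
    |b2 * r - a2 * s + (w * c2 - t * d2) - δ2| ≤ Q)
  convert h using 2
  rw [hX]
  simp only [add_im, mul_im, conj_re, conj_im]
  ring

lemma re_form (x : Fin 3 → ℝ) {a0 b0 a1 b1 a2 b2 c0 d0 c1 d1 c2 d2 r s t w X : ℝ} {q Q : ℝ}
    (δ0 δ1 δ2 : ℝ) (hX : X = x 0 * δ0 + x 1 * δ1 + x 2 * δ2) (hQ : 3 * q = Q)
    (h0 : |a0 * r + b0 * s + (t * c0 + w * d0) - δ0| ≤ q)
    (h1 : |a1 * r + b1 * s + (t * c1 + w * d1) - δ1| ≤ q)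
    (h2 : |a2 * r + b2 * s + (t * c2 + w * d2) - δ2| ≤ q) :
    |((⟨x 0 * a0 + x 1 * a1 + x 2 * a2, x 0 * b0 + x 1 * b1 + x 2 * b2⟩ : ℂ) * conj ⟨r, s⟩ +
      ⟨t, w⟩ * conj ⟨x 0 * c0 + x 1 * c1 + x 2 * c2, x 0 * d0 + x 1 * d1 + x 2 * d2⟩).re -
      X| ≤ Q * ‖x‖ := by
  have h := three_bound x _ _ _ Q (by linarith :
    |a0 * r + b0 * s + (t * c0 + w * d0) - δ0| + |a1 * r + b1 * s + (t * c1 + w * d1) - δ1| +
    |a2 * r + b2 * s + (t * c2 + w * d2) - δ2| ≤ Q)
  convert h using 2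
  rw [hX]
  simp only [add_re, mul_re, conj_re, conj_im]
  ring

lemma norm_lin_mk (x : Fin 3 → ℝ) {f : Fin 3 → ℂ} {p : ℝ} (h : ∀ i, |(f i).re| ≤ p)
    (h' : ∀ i, |(f i).im| ≤ p) : ‖lin x f‖ ≤ 6 * p * ‖x‖ := by
  refine (norm_lin_le x f (norm_le_re_im (h 0) (h' 0)) (norm_le_re_im (h 1) (h' 1))
    (norm_le_re_im (h 2) (h' 2))).trans (le_of_eq ?_)
  ring

theorem chain : Chain (fun k => aF (pc k) k) (fun k => bF (pc k) k) (fun k => uF (pc k) k)
    (fun k => vF (pc k) k) (fun k => faF (pc k) k) (fun k => fbF (pc k) k)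
    (fun k => fuF (pc k) k) (fun k => fvF (pc k) k) (fun k => (jn k : ℝ) / 64 - 1 / 8)
    (fun k => (jn k : ℝ) / 64) (fun k => ((nthN ks k : ℕ) : ℝ)) ell0 w00 cl0 cw0 where
  ref k hk := ref_of_ok (okPiece_all k hk)
  hl k _ := by simp
  hl1 k hk := by
    have := jn_ok k hk
    have h2 : (65 : ℝ) ≤ (jn k : ℝ) := by exact_mod_cast this
    change 1 < (jn k : ℝ) / 64
    linarith
  κlo k hk := by
    have := (ks_ok.1 k (by omega)).1
    exact_mod_cast this
  κhi k hk := by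
    have := (ks_ok.1 k (by omega)).2
    exact_mod_cast this
  κs k hk := by
    have h1 : (((nthN ks k * 256 ^ (jn k) + 255 ^ (jn k) : ℕ)) : ℝ) ≤
      ((nthN ks (k + 1) * 255 ^ (jn k) : ℕ) : ℝ) := by exact_mod_cast ks_ok.2 k hk
    push_cast at h1
    have h2 := exp_256 (jn k)
    have h3 : (0 : ℝ) < 255 ^ (jn k) := by positivity
    have h4 : (0 : ℝ) ≤ ((nthN ks k : ℕ) : ℝ) := Nat.cast_nonneg _
    calc ((nthN ks k : ℕ) : ℝ) * Real.exp ((jn k : ℝ) / 64 / 4) + 1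
        ≤ ((nthN ks k : ℕ) : ℝ) * (256 ^ (jn k) / 255 ^ (jn k)) + 1 := by gcongr
      _ = (((nthN ks k : ℕ) : ℝ) * 256 ^ (jn k) + 255 ^ (jn k)) / 255 ^ (jn k) := by
          field_simp
      _ ≤ (((nthN ks (k + 1) : ℕ) : ℝ) * 255 ^ (jn k)) / 255 ^ (jn k) := by gcongr
      _ = _ := by field_simp
  na k hk := (node_sound (okNode_all k hk) k).1.1
  nb k hk := (node_sound (okNode_all k hk) k).1.2.1
  nu k hk := (node_sound (okNode_all k hk) k).1.2.2.1
  nv k hk := (node_sound (okNode_all k hk) k).1.2.2.2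
  nfa k hk x := ((node_sound (okNode_all k hk) k).2 x).1
  nfb k hk x := ((node_sound (okNode_all k hk) k).2 x).2.1
  nfu k hk x := ((node_sound (okNode_all k hk) k).2 x).2.2.1
  nfv k hk x := ((node_sound (okNode_all k hk) k).2 x).2.2.2
  ia := by
    change ‖-(ell0 : ℂ) - aF P0 0 0‖ ≤ _
    rw [i_a, ofReal_mk, neg_mk, mk_sub, ell0]
    refine (norm_mk_le (p := 1 / 2 ^ 66) (q := 1 / 2 ^ 66) ?_ ?_).trans (by norm_num) <;>
    · rw [abs_le]; constructor <;> norm_num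
  ib := by
    change ‖(ell0 : ℂ) - bF P0 0 0‖ ≤ _
    rw [i_b, ofReal_mk, mk_sub, ell0]
    refine (norm_mk_le (p := 1 / 2 ^ 66) (q := 1 / 2 ^ 66) ?_ ?_).trans (by norm_num) <;>
    · rw [abs_le]; constructor <;> norm_num
  iu := by
    change ‖w00 - uF P0 0 0‖ ≤ _
    rw [i_u, w00, mk_sub]
    refine (norm_mk_le (p := 1 / 2 ^ 66) (q := 1 / 2 ^ 66) ?_ ?_).trans (by norm_num) <;>
    · rw [abs_le]; constructor <;> norm_num
  iv := by
    change ‖w00 - vF P0 0 0‖ ≤ _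
    rw [i_v, w00, mk_sub]
    refine (norm_mk_le (p := 1 / 2 ^ 66) (q := 1 / 2 ^ 66) ?_ ?_).trans (by norm_num) <;>
    · rw [abs_le]; constructor <;> norm_num
  ifa x := by
    have e : -lin x (fun i => (cl0 i : ℂ)) - lin x (faF P0 0 0) =
      lin x (fun i => -(cl0 i : ℂ) - faF P0 0 0 i) := by
      simp only [lin, mul_sub, mul_neg, Finset.sum_sub_distrib, Finset.sum_neg_distrib]
    change ‖-lin x (fun i => (cl0 i : ℂ)) - lin x (faF P0 0 0)‖ ≤ _
    rw [e]
    refine (norm_lin_mk x (p := 1 / 2 ^ 27) ?_ ?_).trans (by gcongr; norm_num)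
    · intro i
      fin_cases i
      · change |(-((-321213463640267 / 2 ^ 50 : ℝ) : ℂ) - faF P0 0 0 0).re| ≤ _
        rw [i_fa0, ofReal_mk, neg_mk, mk_sub, abs_le]
        constructor <;> norm_num
      · change |(-((235702885670657 / 2 ^ 50 : ℝ) : ℂ) - faF P0 0 0 1).re| ≤ _
        rw [i_fa1, ofReal_mk, neg_mk, mk_sub, abs_le]
        constructor <;> norm_num
      · change |(-((-663374074635123 / 2 ^ 50 : ℝ) : ℂ) - faF P0 0 0 2).re| ≤ _
        rw [i_fa2, ofReal_mk, neg_mk, mk_sub, abs_le]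
        constructor <;> norm_num
    · intro i
      fin_cases i
      · change |(-((-321213463640267 / 2 ^ 50 : ℝ) : ℂ) - faF P0 0 0 0).im| ≤ _
        rw [i_fa0, ofReal_mk, neg_mk, mk_sub, abs_le]
        constructor <;> norm_num
      · change |(-((235702885670657 / 2 ^ 50 : ℝ) : ℂ) - faF P0 0 0 1).im| ≤ _
        rw [i_fa1, ofReal_mk, neg_mk, mk_sub, abs_le]
        constructor <;> norm_num
      · change |(-((-663374074635123 / 2 ^ 50 : ℝ) : ℂ) - faF P0 0 0 2).im| ≤ _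
        rw [i_fa2, ofReal_mk, neg_mk, mk_sub, abs_le]
        constructor <;> norm_num
  ifb x := by
    change ‖lin x (fun i => (cl0 i : ℂ)) - lin x (fbF P0 0 0)‖ ≤ _
    rw [lin_sub']
    refine (norm_lin_mk x (p := 1 / 2 ^ 27) ?_ ?_).trans (by gcongr; norm_num)
    · intro i
      fin_cases i
      · change |(((-321213463640267 / 2 ^ 50 : ℝ) : ℂ) - fbF P0 0 0 0).re| ≤ _
        rw [i_fb0, ofReal_mk, mk_sub, abs_le]
        constructor <;> norm_num
      · change |(((235702885670657 / 2 ^ 50 : ℝ) : ℂ) - fbF P0 0 0 1).re| ≤ _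
        rw [i_fb1, ofReal_mk, mk_sub, abs_le]
        constructor <;> norm_num
      · change |(((-663374074635123 / 2 ^ 50 : ℝ) : ℂ) - fbF P0 0 0 2).re| ≤ _
        rw [i_fb2, ofReal_mk, mk_sub, abs_le]
        constructor <;> norm_num
    · intro i
      fin_cases i
      · change |(((-321213463640267 / 2 ^ 50 : ℝ) : ℂ) - fbF P0 0 0 0).im| ≤ _
        rw [i_fb0, ofReal_mk, mk_sub, abs_le]
        constructor <;> norm_num
      · change |(((235702885670657 / 2 ^ 50 : ℝ) : ℂ) - fbF P0 0 0 1).im| ≤ _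
        rw [i_fb1, ofReal_mk, mk_sub, abs_le]
        constructor <;> norm_num
      · change |(((-663374074635123 / 2 ^ 50 : ℝ) : ℂ) - fbF P0 0 0 2).im| ≤ _
        rw [i_fb2, ofReal_mk, mk_sub, abs_le]
        constructor <;> norm_num
  ifu x := by
    change ‖lin x cw0 - lin x (fuF P0 0 0)‖ ≤ _
    rw [lin_sub']
    refine (norm_lin_mk x (p := 1 / 2 ^ 27) ?_ ?_).trans (by gcongr; norm_num)
    · intro i
      fin_cases i
      · change |((⟨344896408819992 / 2 ^ 50, 106534366875166 / 2 ^ 50⟩ : ℂ) - fuF P0 0 0 0).re| ≤ _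
        rw [i_fu0, mk_sub, abs_le]
        constructor <;> norm_num
      · change |((⟨-137291994384374 / 2 ^ 50, -113990153949539 / 2 ^ 50⟩ : ℂ) -
          fuF P0 0 0 1).re| ≤ _
        rw [i_fu1, mk_sub, abs_le]
        constructor <;> norm_num
      · change |((⟨703687443443741 / 2 ^ 50, 92227334532627 / 2 ^ 50⟩ : ℂ) - fuF P0 0 0 2).re| ≤ _
        rw [i_fu2, mk_sub, abs_le]
        constructor <;> norm_num
    · intro i
      fin_cases i
      · change |((⟨344896408819992 / 2 ^ 50, 106534366875166 / 2 ^ 50⟩ : ℂ) - fuF P0 0 0 0).im| ≤ _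
        rw [i_fu0, mk_sub, abs_le]
        constructor <;> norm_num
      · change |((⟨-137291994384374 / 2 ^ 50, -113990153949539 / 2 ^ 50⟩ : ℂ) -
          fuF P0 0 0 1).im| ≤ _
        rw [i_fu1, mk_sub, abs_le]
        constructor <;> norm_num
      · change |((⟨703687443443741 / 2 ^ 50, 92227334532627 / 2 ^ 50⟩ : ℂ) - fuF P0 0 0 2).im| ≤ _
        rw [i_fu2, mk_sub, abs_le]
        constructor <;> norm_num
  ifv x := by
    change ‖lin x cw0 - lin x (fvF P0 0 0)‖ ≤ _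
    rw [lin_sub']
    refine (norm_lin_mk x (p := 1 / 2 ^ 27) ?_ ?_).trans (by gcongr; norm_num)
    · intro i
      fin_cases i
      · change |((⟨344896408819992 / 2 ^ 50, 106534366875166 / 2 ^ 50⟩ : ℂ) - fvF P0 0 0 0).re| ≤ _
        rw [i_fv0, mk_sub, abs_le]
        constructor <;> norm_num
      · change |((⟨-137291994384374 / 2 ^ 50, -113990153949539 / 2 ^ 50⟩ : ℂ) -
          fvF P0 0 0 1).re| ≤ _
        rw [i_fv1, mk_sub, abs_le]
        constructor <;> norm_num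
      · change |((⟨703687443443741 / 2 ^ 50, 92227334532627 / 2 ^ 50⟩ : ℂ) - fvF P0 0 0 2).re| ≤ _
        rw [i_fv2, mk_sub, abs_le]
        constructor <;> norm_num
    · intro i
      fin_cases i
      · change |((⟨344896408819992 / 2 ^ 50, 106534366875166 / 2 ^ 50⟩ : ℂ) - fvF P0 0 0 0).im| ≤ _
        rw [i_fv0, mk_sub, abs_le]
        constructor <;> norm_num
      · change |((⟨-137291994384374 / 2 ^ 50, -113990153949539 / 2 ^ 50⟩ : ℂ) -
          fvF P0 0 0 1).im| ≤ _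
        rw [i_fv1, mk_sub, abs_le]
        constructor <;> norm_num
      · change |((⟨703687443443741 / 2 ^ 50, 92227334532627 / 2 ^ 50⟩ : ℂ) - fvF P0 0 0 2).im| ≤ _
        rw [i_fv2, mk_sub, abs_le]
        constructor <;> norm_num
  eA := by
    change ‖aF P29 29 (15 / 2)‖ ≤ _
    rw [e_a]
    refine (norm_mk_le (p := 5 / 2) (q := 3 / 2) ?_ ?_).trans (by norm_num) <;>
    · rw [abs_le]; constructor <;> norm_num
  eB := by
    change ‖bF P29 29 (15 / 2)‖ ≤ _
    rw [e_b]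
    refine (norm_mk_le (p := 5 / 2) (q := 3 / 2) ?_ ?_).trans (by norm_num) <;>
    · rw [abs_le]; constructor <;> norm_num
  eU := by
    change ‖uF P29 29 (15 / 2)‖ ≤ _
    rw [e_u]
    refine (norm_mk_le (p := 5 / 2) (q := 3 / 2) ?_ ?_).trans (by norm_num) <;>
    · rw [abs_le]; constructor <;> norm_num
  eV := by
    change ‖vF P29 29 (15 / 2)‖ ≤ _
    rw [e_v]
    refine (norm_mk_le (p := 5 / 2) (q := 3 / 2) ?_ ?_).trans (by norm_num) <;>
    · rw [abs_le]; constructor <;> norm_num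
  efu x := by
    change ‖lin x (fuF P29 29 (15 / 2))‖ ≤ _
    refine (norm_lin_mk x (p := 2) ?_ ?_).trans (by gcongr; norm_num)
    · intro i
      fin_cases i
      · change |(fuF P29 29 (15 / 2) 0).re| ≤ _
        rw [e_fu0, abs_le]
        constructor <;> norm_num
      · change |(fuF P29 29 (15 / 2) 1).re| ≤ _
        rw [e_fu1, abs_le]
        constructor <;> norm_num
      · change |(fuF P29 29 (15 / 2) 2).re| ≤ _
        rw [e_fu2, abs_le]
        constructor <;> norm_num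
    · intro i
      fin_cases i
      · change |(fuF P29 29 (15 / 2) 0).im| ≤ _
        rw [e_fu0, abs_le]
        constructor <;> norm_num
      · change |(fuF P29 29 (15 / 2) 1).im| ≤ _
        rw [e_fu1, abs_le]
        constructor <;> norm_num
      · change |(fuF P29 29 (15 / 2) 2).im| ≤ _
        rw [e_fu2, abs_le]
        constructor <;> norm_num
  efv x := by
    change ‖lin x (fvF P29 29 (15 / 2))‖ ≤ _
    refine (norm_lin_mk x (p := 2) ?_ ?_).trans (by gcongr; norm_num)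
    · intro i
      fin_cases i
      · change |(fvF P29 29 (15 / 2) 0).re| ≤ _
        rw [e_fv0, abs_le]
        constructor <;> norm_num
      · change |(fvF P29 29 (15 / 2) 1).re| ≤ _
        rw [e_fv1, abs_le]
        constructor <;> norm_num
      · change |(fvF P29 29 (15 / 2) 2).re| ≤ _
        rw [e_fv2, abs_le]
        constructor <;> norm_num
    · intro i
      fin_cases i
      · change |(fvF P29 29 (15 / 2) 0).im| ≤ _
        rw [e_fv0, abs_le]
        constructor <;> norm_num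
      · change |(fvF P29 29 (15 / 2) 1).im| ≤ _
        rw [e_fv1, abs_le]
        constructor <;> norm_num
      · change |(fvF P29 29 (15 / 2) 2).im| ≤ _
        rw [e_fv2, abs_le]
        constructor <;> norm_num
  eG1 := by
    change |(aF P29 29 (15 / 2) * conj (bF P29 29 (15 / 2))).im| ≤ _
    rw [e_a, e_b, mul_im, conj_re, conj_im, abs_le]
    constructor <;> norm_num
  eG2 := by
    change |(uF P29 29 (15 / 2) * conj (aF P29 29 (15 / 2))).re| ≤ _
    rw [e_a, e_u, mul_re, conj_re, conj_im, abs_le]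
    constructor <;> norm_num
  eG3 := by
    change |(vF P29 29 (15 / 2) * conj (bF P29 29 (15 / 2))).re| ≤ _
    rw [e_b, e_v, mul_re, conj_re, conj_im, abs_le]
    constructor <;> norm_num
  eD1 x := by
    change |(lin x (faF P29 29 (15 / 2)) * conj (bF P29 29 (15 / 2)) +
      aF P29 29 (15 / 2) * conj (lin x (fbF P29 29 (15 / 2)))).im - x 0| ≤ _
    rw [e_a, e_b, lin_mk x e_fa0 e_fa1 e_fa2, lin_mk x e_fb0 e_fb1 e_fb2]
    refine im_form x (q := 1 / 48) 1 0 0 (by ring) (by norm_num) ?_ ?_ ?_ <;>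
    · rw [abs_le]; constructor <;> norm_num
  eD2 x := by
    change |(lin x (fuF P29 29 (15 / 2)) * conj (aF P29 29 (15 / 2)) +
      uF P29 29 (15 / 2) * conj (lin x (faF P29 29 (15 / 2)))).re - x 1| ≤ _
    rw [e_a, e_u, lin_mk x e_fa0 e_fa1 e_fa2, lin_mk x e_fu0 e_fu1 e_fu2]
    refine re_form x (q := 1 / 48) 0 1 0 (by ring) (by norm_num) ?_ ?_ ?_ <;>
    · rw [abs_le]; constructor <;> norm_num
  eD3 x := by
    change |(lin x (fvF P29 29 (15 / 2)) * conj (bF P29 29 (15 / 2)) +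
      vF P29 29 (15 / 2) * conj (lin x (fbF P29 29 (15 / 2)))).re - x 2| ≤ _
    rw [e_b, e_v, lin_mk x e_fb0 e_fb1 e_fb2, lin_mk x e_fv0 e_fv1 e_fv2]
    refine re_form x (q := 1 / 48) 0 0 1 (by ring) (by norm_num) ?_ ?_ ?_ <;>
    · rw [abs_le]; constructor <;> norm_num
  eAre := by
    change _ ≤ (aF P29 29 (15 / 2)).re
    rw [e_a]; norm_num
  eAim := by
    change _ ≤ (aF P29 29 (15 / 2)).im
    rw [e_a]; norm_num
  eBre := by
    change _ ≤ (bF P29 29 (15 / 2)).re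
    rw [e_b]; norm_num
  eBim := by
    change _ ≤ (bF P29 29 (15 / 2)).im
    rw [e_b]; norm_num
  sb k hk t ht := (sign_sound (D := pc k) (by
    have := okPiece_all k hk
    simp only [okPiece, Bool.and_eq_true] at this
    exact this.2.1.2.2) ht).1.1
  sa k hk t ht := (sign_sound (D := pc k) (by
    have := okPiece_all k hk
    simp only [okPiece, Bool.and_eq_true] at this
    exact this.2.1.2.2) ht).1.2
  sc k hk t ht := (sign_sound (D := pc k) (by
    have := okPiece_all k hk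
    simp only [okPiece, Bool.and_eq_true] at this
    exact this.2.1.2.2) ht).2

/-- the quarter period solution -/
theorem exists_quarter : ∃ a b u v : ℝ → ℂ, Quarter (3 / 50) (1 / 10) (15 / 2) a b u v :=
  shoot chain

end Pool.Agent.H70TB
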