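import Mathlib

/-!
# Gluing of curves by reflection and by translation
-/

set_option autoImplicit false

open Set

namespace Pool.Agent.H70TB

section
variable {E : Type*} [NormedAddCommGroup E] [NormedSpace ℝ E]

/-- extension by reflection about `0` -/
noncomputable def refl (R : E →L[ℝ] E) (f : ℝ → E) (t : ℝ) : E := if 0 ≤ t then f t else R (f (-t))

lemma refl_pos (R : E →L[ℝ] E) (f : ℝ → E) {t : ℝ} (ht : 0 ≤ t) : refl R f t = f t := by
  rw [refl, if_pos ht]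

lemma refl_nonpos (R : E →L[ℝ] E) (f : ℝ → E) (h0 : R (f 0) = f 0) {t : ℝ} (ht : t ≤ 0) :
    refl R f t = R (f (-t)) := by
  rcases eq_or_lt_of_le ht with rfl | ht
  · rw [refl, if_pos le_rfl, neg_zero, h0]
  · rw [refl, if_neg (not_le.2 ht)]

theorem hasDeriv_refl (R : E →L[ℝ] E) {f f' : ℝ → E} {T : ℝ} (hT : 0 ≤ T)
    (hf : ∀ t ∈ Icc 0 T, HasDerivWithinAt f (f' t) (Icc 0 T) t)
    (h0 : R (f 0) = f 0) (h0' : (-R) (f' 0) = f' 0) :
    ∀ t ∈ Icc (-T) T, HasDerivWithinAt (refl R f) (refl (-R) f' t) (Icc (-T) T) t := by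
  -- right part
  have hr : ∀ t ∈ Icc 0 T, HasDerivWithinAt (refl R f) (refl (-R) f' t) (Icc 0 T) t := by
    intro t ht
    rw [refl_pos _ _ ht.1]
    exact (hf t ht).congr (fun s hs => refl_pos R f hs.1) (refl_pos R f ht.1)
  have hl : ∀ t ∈ Icc (-T) 0, HasDerivWithinAt (refl R f) (refl (-R) f' t) (Icc (-T) 0) t := by
    intro t ht
    have ht' : -t ∈ Icc 0 T := ⟨by linarith [ht.2], by linarith [ht.1]⟩
    rw [refl_nonpos _ _ h0' ht.2]
    have h1 : HasDerivWithinAt (fun s : ℝ => -s) (-1) (Icc (-T) 0) t :=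
      (hasDerivAt_neg t).hasDerivWithinAt
    have h2 : HasDerivWithinAt (fun s => f (-s)) ((-1 : ℝ) • f' (-t)) (Icc (-T) 0) t :=
      (hf (-t) ht').scomp t h1 (fun s hs => ⟨by linarith [hs.2], by linarith [hs.1]⟩)
    have h3 : HasDerivWithinAt (fun s => R (f (-s))) (R ((-1 : ℝ) • f' (-t))) (Icc (-T) 0) t :=
      R.hasFDerivAt.comp_hasDerivWithinAt t h2
    have e : R ((-1 : ℝ) • f' (-t)) = (-R) (f' (-t)) := by
      simp
    rw [e] at h3
    exact h3.congr (fun s hs => refl_nonpos R f h0 hs.2) (refl_nonpos R f h0 ht.2)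
  intro t ht
  have hun : Icc (-T) T = Icc (-T) 0 ∪ Icc 0 T := (Icc_union_Icc_eq_Icc (by linarith) hT).symm
  rcases lt_trichotomy t 0 with h | h | h
  · have := hl t ⟨ht.1, h.le⟩
    apply this.mono_of_mem_nhdsWithin
    have h1 : Iio (0 : ℝ) ∈ nhds t := Iio_mem_nhds h
    rw [mem_nhdsWithin]
    exact ⟨Iio 0, isOpen_Iio, h, fun s hs => ⟨hs.2.1, hs.1.le⟩⟩
  · subst h
    rw [hun]
    exact (hl 0 ⟨by linarith, le_rfl⟩).union (hr 0 ⟨le_rfl, hT⟩)
  · have := hr t ⟨h.le, ht.2⟩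
    apply this.mono_of_mem_nhdsWithin
    rw [mem_nhdsWithin]
    exact ⟨Ioi 0, isOpen_Ioi, h, fun s hs => ⟨hs.1.le, hs.2.2⟩⟩

/-- powers of an involution -/
noncomputable def apow (A : E →L[ℝ] E) (k : ℤ) : E →L[ℝ] E :=
  if Even k then ContinuousLinearMap.id ℝ E else A

lemma apow_even (A : E →L[ℝ] E) {k : ℤ} (h : Even k) (x : E) : apow A k x = x := by
  rw [apow, if_pos h]; rfl

lemma apow_odd (A : E →L[ℝ] E) {k : ℤ} (h : ¬Even k) (x : E) : apow A k x = A x := by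
  rw [apow, if_neg h]

lemma apow_succ (A : E →L[ℝ] E) (hA : ∀ x, A (A x) = x) (k : ℤ) (x : E) :
    apow A (k + 1) x = apow A k (A x) := by
  by_cases h : Even k
  · rw [apow_even A h, apow_odd A (by rw [Int.even_add_one]; exact not_not.2 h)]
  · rw [apow_odd A h, hA, apow_even A (by rw [Int.even_add_one]; exact h)]

/-- twisted periodic extension of `Φ : [α, α + L] → E` -/
noncomputable def ext (A : E →L[ℝ] E) (α L : ℝ) (Φ : ℝ → E) (t : ℝ) : E :=
  apow A ⌊(t - α) / L⌋ (Φ (t - ⌊(t - α) / L⌋ * L))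

lemma ext_eq (A : E →L[ℝ] E) (hA : ∀ x, A (A x) = x) {α L : ℝ} (hL : 0 < L) {Φ : ℝ → E}
    (hΦ : A (Φ α) = Φ (α + L)) (k : ℤ) {t : ℝ} (ht : t ∈ Icc (α + k * L) (α + (k + 1) * L)) :
    ext A α L Φ t = apow A k (Φ (t - k * L)) := by
  rcases eq_or_lt_of_le ht.2 with h | h
  · have hfl : ⌊(t - α) / L⌋ = k + 1 := by
      rw [Int.floor_eq_iff]
      have : (t - α) / L = k + 1 := by rw [h]; field_simp; ring
      rw [this]; push_cast; constructor <;> linarith
    rw [ext, hfl, apow_succ A hA]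
    have e1 : t - ((k + 1 : ℤ) : ℝ) * L = α := by rw [h]; push_cast; ring
    have e2 : t - (k : ℝ) * L = α + L := by rw [h]; ring
    rw [e1, e2, hΦ]
  · have hfl : ⌊(t - α) / L⌋ = k := by
      rw [Int.floor_eq_iff]
      constructor
      · rw [le_div_iff₀ hL]; linarith [ht.1]
      · rw [div_lt_iff₀ hL]; linarith
    rw [ext, hfl]

theorem hasDerivAt_ext (A : E →L[ℝ] E) (hA : ∀ x, A (A x) = x) {α L : ℝ} (hL : 0 < L)
    {Φ Φ' : ℝ → E} (hd : ∀ t ∈ Icc α (α + L), HasDerivWithinAt Φ (Φ' t) (Icc α (α + L)) t)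
    (hΦ : A (Φ α) = Φ (α + L)) (hΦ' : A (Φ' α) = Φ' (α + L)) (t : ℝ) :
    HasDerivAt (ext A α L Φ) (ext A α L Φ' t) t := by
  have key : ∀ (k : ℤ), ∀ t ∈ Icc (α + k * L) (α + (k + 1) * L),
      HasDerivWithinAt (ext A α L Φ) (ext A α L Φ' t) (Icc (α + k * L) (α + (k + 1) * L)) t := by
    intro k t ht
    rw [ext_eq A hA hL hΦ' k ht]
    have ht' : t - k * L ∈ Icc α (α + L) := ⟨by linarith [ht.1], by linarith [ht.2]⟩
    have h1 : HasDerivWithinAt (fun s : ℝ => s - k * L) 1 (Icc (α + k * L) (α + (k + 1) * L)) t :=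
      ((hasDerivAt_id t).sub_const _).hasDerivWithinAt
    have hm : MapsTo (fun s : ℝ => s - k * L) (Icc (α + k * L) (α + (k + 1) * L))
        (Icc α (α + L)) := fun s hs => ⟨by linarith [hs.1], by linarith [hs.2]⟩
    have h2 : HasDerivWithinAt (fun s => Φ (s - k * L)) ((1 : ℝ) • Φ' (t - k * L))
        (Icc (α + k * L) (α + (k + 1) * L)) t :=
      (hd _ ht').scomp t h1 hm
    rw [one_smul] at h2
    have h3 := (apow A k).hasFDerivAt.comp_hasDerivWithinAt t h2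
    exact h3.congr (fun s hs => ext_eq A hA hL hΦ k hs) (ext_eq A hA hL hΦ k ht)
  have hright : HasDerivWithinAt (ext A α L Φ) (ext A α L Φ' t) (Ici t) t := by
    set k := ⌊(t - α) / L⌋ with hk
    have h1 : (k : ℝ) ≤ (t - α) / L := Int.floor_le _
    have h2 : (t - α) / L < k + 1 := Int.lt_floor_add_one _
    rw [le_div_iff₀ hL] at h1
    rw [div_lt_iff₀ hL] at h2
    have ht : t ∈ Icc (α + k * L) (α + (k + 1) * L) := ⟨by linarith, by linarith⟩
    apply (key k t ht).mono_of_mem_nhdsWithin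
    exact Icc_mem_nhdsGE_of_mem ⟨by linarith, by linarith⟩
  have hleft : HasDerivWithinAt (ext A α L Φ) (ext A α L Φ' t) (Iic t) t := by
    set k := ⌈(t - α) / L⌉ - 1 with hk
    have h1 : (k : ℝ) < (t - α) / L := by
      rw [hk]; push_cast
      have := Int.ceil_lt_add_one ((t - α) / L)
      linarith
    have h2 : (t - α) / L ≤ k + 1 := by
      rw [hk]; push_cast
      have := Int.le_ceil ((t - α) / L)
      linarith
    rw [lt_div_iff₀ hL] at h1
    rw [div_le_iff₀ hL] at h2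
    have ht : t ∈ Icc (α + k * L) (α + (k + 1) * L) := ⟨by linarith, by linarith⟩
    apply (key k t ht).mono_of_mem_nhdsWithin
    exact Icc_mem_nhdsLE_of_mem ⟨by linarith, by linarith⟩
  have := hleft.union hright
  rw [Iic_union_Ici] at this
  exact hasDerivWithinAt_univ.1 this

lemma ext_add_two (A : E →L[ℝ] E) {α L : ℝ} (hL : 0 < L) (Φ : ℝ → E) (t : ℝ) :
    ext A α L Φ (t + 2 * L) = ext A α L Φ t := by
  have hfl : ⌊(t + 2 * L - α) / L⌋ = ⌊(t - α) / L⌋ + 2 := by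
    have : (t + 2 * L - α) / L = (t - α) / L + 2 := by field_simp; ring
    rw [this, Int.floor_add_ofNat]
  rw [ext, ext, hfl]
  have e1 : t + 2 * L - ((⌊(t - α) / L⌋ + 2 : ℤ) : ℝ) * L = t - ⌊(t - α) / L⌋ * L := by
    push_cast; ring
  rw [e1]
  by_cases h : Even ⌊(t - α) / L⌋
  · rw [apow_even A h, apow_even A (h.add (by decide))]
  · rw [apow_odd A h, apow_odd A (fun h2 => h (by
      have := h2.sub (by decide : Even (2 : ℤ))
      rwa [add_sub_cancel_right] at this))]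

end

end Pool.Agent.H70TB
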