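import Pool.Agent.helper70.TB.Defs

/-!
# Continuous arguments
-/

set_option autoImplicit false

open Complex ComplexConjugate Set

namespace Pool.Agent.H70TB

/-- `z` has a continuous argument on `[p, q]` with end values `α`, `β` -/
def Lift (z : ℝ → ℂ) (p q α β : ℝ) : Prop :=
  ∃ θ : ℝ → ℝ, ContinuousOn θ (Icc p q) ∧
    (∀ t ∈ Icc p q, z t = (‖z t‖ : ℂ) * exp ((θ t : ℂ) * I)) ∧ θ p = α ∧ θ q = β

lemma Lift.trans {z : ℝ → ℂ} {p q r α β γ : ℝ} (h1 : Lift z p q α β) (h2 : Lift z q r β γ)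
    (hpq : p ≤ q) (hqr : q ≤ r) : Lift z p r α γ := by
  obtain ⟨θ, c1, e1, a1, b1⟩ := h1
  obtain ⟨φ, c2, e2, a2, b2⟩ := h2
  refine ⟨fun t => if t ≤ q then θ t else φ t, ?_, ?_, ?_, ?_⟩
  · rw [← Icc_union_Icc_eq_Icc hpq hqr]
    apply ContinuousOn.union_of_isClosed _ _ isClosed_Icc isClosed_Icc
    · apply c1.congr
      intro t ht
      simp only [ht.2, if_true]
    · apply c2.congr
      intro t ht
      rcases eq_or_lt_of_le ht.1 with h | h
      · subst h
        simp only [le_refl, if_true]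
        rw [b1, a2]
      · simp only [not_le.2 h, if_false]
  · intro t ht
    by_cases h : t ≤ q
    · simp only [h, if_true]
      exact e1 t ⟨ht.1, h⟩
    · simp only [h, if_false]
      exact e2 t ⟨(not_le.1 h).le, ht.2⟩
  · simp only [hpq, if_true]
    exact a1
  · by_cases h : r ≤ q
    · have : r = q := le_antisymm h hqr
      subst this
      simp only [le_refl, if_true]
      rw [b1, ← a2, b2]
    · simp only [h, if_false]
      exact b2

/-- reversal and conjugation -/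
lemma Lift.conj_rev {w z : ℝ → ℂ} {p q α β κ s p' q' : ℝ} {η : ℂ} (h : Lift w p q α β)
    (hη : η = exp ((κ : ℂ) * I)) (hp : p' = s - q) (hq : q' = s - p)
    (hz : ∀ t ∈ Icc p' q', z t = η * conj (w (s - t))) : Lift z p' q' (κ - β) (κ - α) := by
  obtain ⟨θ, c1, e1, a1, b1⟩ := h
  subst hp hq
  have hmaps : MapsTo (fun t : ℝ => s - t) (Icc (s - q) (s - p)) (Icc p q) := fun t ht =>
    ⟨by linarith [ht.2], by linarith [ht.1]⟩
  refine ⟨fun t => κ - θ (s - t), ?_, ?_, ?_, ?_⟩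
  · exact continuousOn_const.sub (c1.comp (by fun_prop) hmaps)
  · intro t ht
    have h1 := e1 (s - t) (hmaps ht)
    have hn : ‖z t‖ = ‖w (s - t)‖ := by
      rw [hz t ht, norm_mul, RCLike.norm_conj, hη, Complex.norm_exp_ofReal_mul_I, one_mul]
    rw [hn, hz t ht, hη]
    conv_lhs => rw [h1]
    rw [map_mul, conj_ofReal, ← exp_conj, map_mul, conj_ofReal, conj_I, ← mul_assoc,
      mul_comm (exp ((κ : ℂ) * I)), mul_assoc, ← Complex.exp_add]
    congr 2
    push_cast
    ring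
  · change κ - θ (s - (s - q)) = _
    rw [sub_sub_cancel, b1]
  · change κ - θ (s - (s - p)) = _
    rw [sub_sub_cancel, a1]

/-- translation and conjugation -/
lemma Lift.conj_shift {w z : ℝ → ℂ} {p q α β κ s p' q' : ℝ} {η : ℂ} (h : Lift w p q α β)
    (hη : η = exp ((κ : ℂ) * I)) (hp : p' = p + s) (hq : q' = q + s)
    (hz : ∀ t ∈ Icc p' q', z t = η * conj (w (t - s))) : Lift z p' q' (κ - α) (κ - β) := by
  obtain ⟨θ, c1, e1, a1, b1⟩ := h
  subst hp hq
  have hmaps : MapsTo (fun t : ℝ => t - s) (Icc (p + s) (q + s)) (Icc p q) := fun t ht =>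
    ⟨by linarith [ht.1], by linarith [ht.2]⟩
  refine ⟨fun t => κ - θ (t - s), ?_, ?_, ?_, ?_⟩
  · exact continuousOn_const.sub (c1.comp (by fun_prop) hmaps)
  · intro t ht
    have h1 := e1 (t - s) (hmaps ht)
    have hn : ‖z t‖ = ‖w (t - s)‖ := by
      rw [hz t ht, norm_mul, RCLike.norm_conj, hη, Complex.norm_exp_ofReal_mul_I, one_mul]
    rw [hn, hz t ht, hη]
    conv_lhs => rw [h1]
    rw [map_mul, conj_ofReal, ← exp_conj, map_mul, conj_ofReal, conj_I, ← mul_assoc,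
      mul_comm (exp ((κ : ℂ) * I)), mul_assoc, ← Complex.exp_add]
    congr 2
    push_cast
    ring
  · change κ - θ (p + s - s) = _
    rw [add_sub_cancel_right, a1]
  · change κ - θ (q + s - s) = _
    rw [add_sub_cancel_right, b1]

/-- reversal -/
lemma Lift.rev {w z : ℝ → ℂ} {p q α β κ s p' q' : ℝ} {η : ℂ} (h : Lift w p q α β)
    (hη : η = exp ((κ : ℂ) * I)) (hp : p' = s - q) (hq : q' = s - p)
    (hz : ∀ t ∈ Icc p' q', z t = η * w (s - t)) : Lift z p' q' (κ + β) (κ + α) := by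
  obtain ⟨θ, c1, e1, a1, b1⟩ := h
  subst hp hq
  have hmaps : MapsTo (fun t : ℝ => s - t) (Icc (s - q) (s - p)) (Icc p q) := fun t ht =>
    ⟨by linarith [ht.2], by linarith [ht.1]⟩
  refine ⟨fun t => κ + θ (s - t), ?_, ?_, ?_, ?_⟩
  · exact continuousOn_const.add (c1.comp (by fun_prop) hmaps)
  · intro t ht
    have h1 := e1 (s - t) (hmaps ht)
    have hn : ‖z t‖ = ‖w (s - t)‖ := by
      rw [hz t ht, norm_mul, hη, Complex.norm_exp_ofReal_mul_I, one_mul]
    rw [hn, hz t ht, hη]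
    conv_lhs => rw [h1]
    rw [← mul_assoc, mul_comm (exp ((κ : ℂ) * I)), mul_assoc, ← Complex.exp_add]
    congr 2
    push_cast
    ring
  · change κ + θ (s - (s - q)) = _
    rw [sub_sub_cancel, b1]
  · change κ + θ (s - (s - p)) = _
    rw [sub_sub_cancel, a1]

/-- multiplication by a constant of modulus one -/
lemma Lift.smul {w z : ℝ → ℂ} {p q α β κ : ℝ} {η : ℂ} (h : Lift w p q α β)
    (hη : η = exp ((κ : ℂ) * I)) (hz : ∀ t ∈ Icc p q, z t = η * w t) :
    Lift z p q (κ + α) (κ + β) := by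
  obtain ⟨θ, c1, e1, a1, b1⟩ := h
  refine ⟨fun t => κ + θ t, continuousOn_const.add c1, ?_, ?_, ?_⟩
  · intro t ht
    have h1 := e1 t ht
    have hn : ‖z t‖ = ‖w t‖ := by
      rw [hz t ht, norm_mul, hη, Complex.norm_exp_ofReal_mul_I, one_mul]
    rw [hn, hz t ht, hη]
    conv_lhs => rw [h1]
    rw [← mul_assoc, mul_comm (exp ((κ : ℂ) * I)), mul_assoc, ← Complex.exp_add]
    congr 2
    push_cast
    ring
  · change κ + θ p = _
    rw [a1]
  · change κ + θ q = _
    rw [b1]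

lemma Lift.congr {w z : ℝ → ℂ} {p q α β : ℝ} (h : Lift w p q α β)
    (hz : ∀ t ∈ Icc p q, z t = w t) : Lift z p q α β := by
  obtain ⟨θ, c1, e1, a1, b1⟩ := h
  refine ⟨θ, c1, fun t ht => ?_, a1, b1⟩
  rw [hz t ht]
  exact e1 t ht

/-- the principal argument as a lift -/
lemma Lift.of_arg {z : ℝ → ℂ} {p q : ℝ} (hc : ContinuousOn z (Icc p q))
    (hs : ∀ t ∈ Icc p q, z t ∈ slitPlane) : Lift z p q (arg (z p)) (arg (z q)) := by
  refine ⟨fun t => arg (z t), ?_, fun t _ => ?_, rfl, rfl⟩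
  · intro t ht
    exact (Complex.continuousAt_arg (hs t ht)).comp_continuousWithinAt (hc t ht)
  · exact (Complex.norm_mul_exp_arg_mul_I (z t)).symm

lemma exp_half_pi : (-I : ℂ) = exp (((-(Real.pi / 2) : ℝ) : ℂ) * I) := by
  rw [Complex.exp_mul_I, ← ofReal_cos, ← ofReal_sin, Real.cos_neg, Real.sin_neg,
    Real.cos_pi_div_two, Real.sin_pi_div_two]
  simp

lemma exp_pi' : (-1 : ℂ) = exp (((Real.pi : ℝ) : ℂ) * I) := by
  rw [Complex.exp_pi_mul_I]

lemma exp_neg_pi' : (-1 : ℂ) = exp (((-Real.pi : ℝ) : ℂ) * I) := by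
  rw [Complex.exp_mul_I, ← ofReal_cos, ← ofReal_sin, Real.cos_neg, Real.sin_neg,
    Real.cos_pi, Real.sin_pi]
  simp

/-- a lift of a curve avoiding the ray `i [0, ∞)` -/
lemma Lift.of_arg' {z : ℝ → ℂ} {p q : ℝ} (hc : ContinuousOn z (Icc p q))
    (hs : ∀ t ∈ Icc p q, I * z t ∈ slitPlane) :
    Lift z p q (arg (I * z p) - Real.pi / 2) (arg (I * z q) - Real.pi / 2) := by
  have h := Lift.of_arg (z := fun t => I * z t) (continuousOn_const.mul hc) hs
  have h2 := h.smul (z := z) exp_half_pi (fun t _ => by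
    rw [← mul_assoc]; simp)
  have e1 : arg (I * z p) - Real.pi / 2 = -(Real.pi / 2) + arg (I * z p) := by ring
  have e2 : arg (I * z q) - Real.pi / 2 = -(Real.pi / 2) + arg (I * z q) := by ring
  rw [e1, e2]
  exact h2

end Pool.Agent.H70TB
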