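import Pool.Agent.helper70.TB.Defs
import Pool.Agent.helper70.TB.Glueing
import Pool.Agent.helper70.TB.Lift

/-!
# From the quarter period to the periodic orbit
-/

set_option autoImplicit false

open Complex ComplexConjugate Set

namespace Pool.Agent.H70TB

/-- first symmetry on positions -/
noncomputable def R1 : ℂ × ℂ →L[ℝ] ℂ × ℂ :=
  (-(ContinuousLinearMap.snd ℝ ℂ ℂ)).prod (-(ContinuousLinearMap.fst ℝ ℂ ℂ))

lemma R1_apply (p : ℂ × ℂ) : R1 p = (-p.2, -p.1) := rfl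

/-- product of both symmetries on positions -/
noncomputable def RA (ε : ℂ) : ℂ × ℂ →L[ℝ] ℂ × ℂ :=
  ((ContinuousLinearMap.mul ℝ ℂ (-ε)).comp
    ((conjCLE : ℂ →L[ℝ] ℂ).comp (ContinuousLinearMap.snd ℝ ℂ ℂ))).prod
  ((ContinuousLinearMap.mul ℝ ℂ (-ε)).comp
    ((conjCLE : ℂ →L[ℝ] ℂ).comp (ContinuousLinearMap.fst ℝ ℂ ℂ)))

lemma RA_apply (ε : ℂ) (p : ℂ × ℂ) : RA ε p = (-ε * conj p.2, -ε * conj p.1) := rfl

lemma RA_RA {ε : ℂ} (hε : ε * conj ε = 1) (p : ℂ × ℂ) : RA ε (RA ε p) = p := by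
  rw [RA_apply, RA_apply]
  apply Prod.ext
  · simp only [map_mul, map_neg, conj_conj]
    linear_combination p.1 * hε
  · simp only [map_mul, map_neg, conj_conj]
    linear_combination p.2 * hε

/-- the force -/
noncomputable def FF (μ m : ℝ) (p : ℂ × ℂ) : ℂ × ℂ := (Fa μ m p.1 p.2, Fb μ m p.1 p.2)

lemma g_neg (z : ℂ) : g (-z) = -g z := by
  rw [g, g, norm_neg, neg_div]

lemma norm_eps {ε : ℂ} (hε : ε * conj ε = 1) : ‖ε‖ = 1 := by
  rw [Complex.mul_conj, Complex.normSq_eq_norm_sq] at hε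
  have h : ‖ε‖ ^ 2 = 1 := by exact_mod_cast hε
  nlinarith [norm_nonneg ε]

lemma g_conj {ε : ℂ} (hε : ε * conj ε = 1) (z : ℂ) : g (-ε * conj z) = -ε * conj (g z) := by
  have hn := norm_eps hε
  rw [g, g, norm_mul, norm_neg, hn, RCLike.norm_conj, one_mul, map_div₀, map_pow, conj_ofReal,
    mul_div_assoc]

lemma FF_R1 (μ m : ℝ) (p : ℂ × ℂ) : FF μ m (R1 p) = R1 (FF μ m p) := by
  rw [R1_apply, R1_apply, FF, FF, Fa, Fb, Fa, Fb]
  have e : -p.1 - -p.2 = p.2 - p.1 := by ring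
  apply Prod.ext
  · simp only [e, g_neg]; ring
  · simp only [e, g_neg]; ring

lemma FF_RA (μ m : ℝ) {ε : ℂ} (hε : ε * conj ε = 1) (p : ℂ × ℂ) :
    FF μ m (RA ε p) = RA ε (FF μ m p) := by
  rw [RA_apply, RA_apply, FF, FF, Fa, Fb, Fa, Fb]
  have e : -ε * conj p.1 - -ε * conj p.2 = -(-ε * conj (p.2 - p.1)) := by
    rw [map_sub]; ring
  have E : g (-ε * conj p.1 - -ε * conj p.2) = ε * conj (g (p.2 - p.1)) := by
    rw [e, g_neg, g_conj hε]; ring
  apply Prod.ext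
  · simp only [E, g_conj hε, map_add, map_sub, map_mul, conj_ofReal, map_neg]; ring
  · simp only [E, g_conj hε, map_add, map_sub, map_mul, conj_ofReal, map_neg]; ring

/-- no collision -/
def Good (p : ℂ × ℂ) : Prop := p.1 ≠ 0 ∧ p.2 ≠ 0 ∧ p.2 - p.1 ≠ 0

lemma Good.R1 {p : ℂ × ℂ} (h : Good p) : Good (R1 p) := by
  rw [R1_apply]
  refine ⟨neg_ne_zero.2 h.2.1, neg_ne_zero.2 h.1, ?_⟩
  have e : -p.1 - -p.2 = p.2 - p.1 := by ring
  rw [e]; exact h.2.2

lemma Good.RA {p : ℂ × ℂ} {ε : ℂ} (hε : ε * conj ε = 1) (h : Good p) : Good (RA ε p) := by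
  rw [RA_apply]
  have h0 : ε ≠ 0 := fun h0 => by rw [h0] at hε; simp at hε
  have h0' : -ε ≠ 0 := neg_ne_zero.2 h0
  refine ⟨mul_ne_zero h0' (by simpa using h.2.1), mul_ne_zero h0' (by simpa using h.1), ?_⟩
  have e : -ε * conj p.1 - -ε * conj p.2 = ε * conj (p.2 - p.1) := by
    rw [map_sub]; ring
  rw [e]
  exact mul_ne_zero h0 (by
    rw [Ne, map_eq_zero]; exact h.2.2)

section
variable {μ m τ : ℝ} {a b u v : ℝ → ℂ}

theorem assembly (h : Quarter μ m τ a b u v) : ClassRealised 1 0 (-1) := by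
  obtain ⟨hμ, hm, hτ, da, db, du, dv, ha0, hb0, hu0, e1, e1', e2, e3, wa, wb, wc⟩ := h
  have hne_a : ∀ t ∈ Icc (0 : ℝ) τ, a t ≠ 0 := fun t ht h0 => by
    have := wa t ht
    rw [h0, mul_zero] at this
    exact zero_notMem_slitPlane this
  have hne_b : ∀ t ∈ Icc (0 : ℝ) τ, b t ≠ 0 := fun t ht h0 => by
    have := wb t ht
    rw [h0] at this
    simp at this
  have hne_c : ∀ t ∈ Icc (0 : ℝ) τ, b t - a t ≠ 0 := fun t ht h0 => by
    have := wc t ht
    rw [h0, mul_zero] at this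
    exact zero_notMem_slitPlane this
  have hτm : τ ∈ Icc (0 : ℝ) τ := ⟨hτ.le, le_rfl⟩
  have h0m : (0 : ℝ) ∈ Icc (0 : ℝ) τ := ⟨le_rfl, hτ.le⟩
  have haτ := hne_a τ hτm
  have hbτ := hne_b τ hτm
  have hcaτ : conj (a τ) ≠ 0 := by simpa using haτ
  have hcbτ : conj (b τ) ≠ 0 := by simpa using hbτ
  set ε : ℂ := a τ / conj (a τ) with hεdef
  have hεa : ε * conj (a τ) = a τ := by rw [hεdef]; field_simp
  have hε : ε * conj ε = 1 := by
    rw [hεdef, map_div₀, conj_conj]; field_simp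
  -- `a b̄` is real
  have hreal : a τ * conj (b τ) = conj (a τ) * b τ := by
    have h1 : conj (a τ * conj (b τ)) = a τ * conj (b τ) := by
      rw [Complex.conj_eq_iff_im]; exact e1
    rw [map_mul, conj_conj] at h1
    exact h1.symm
  have hεb : ε * conj (b τ) = b τ := by
    rw [hεdef, div_mul_eq_mul_div, hreal]; field_simp
  have hεu : -ε * conj (u τ) = u τ := by
    have h1 : u τ * conj (a τ) + conj (u τ * conj (a τ)) = 0 := by
      rw [Complex.add_conj, e2]; simp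
    rw [map_mul, conj_conj] at h1
    have h2 : -(a τ * conj (u τ)) = u τ * conj (a τ) := by linear_combination -h1
    rw [hεdef, neg_mul, div_mul_eq_mul_div, ← neg_div, h2]; field_simp
  have hεv : -ε * conj (v τ) = v τ := by
    have h1 : v τ * conj (b τ) + conj (v τ * conj (b τ)) = 0 := by
      rw [Complex.add_conj, e3]; simp
    rw [map_mul, conj_conj] at h1
    have h2 : ε * conj (b τ) * conj (v τ) = -(v τ * conj (b τ)) := by
      rw [hεb]; linear_combination h1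
    have h3 : (-ε * conj (v τ)) * conj (b τ) = v τ * conj (b τ) := by linear_combination -h2
    exact mul_right_cancel₀ hcbτ h3
  -- curves
  set x0 : ℝ → ℂ × ℂ := fun t => (a t, b t) with hx0
  set v0 : ℝ → ℂ × ℂ := fun t => (u t, v t) with hv0
  set f0 : ℝ → ℂ × ℂ := fun t => FF μ m (x0 t) with hf0
  have dx0 : ∀ t ∈ Icc 0 τ, HasDerivWithinAt x0 (v0 t) (Icc 0 τ) t := fun t ht =>
    (da t ht).prodMk (db t ht)
  have dv0 : ∀ t ∈ Icc 0 τ, HasDerivWithinAt v0 (f0 t) (Icc 0 τ) t := fun t ht =>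
    (du t ht).prodMk (dv t ht)
  have s1 : R1 (x0 0) = x0 0 := by
    rw [R1_apply]
    apply Prod.ext
    · change -(b 0) = a 0; rw [ha0]
    · change -(a 0) = b 0; rw [ha0, neg_neg]
  have s2 : (-R1) (v0 0) = v0 0 := by
    rw [neg_apply, R1_apply]
    apply Prod.ext
    · change -(-(v 0)) = u 0; rw [neg_neg, hu0]
    · change -(-(u 0)) = v 0; rw [neg_neg, hu0]
  have s3 : (-(-R1)) (f0 0) = f0 0 := by
    rw [neg_neg, hf0]
    change R1 (FF μ m (x0 0)) = FF μ m (x0 0)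
    rw [← FF_R1, s1]
  have s3' : R1 (f0 0) = f0 0 := by
    rw [neg_neg] at s3; exact s3
  have D1 := hasDeriv_refl R1 hτ.le dx0 s1 s2
  have D2 := hasDeriv_refl (-R1) hτ.le dv0 s2 s3
  rw [neg_neg] at D2
  set Φ := refl R1 x0 with hΦ
  set Φ' := refl (-R1) v0 with hΦ'
  set Φ'' := refl R1 f0 with hΦ''
  have hsum : -τ + 2 * τ = τ := by ring
  have k1 : RA ε (Φ (-τ)) = Φ (-τ + 2 * τ) := by
    rw [hsum, hΦ, refl_nonpos R1 x0 s1 (by linarith), neg_neg, refl_pos R1 x0 hτ.le, R1_apply,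
      RA_apply]
    apply Prod.ext
    · change -ε * conj (-(a τ)) = a τ
      rw [map_neg, neg_mul_neg, hεa]
    · change -ε * conj (-(b τ)) = b τ
      rw [map_neg, neg_mul_neg, hεb]
  have k2 : RA ε (Φ' (-τ)) = Φ' (-τ + 2 * τ) := by
    rw [hsum, hΦ', refl_nonpos (-R1) v0 s2 (by linarith), neg_neg, refl_pos (-R1) v0 hτ.le,
      neg_apply, R1_apply, RA_apply]
    apply Prod.ext
    · change -ε * conj (-(-(u τ))) = u τ
      rw [neg_neg, hεu]
    · change -ε * conj (-(-(v τ))) = v τ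
      rw [neg_neg, hεv]
  have k3 : RA ε (Φ'' (-τ)) = Φ'' (-τ + 2 * τ) := by
    have e : Φ'' (-τ) = FF μ m (Φ (-τ)) := by
      rw [hΦ'', hΦ, refl_nonpos R1 f0 s3' (by linarith), refl_nonpos R1 x0 s1 (by linarith),
        FF_R1]
    rw [e, ← FF_RA μ m hε, k1, hsum, hΦ'', hΦ, refl_pos R1 f0 hτ.le, refl_pos R1 x0 hτ.le]
  have h2τ : (0 : ℝ) < 2 * τ := by linarith
  have D1' : ∀ t ∈ Icc (-τ) (-τ + 2 * τ), HasDerivWithinAt Φ (Φ' t) (Icc (-τ) (-τ + 2 * τ)) t := by
    rw [hsum]; exact D1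
  have D2' : ∀ t ∈ Icc (-τ) (-τ + 2 * τ),
      HasDerivWithinAt Φ' (Φ'' t) (Icc (-τ) (-τ + 2 * τ)) t := by
    rw [hsum]; exact D2
  set X := ext (RA ε) (-τ) (2 * τ) Φ with hX
  set V := ext (RA ε) (-τ) (2 * τ) Φ' with hV
  set W := ext (RA ε) (-τ) (2 * τ) Φ'' with hW
  have dX : ∀ t, HasDerivAt X (V t) t := hasDerivAt_ext (RA ε) (RA_RA hε) h2τ D1' k1 k2
  have dV : ∀ t, HasDerivAt V (W t) t := hasDerivAt_ext (RA ε) (RA_RA hε) h2τ D2' k2 k3
  have hWX : ∀ t, W t = FF μ m (X t) := by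
    intro t
    rw [hW, hX, ext, ext]
    have e : ∀ s, Φ'' s = FF μ m (Φ s) := by
      intro s
      rw [hΦ'', hΦ, refl, refl]
      split_ifs
      · rfl
      · rw [FF_R1]
    rw [e]
    by_cases hk : Even ⌊(t - -τ) / (2 * τ)⌋
    · rw [apow_even _ hk, apow_even _ hk]
    · rw [apow_odd _ hk, apow_odd _ hk, FF_RA μ m hε]
  have hgood : ∀ t, Good (X t) := by
    intro t
    have hs : t - ⌊(t - -τ) / (2 * τ)⌋ * (2 * τ) ∈ Icc (-τ) τ := by
      have f1 := Int.floor_le ((t - -τ) / (2 * τ))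
      have f2 := Int.lt_floor_add_one ((t - -τ) / (2 * τ))
      rw [le_div_iff₀ h2τ] at f1
      rw [div_lt_iff₀ h2τ] at f2
      constructor <;> linarith
    rw [hX, ext]
    set s := t - ⌊(t - -τ) / (2 * τ)⌋ * (2 * τ) with hsdef
    have hg : Good (Φ s) := by
      rw [hΦ, refl]
      split_ifs with hs0
      · exact ⟨hne_a s ⟨hs0, hs.2⟩, hne_b s ⟨hs0, hs.2⟩, hne_c s ⟨hs0, hs.2⟩⟩
      · have hs1 : -s ∈ Icc 0 τ := ⟨by linarith, by linarith [hs.1]⟩
        exact Good.R1 ⟨hne_a _ hs1, hne_b _ hs1, hne_c _ hs1⟩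
    by_cases hk : Even ⌊(t - -τ) / (2 * τ)⌋
    · rw [apow_even _ hk]; exact hg
    · rw [apow_odd _ hk]; exact hg.RA hε
  have hper : ∀ t, X (t + 4 * τ) = X t := by
    intro t
    have := ext_add_two (RA ε) h2τ Φ (α := -τ) t
    rw [← hX] at this
    rw [← this]
    congr 1
    ring
  -- explicit formulas
  have P0 : ∀ t ∈ Icc 0 τ, X t = (a t, b t) := by
    intro t ht
    have := ext_eq (RA ε) (RA_RA hε) h2τ k1 0 (t := t) ⟨by push_cast; linarith [ht.1],
      by push_cast; linarith [ht.2]⟩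
    rw [hX, this, apow_even _ (by decide)]
    have e : t - ((0 : ℤ) : ℝ) * (2 * τ) = t := by push_cast; ring
    rw [e, hΦ, refl_pos _ _ ht.1]
  have P12 : ∀ t ∈ Icc τ (3 * τ), X t = RA ε (Φ (t - 2 * τ)) := by
    intro t ht
    have := ext_eq (RA ε) (RA_RA hε) h2τ k1 1 (t := t) ⟨by push_cast; linarith [ht.1],
      by push_cast; linarith [ht.2]⟩
    rw [hX, this, apow_odd _ (by decide)]
    have e : t - ((1 : ℤ) : ℝ) * (2 * τ) = t - 2 * τ := by push_cast; ring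
    rw [e]
  have P1 : ∀ t ∈ Icc τ (2 * τ), X t = (ε * conj (a (2 * τ - t)), ε * conj (b (2 * τ - t))) := by
    intro t ht
    rw [P12 t ⟨ht.1, by linarith [ht.2]⟩, hΦ, refl_nonpos R1 x0 s1 (by linarith [ht.2]), R1_apply,
      RA_apply]
    have e : -(t - 2 * τ) = 2 * τ - t := by ring
    rw [e]
    apply Prod.ext
    · change -ε * conj (-(a (2 * τ - t))) = _
      rw [map_neg, neg_mul_neg]
    · change -ε * conj (-(b (2 * τ - t))) = _
      rw [map_neg, neg_mul_neg]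
  have P2 : ∀ t ∈ Icc (2 * τ) (3 * τ),
      X t = (-ε * conj (b (t - 2 * τ)), -ε * conj (a (t - 2 * τ))) := by
    intro t ht
    rw [P12 t ⟨by linarith [ht.1], ht.2⟩, hΦ, refl_pos R1 x0 (by linarith [ht.1]), RA_apply]
  have P3 : ∀ t ∈ Icc (3 * τ) (4 * τ), X t = (-b (4 * τ - t), -a (4 * τ - t)) := by
    intro t ht
    have := ext_eq (RA ε) (RA_RA hε) h2τ k1 2 (t := t) ⟨by push_cast; linarith [ht.1],
      by push_cast; linarith [ht.2]⟩
    rw [hX, this, apow_even _ (by decide)]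
    have e : t - ((2 : ℤ) : ℝ) * (2 * τ) = t - 4 * τ := by push_cast; ring
    rw [e, hΦ, refl_nonpos R1 x0 s1 (by linarith [ht.2]), R1_apply]
    have e' : -(t - 4 * τ) = 4 * τ - t := by ring
    rw [e']
  -- the lifts on the quarter
  have ca : ContinuousOn a (Icc 0 τ) := fun t ht => (da t ht).continuousWithinAt
  have cb : ContinuousOn b (Icc 0 τ) := fun t ht => (db t ht).continuousWithinAt
  set Θ := arg (b τ) with hΘ
  have hb0pos : 0 < (b 0).re := wb 0 h0m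
  have hb0eq : b 0 = ((b 0).re : ℂ) := by
    apply Complex.ext <;> simp [hb0]
  have Lb : Lift b 0 τ 0 Θ := by
    have := Lift.of_arg cb (fun t ht => by
      rw [mem_slitPlane_iff]; exact Or.inl (wb t ht))
    have e : arg (b 0) = 0 := by
      rw [hb0eq]; exact arg_ofReal_of_nonneg hb0pos.le
    rwa [e] at this
  -- positive multiple
  obtain ⟨r, hr, har⟩ : ∃ r : ℝ, 0 < r ∧ a τ = (r : ℂ) * b τ := by
    refine ⟨(a τ * conj (b τ)).re / normSq (b τ), by
      have := normSq_pos.2 hbτ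
      positivity, ?_⟩
    have e : a τ * conj (b τ) = (((a τ * conj (b τ)).re : ℝ) : ℂ) := by
      apply Complex.ext
      · simp
      · rw [e1]; simp
    have h1 : (normSq (b τ) : ℂ) = b τ * conj (b τ) := (Complex.mul_conj _).symm
    rw [ofReal_div, h1, ← e]
    field_simp
  have hΘlt : -(Real.pi / 2) < Θ ∧ Θ < Real.pi / 2 := by
    have := (Complex.abs_arg_lt_pi_div_two_iff (z := b τ)).2 (Or.inl (wb τ hτm))
    exact abs_lt.1 this
  have hargia : arg (I * a τ) = Θ + Real.pi / 2 := by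
    have h1 : a τ = ((r * ‖b τ‖ : ℝ) : ℂ) * exp ((Θ : ℂ) * I) := by
      rw [har]
      conv_lhs => rw [← Complex.norm_mul_exp_arg_mul_I (b τ)]
      push_cast; ring
    have h2 : I * a τ = ((r * ‖b τ‖ : ℝ) : ℂ) * (exp (((Θ + Real.pi / 2 : ℝ) : ℂ) * I)) := by
      rw [h1]
      have : exp (((Θ + Real.pi / 2 : ℝ) : ℂ) * I) = exp ((Θ : ℂ) * I) * I := by
        rw [ofReal_add, add_mul, Complex.exp_add]
        congr 1
        rw [Complex.exp_mul_I, ← ofReal_cos, ← ofReal_sin, Real.cos_pi_div_two,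
          Real.sin_pi_div_two]
        simp
      rw [this]; ring
    rw [h2, Complex.exp_mul_I]
    apply Complex.arg_mul_cos_add_sin_mul_I
    · have := norm_pos_iff.2 hbτ
      positivity
    · constructor <;> linarith [hΘlt.1, hΘlt.2, Real.pi_pos]
  have hargi0 : arg (I * a 0) = -(Real.pi / 2) := by
    have h1 : I * a 0 = (((b 0).re : ℝ) : ℂ) * (-I) := by
      rw [ha0]
      conv_lhs => rw [hb0eq]
      ring
    rw [h1, arg_real_mul _ hb0pos, arg_neg_I]
  have La : Lift a 0 τ (-Real.pi) Θ := by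
    have := Lift.of_arg' ca wa
    rw [hargia, hargi0] at this
    have e1 : -(Real.pi / 2) - Real.pi / 2 = -Real.pi := by ring
    have e2 : Θ + Real.pi / 2 - Real.pi / 2 = Θ := by ring
    rwa [e1, e2] at this
  set γ0 := arg (I * (b 0 - a 0)) - Real.pi / 2 with hγ0
  set γ1 := arg (I * (b τ - a τ)) - Real.pi / 2 with hγ1
  have Lc : Lift (fun t => b t - a t) 0 τ γ0 γ1 := Lift.of_arg' (cb.sub ca) wc
  -- `ε` in terms of the arguments
  have hεΘ : ε = exp (((2 * Θ : ℝ) : ℂ) * I) := by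
    have h1 : b τ = (‖b τ‖ : ℂ) * exp ((Θ : ℂ) * I) := (Complex.norm_mul_exp_arg_mul_I _).symm
    have h2 : conj (b τ) = (‖b τ‖ : ℂ) * exp (-((Θ : ℂ) * I)) := by
      rw [h1]
      simp only [map_mul, conj_ofReal, ← exp_conj, conj_I, norm_mul, Complex.norm_real, norm_norm,
        Complex.norm_exp_ofReal_mul_I, mul_one, mul_neg]
    have h3 : (‖b τ‖ : ℂ) ≠ 0 := by
      have := norm_ne_zero_iff.2 hbτ
      exact_mod_cast this
    have h4 : ε * ((‖b τ‖ : ℂ) * exp (-((Θ : ℂ) * I))) = (‖b τ‖ : ℂ) * exp ((Θ : ℂ) * I) := by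
      rw [← h2, ← h1]; exact hεb
    have h5 : exp (-((Θ : ℂ) * I)) * exp ((Θ : ℂ) * I) = 1 := by
      rw [← Complex.exp_add]; simp
    have h6 : exp (((2 * Θ : ℝ) : ℂ) * I) = exp ((Θ : ℂ) * I) * exp ((Θ : ℂ) * I) := by
      rw [← Complex.exp_add]; congr 1; push_cast; ring
    have h7 : ε * exp (-((Θ : ℂ) * I)) = exp ((Θ : ℂ) * I) := by
      apply mul_left_cancel₀ h3
      linear_combination h4
    rw [h6]
    linear_combination (exp ((Θ : ℂ) * I)) * h7 - ε * h5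
  have hεc : ε * conj (b τ - a τ) = b τ - a τ := by
    rw [map_sub, mul_sub, hεa, hεb]
  have hεγ : ε = exp (((2 * γ1 : ℝ) : ℂ) * I) := by
    obtain ⟨θ, -, e, -, hθ⟩ := Lc
    have h1 := e τ hτm
    simp only at h1
    rw [hθ] at h1
    set c := b τ - a τ with hc
    have hcne : c ≠ 0 := hne_c τ hτm
    have h2 : conj c = (‖c‖ : ℂ) * exp (-((γ1 : ℂ) * I)) := by
      rw [h1]
      simp only [map_mul, conj_ofReal, ← exp_conj, conj_I, norm_mul, Complex.norm_real, norm_norm,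
        Complex.norm_exp_ofReal_mul_I, mul_one, mul_neg]
    have h3 : (‖c‖ : ℂ) ≠ 0 := by
      have := norm_ne_zero_iff.2 hcne
      exact_mod_cast this
    have h4 : ε * ((‖c‖ : ℂ) * exp (-((γ1 : ℂ) * I))) = (‖c‖ : ℂ) * exp ((γ1 : ℂ) * I) := by
      rw [← h2, ← h1]; exact hεc
    have h5 : exp (-((γ1 : ℂ) * I)) * exp ((γ1 : ℂ) * I) = 1 := by
      rw [← Complex.exp_add]; simp
    have h6 : exp (((2 * γ1 : ℝ) : ℂ) * I) = exp ((γ1 : ℂ) * I) * exp ((γ1 : ℂ) * I) := by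
      rw [← Complex.exp_add]; congr 1; push_cast; ring
    have h7 : ε * exp (-((γ1 : ℂ) * I)) = exp ((γ1 : ℂ) * I) := by
      apply mul_left_cancel₀ h3
      linear_combination h4
    rw [h6]
    linear_combination (exp ((γ1 : ℂ) * I)) * h7 - ε * h5
  have hnegε : -ε = exp (((2 * Θ + Real.pi : ℝ) : ℂ) * I) := by
    rw [hεΘ, ofReal_add, add_mul, Complex.exp_add, Complex.exp_pi_mul_I]; ring
  have hnegε' : -ε = exp (((2 * Θ - Real.pi : ℝ) : ℂ) * I) := by
    have : ((2 * Θ - Real.pi : ℝ) : ℂ) * I = ((2 * Θ : ℝ) : ℂ) * I + ((-Real.pi : ℝ) : ℂ) * I := by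
      push_cast; ring
    rw [this, Complex.exp_add, ← exp_neg_pi', ← hεΘ]; ring
  -- total lifts
  have LA : Lift (fun t => (X t).1) 0 (4 * τ) (-Real.pi) Real.pi := by
    have q0 : Lift (fun t => (X t).1) 0 τ (-Real.pi) Θ := La.congr fun t ht => by rw [P0 t ht]
    have q1 : Lift (fun t => (X t).1) τ (2 * τ) (2 * Θ - Θ) (2 * Θ - -Real.pi) :=
      La.conj_rev (s := 2 * τ) hεΘ (by ring) (by ring) fun t ht => by rw [P1 t ht]
    have q2 : Lift (fun t => (X t).1) (2 * τ) (3 * τ) (2 * Θ + Real.pi - 0)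
        (2 * Θ + Real.pi - Θ) :=
      Lb.conj_shift (s := 2 * τ) hnegε (by ring) (by ring) fun t ht => by rw [P2 t ht]
    have q3 : Lift (fun t => (X t).1) (3 * τ) (4 * τ) (Real.pi + Θ) (Real.pi + 0) :=
      Lb.rev (s := 4 * τ) exp_pi' (by ring) (by ring) fun t ht => by rw [P3 t ht]; ring
    have t1 : 2 * Θ - Θ = Θ := by ring
    have t2 : 2 * Θ - -Real.pi = 2 * Θ + Real.pi - 0 := by ring
    have t3 : 2 * Θ + Real.pi - Θ = Real.pi + Θ := by ring
    rw [t1, t2] at q1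
    rw [t3] at q2
    rw [add_zero] at q3
    exact ((q0.trans q1 hτ.le (by linarith)).trans q2 (by linarith) (by linarith)).trans q3
      (by linarith) (by linarith)
  have LB : Lift (fun t => (X t).2) 0 (4 * τ) 0 (-(2 * Real.pi)) := by
    have q0 : Lift (fun t => (X t).2) 0 τ 0 Θ := Lb.congr fun t ht => by rw [P0 t ht]
    have q1 : Lift (fun t => (X t).2) τ (2 * τ) (2 * Θ - Θ) (2 * Θ - 0) :=
      Lb.conj_rev (s := 2 * τ) hεΘ (by ring) (by ring) fun t ht => by rw [P1 t ht]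
    have q2 : Lift (fun t => (X t).2) (2 * τ) (3 * τ) (2 * Θ - Real.pi - -Real.pi)
        (2 * Θ - Real.pi - Θ) :=
      La.conj_shift (s := 2 * τ) hnegε' (by ring) (by ring) fun t ht => by rw [P2 t ht]
    have q3 : Lift (fun t => (X t).2) (3 * τ) (4 * τ) (-Real.pi + Θ) (-Real.pi + -Real.pi) :=
      La.rev (s := 4 * τ) exp_neg_pi' (by ring) (by ring) fun t ht => by rw [P3 t ht]; ring
    have t1 : 2 * Θ - Θ = Θ := by ring
    have t2 : 2 * Θ - Real.pi - -Real.pi = 2 * Θ - 0 := by ring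
    have t3 : 2 * Θ - Real.pi - Θ = -Real.pi + Θ := by ring
    have t4 : -Real.pi + -Real.pi = -(2 * Real.pi) := by ring
    rw [t1] at q1
    rw [t2, t3] at q2
    rw [t4] at q3
    exact ((q0.trans q1 hτ.le (by linarith)).trans q2 (by linarith) (by linarith)).trans q3
      (by linarith) (by linarith)
  have LC : Lift (fun t => (X t).2 - (X t).1) 0 (4 * τ) γ0 γ0 := by
    have q0 : Lift (fun t => (X t).2 - (X t).1) 0 τ γ0 γ1 := Lc.congr fun t ht => by rw [P0 t ht]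
    have q1 : Lift (fun t => (X t).2 - (X t).1) τ (2 * τ) (2 * γ1 - γ1) (2 * γ1 - γ0) :=
      Lc.conj_rev (s := 2 * τ) hεγ (by ring) (by ring) fun t ht => by
        rw [P1 t ht]; simp only [map_sub]; ring
    have q2 : Lift (fun t => (X t).2 - (X t).1) (2 * τ) (3 * τ) (2 * γ1 - γ0) (2 * γ1 - γ1) :=
      Lc.conj_shift (s := 2 * τ) hεγ (by ring) (by ring) fun t ht => by
        rw [P2 t ht]; simp only [map_sub]; ring
    have q3 : Lift (fun t => (X t).2 - (X t).1) (3 * τ) (4 * τ) (0 + γ1) (0 + γ0) :=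
      Lc.rev (η := 1) (s := 4 * τ) (by simp) (by ring) (by ring) fun t ht => by
        rw [P3 t ht]; ring
    have t1 : 2 * γ1 - γ1 = γ1 := by ring
    rw [t1] at q1 q2
    rw [zero_add, zero_add] at q3
    exact ((q0.trans q1 hτ.le (by linarith)).trans q2 (by linarith) (by linarith)).trans q3
      (by linarith) (by linarith)
  -- the bodies
  set M : ℝ := μ + 2 * m with hMdef
  have hM : 0 < M := by positivity
  have hMne : (M : ℂ) ≠ 0 := by exact_mod_cast hM.ne'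
  set Y : Fin 3 → ℝ → ℂ := fun i t =>
    (![0, (X t).1, (X t).2] : Fin 3 → ℂ) i - (m : ℂ) / (M : ℂ) * ((X t).1 + (X t).2) with hY
  set Z : Fin 3 → ℝ → ℂ := fun i t =>
    (![0, (V t).1, (V t).2] : Fin 3 → ℂ) i - (m : ℂ) / (M : ℂ) * ((V t).1 + (V t).2) with hZ
  have dX1 : ∀ t, HasDerivAt (fun t => (X t).1) (V t).1 t := fun t => by
    have h0 := dX t
    rw [hasDerivAt_iff_hasFDerivAt] at h0
    have h1 : HasFDerivAt (fun t => (X t).1) _ t := h0.fst
    have h2 := h1.hasDerivAt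
    convert h2 using 1
    simp
  have dX2 : ∀ t, HasDerivAt (fun t => (X t).2) (V t).2 t := fun t => by
    have h0 := dX t
    rw [hasDerivAt_iff_hasFDerivAt] at h0
    have h1 : HasFDerivAt (fun t => (X t).2) _ t := h0.snd
    have h2 := h1.hasDerivAt
    convert h2 using 1
    simp
  have dV1 : ∀ t, HasDerivAt (fun t => (V t).1) (Fa μ m (X t).1 (X t).2) t := fun t => by
    have h0 := dV t
    rw [hWX, hasDerivAt_iff_hasFDerivAt] at h0
    have h1 : HasFDerivAt (fun t => (V t).1) _ t := h0.fst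
    have h2 := h1.hasDerivAt
    convert h2 using 1
    simp [FF]
  have dV2 : ∀ t, HasDerivAt (fun t => (V t).2) (Fb μ m (X t).1 (X t).2) t := fun t => by
    have h0 := dV t
    rw [hWX, hasDerivAt_iff_hasFDerivAt] at h0
    have h1 : HasFDerivAt (fun t => (V t).2) _ t := h0.snd
    have h2 := h1.hasDerivAt
    convert h2 using 1
    simp [FF]
  have Y10 : ∀ t, Y 1 t - Y 0 t = (X t).1 := fun t => by
    simp [hY]
  have Y20 : ∀ t, Y 2 t - Y 0 t = (X t).2 := fun t => by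
    simp [hY]
  have Y21 : ∀ t, Y 2 t - Y 1 t = (X t).2 - (X t).1 := fun t => by
    simp [hY]
  have E0 : Finset.univ.erase (0 : Fin 3) = {1, 2} := by decide
  have E1 : Finset.univ.erase (1 : Fin 3) = {0, 2} := by decide
  have E2 : Finset.univ.erase (2 : Fin 3) = {0, 1} := by decide
  have hπ := Real.pi_pos
  refine ⟨![μ, m, m], 4 * τ, Y, ?_, by linarith, ?_, ?_, ?_, ?_, ?_, ?_, ?_⟩
  · intro i
    fin_cases i
    · exact hμ
    · exact hm
    · exact hm
  · intro t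
    rw [Fin.sum_univ_three]
    simp only [hY, Matrix.cons_val_zero, Matrix.cons_val_one, Matrix.cons_val_two,
      Matrix.tail_cons, Matrix.head_cons]
    have : (M : ℂ) = μ + 2 * m := by rw [hMdef]; push_cast; ring
    field_simp
    rw [this]
    ring
  · -- Newton
    refine ⟨Z, fun i t => ?_⟩
    have dS : HasDerivAt (fun t => (m : ℂ) / (M : ℂ) * ((X t).1 + (X t).2))
        ((m : ℂ) / (M : ℂ) * ((V t).1 + (V t).2)) t := ((dX1 t).add (dX2 t)).const_mul _
    have dSV : HasDerivAt (fun t => (m : ℂ) / (M : ℂ) * ((V t).1 + (V t).2))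
        ((m : ℂ) / (M : ℂ) * (Fa μ m (X t).1 (X t).2 + Fb μ m (X t).1 (X t).2)) t :=
      ((dV1 t).add (dV2 t)).const_mul _
    have hsumF : (m : ℂ) / (M : ℂ) * (Fa μ m (X t).1 (X t).2 + Fb μ m (X t).1 (X t).2) =
        -(m : ℂ) * (g (X t).1 + g (X t).2) := by
      have hM' : (M : ℂ) = μ + 2 * m := by rw [hMdef]; push_cast; ring
      have : Fa μ m (X t).1 (X t).2 + Fb μ m (X t).1 (X t).2 =
          -(M : ℂ) * (g (X t).1 + g (X t).2) := by
        rw [Fa, Fb, hM']; push_cast; ring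
      rw [this]; field_simp
    have Y01 : Y 0 t - Y 1 t = -(X t).1 := by rw [← Y10 t]; ring
    have Y02 : Y 0 t - Y 2 t = -(X t).2 := by rw [← Y20 t]; ring
    have Y12 : Y 1 t - Y 2 t = -((X t).2 - (X t).1) := by rw [← Y21 t]; ring
    fin_cases i
    · constructor
      · have := (hasDerivAt_const t (0 : ℂ)).sub dS
        exact this
      · refine ⟨_, (hasDerivAt_const t (0 : ℂ)).sub dSV, ?_⟩
        change (μ : ℂ) * (0 - _) = ∑ j ∈ Finset.univ.erase (0 : Fin 3),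
          (μ : ℂ) * (((![μ, m, m] : Fin 3 → ℝ) j : ℝ) : ℂ) * (Y j t - Y 0 t) /
            (‖Y j t - Y 0 t‖ : ℂ) ^ 3
        rw [E0, Finset.sum_pair (by decide), Y10, Y20, hsumF, g, g]
        change _ = (μ : ℂ) * (m : ℂ) * _ / _ + (μ : ℂ) * (m : ℂ) * _ / _
        ring
    · constructor
      · exact (dX1 t).sub dS
      · refine ⟨_, (dV1 t).sub dSV, ?_⟩
        change (m : ℂ) * (Fa μ m (X t).1 (X t).2 - _) = ∑ j ∈ Finset.univ.erase (1 : Fin 3),
          (m : ℂ) * (((![μ, m, m] : Fin 3 → ℝ) j : ℝ) : ℂ) * (Y j t - Y 1 t) /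
            (‖Y j t - Y 1 t‖ : ℂ) ^ 3
        rw [E1, Finset.sum_pair (by decide), Y01, Y21, hsumF, Fa, g, g, g, norm_neg]
        change _ = (m : ℂ) * (μ : ℂ) * _ / _ + (m : ℂ) * (m : ℂ) * _ / _
        push_cast
        ring
    · constructor
      · exact (dX2 t).sub dS
      · refine ⟨_, (dV2 t).sub dSV, ?_⟩
        change (m : ℂ) * (Fb μ m (X t).1 (X t).2 - _) = ∑ j ∈ Finset.univ.erase (2 : Fin 3),
          (m : ℂ) * (((![μ, m, m] : Fin 3 → ℝ) j : ℝ) : ℂ) * (Y j t - Y 2 t) /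
            (‖Y j t - Y 2 t‖ : ℂ) ^ 3
        rw [E2, Finset.sum_pair (by decide), Y02, Y12, hsumF, Fb, g, g, g, norm_neg, norm_neg]
        change _ = (m : ℂ) * (μ : ℂ) * _ / _ + (m : ℂ) * (m : ℂ) * _ / _
        push_cast
        ring
  · -- no collision
    have hcol : ∀ t, Y 0 t ≠ Y 1 t ∧ Y 0 t ≠ Y 2 t ∧ Y 1 t ≠ Y 2 t := by
      intro t
      obtain ⟨g1, g2, g3⟩ := hgood t
      refine ⟨fun h => g1 ?_, fun h => g2 ?_, fun h => g3 ?_⟩
      · rw [← Y10, h, sub_self]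
      · rw [← Y20, h, sub_self]
      · rw [← Y21, h, sub_self]
    intro i j hij t
    obtain ⟨c1, c2, c3⟩ := hcol t
    fin_cases i <;> fin_cases j
    · exact absurd rfl hij
    · exact c1
    · exact c2
    · exact c1.symm
    · exact absurd rfl hij
    · exact c3
    · exact c2.symm
    · exact c3.symm
    · exact absurd rfl hij
  · intro i t
    simp only [hY, hper]
  · -- winding of `x 0 - x 1 = -a`
    obtain ⟨θ, c, e, p, q⟩ := LA.smul (z := fun t => Y 0 t - Y 1 t) exp_pi' (fun t _ => by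
      rw [← Y10]; ring)
    refine ⟨θ, c, fun t ht => ⟨?_, e t ht⟩, ?_⟩
    · intro h0
      have h0' : Y 0 t - Y 1 t = 0 := h0
      apply (hgood t).1
      rw [← Y10, ← neg_sub, h0', neg_zero]
    · rw [p, q]; push_cast; ring
  · obtain ⟨θ, c, e, p, q⟩ := LC.smul (z := fun t => Y 1 t - Y 2 t) exp_pi' (fun t _ => by
      rw [← Y21]; ring)
    refine ⟨θ, c, fun t ht => ⟨?_, e t ht⟩, ?_⟩
    · intro h0
      have h0' : Y 1 t - Y 2 t = 0 := h0
      apply (hgood t).2.2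
      rw [← Y21, ← neg_sub, h0', neg_zero]
    · rw [p, q]; push_cast; ring
  · obtain ⟨θ, c, e, p, q⟩ := LB.congr (z := fun t => Y 2 t - Y 0 t) (fun t _ => by
      rw [← Y20])
    refine ⟨θ, c, fun t ht => ⟨?_, e t ht⟩, ?_⟩
    · intro h0
      have h0' : Y 2 t - Y 0 t = 0 := h0
      apply (hgood t).2.1
      rw [← Y20, h0']
    · rw [p, q]; push_cast; ring

end

end Pool.Agent.H70TB
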