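import Pool.Agent.helper70.TB.Kron

/-!
# The finite checks
-/

set_option autoImplicit false

namespace Pool.Agent.H70TB

/-- list access with default `[]` -/
def nthL : List (List ℤ) → ℕ → List ℤ
  | [], _ => []
  | a :: _, 0 => a
  | _ :: l, n + 1 => nthL l n

def nthZ : List ℤ → ℕ → ℤ
  | [], _ => 0
  | a :: _, 0 => a
  | _ :: l, n + 1 => nthZ l n

def nthN : List ℕ → ℕ → ℕ
  | [], _ => 0
  | a :: _, 0 => a
  | _ :: l, n + 1 => nthN l n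

def d1aux : ℕ → List ℤ → List ℤ
  | _, [] => []
  | n, a :: l => Int.mul (Int.ofNat n) a :: d1aux (n + 1) l

/-- derivative of a polynomial -/
def d1 : List ℤ → List ℤ
  | [] => []
  | _ :: l => d1aux 1 l

def dd (l : List ℤ) : List ℤ := d1 (d1 l)

/-- evaluation at an integer -/
def evZ (x : ℤ) : List ℤ → ℤ
  | [] => 0
  | a :: l => Int.add a (Int.mul x (evZ x l))

def force {α : Type} (n : ℕ) (k : ℕ → α) : α :=
  match n with
  | 0 => k 0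
  | m + 1 => k (m + 1)

def forceZ {α : Type} (n : ℤ) (k : ℤ → α) : α :=
  match n with
  | Int.ofNat n => force n (fun n => k (Int.ofNat n))
  | Int.negSucc n => force n (fun n => k (Int.negSucc n))

def packF (b : ℤ) : List (List ℤ) → (List ℤ → Bool) → Bool
  | [], k => k []
  | l :: L, k => forceZ (evZ b l) (fun x => packF b L (fun xs => k (x :: xs)))

/-- the 35 polynomials used in the expressions -/
def envL (D : List (List ℤ)) : List (List ℤ) :=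
  [nthL D 0, nthL D 1, nthL D 2, nthL D 3, nthL D 4, nthL D 5, nthL D 6, nthL D 7, nthL D 8,
    nthL D 9, nthL D 10, nthL D 11, nthL D 12, nthL D 13, nthL D 14, nthL D 15, nthL D 16,
    nthL D 17, nthL D 18, dd (nthL D 0), dd (nthL D 1), dd (nthL D 2), dd (nthL D 3),
    dd (nthL D 7), dd (nthL D 8), dd (nthL D 9), dd (nthL D 10), dd (nthL D 11), dd (nthL D 12),
    dd (nthL D 13), dd (nthL D 14), dd (nthL D 15), dd (nthL D 16), dd (nthL D 17),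
    dd (nthL D 18)]

def bL : List ℕ :=
  [2 ^ 92, 2 ^ 92, 2 ^ 92, 2 ^ 92, 2 ^ 92, 2 ^ 92, 2 ^ 92,
    2 ^ 53, 2 ^ 53, 2 ^ 53, 2 ^ 53, 2 ^ 53, 2 ^ 53, 2 ^ 53, 2 ^ 53, 2 ^ 53, 2 ^ 53, 2 ^ 53, 2 ^ 53,
    2 ^ 92, 2 ^ 92, 2 ^ 92, 2 ^ 92,
    2 ^ 53, 2 ^ 53, 2 ^ 53, 2 ^ 53, 2 ^ 53, 2 ^ 53, 2 ^ 53, 2 ^ 53, 2 ^ 53, 2 ^ 53, 2 ^ 53, 2 ^ 53]

def okList : List (List ℤ) → List ℕ → Bool
  | [], _ => true
  | _ :: _, [] => false
  | l :: L, b :: B => ((Nat.ble l.length 28).and (Nat.ble (nrm l) b)).and (okList L B)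

namespace Ex

def neg (e : Ex) : Ex := mul (c (-1)) e
def sub (e f : Ex) : Ex := add e (neg f)

def zA (w : ℕ) : Ex := v w
def zB (w : ℕ) : Ex := v (2 + w)
def zC (w : ℕ) : Ex := sub (zB w) (zA w)
def uA : Ex := v 4
def uB : Ex := v 5
def uC : Ex := v 6
def fA (j w : ℕ) : Ex := v (7 + 4 * j + w)
def fB (j w : ℕ) : Ex := v (9 + 4 * j + w)
def fC (j w : ℕ) : Ex := sub (fB j w) (fA j w)

/-- `U² |z|² - S⁴` -/
def E1 (u zx zy : Ex) : Ex := add (mul (mul u u) (add (mul zx zx) (mul zy zy))) (c (-(2 ^ 360)))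

/-- `U³ z_w` -/
def CU (u zw : Ex) : Ex := mul (mul u (mul u u)) zw

def E3a (w : ℕ) : Ex := add (mul (c (3200 * 2 ^ 270)) (v (19 + w)))
  (add (mul (c 8) (CU uA (zA w))) (add (mul (c (-5)) (CU uC (zC w))) (mul (c 5) (CU uB (zB w)))))

def E3b (w : ℕ) : Ex := add (mul (c (3200 * 2 ^ 270)) (v (21 + w)))
  (add (mul (c 8) (CU uB (zB w))) (add (mul (c 5) (CU uC (zC w))) (mul (c 5) (CU uA (zA w)))))

/-- component `w` of `U³ (S⁴ φ - 3 U² (z · φ) z)` -/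
def PP (u zx zy fx fy zw fw : Ex) : Ex :=
  mul (mul u (mul u u)) (add (mul (c (2 ^ 360)) fw)
    (mul (c (-3)) (mul (mul (mul u u) (add (mul zx fx) (mul zy fy))) zw)))

def PA (j w : ℕ) : Ex := PP uA (zA 0) (zA 1) (fA j 0) (fA j 1) (zA w) (fA j w)
def PB (j w : ℕ) : Ex := PP uB (zB 0) (zB 1) (fB j 0) (fB j 1) (zB w) (fB j w)
def PC (j w : ℕ) : Ex := PP uC (zC 0) (zC 1) (fC j 0) (fC j 1) (zC w) (fC j w)

def E4a (j w : ℕ) : Ex := add (mul (c (3200 * 2 ^ 630)) (v (23 + 4 * j + w)))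
  (add (mul (c 8) (PA j w)) (add (mul (c (-5)) (PC j w)) (mul (c 5) (PB j w))))

def E4b (j w : ℕ) : Ex := add (mul (c (3200 * 2 ^ 630)) (v (25 + 4 * j + w)))
  (add (mul (c 8) (PB j w)) (add (mul (c 5) (PC j w)) (mul (c 5) (PA j w))))

def Es1 : List Ex := [E1 uA (zA 0) (zA 1), E1 uB (zB 0) (zB 1), E1 uC (zC 0) (zC 1)]
def Es3 : List Ex := [E3a 0, E3a 1, E3b 0, E3b 1]
def Es4 : List Ex := [E4a 0 0, E4a 0 1, E4a 1 0, E4a 1 1, E4a 2 0, E4a 2 1,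
  E4b 0 0, E4b 0 1, E4b 1 0, E4b 1 1, E4b 2 0, E4b 2 1]

end Ex

def hh : ℕ := 2 ^ 719
/-- `off (2 ^ 720) hh n` in closed form -/
def offc (n : ℕ) : ℕ := Nat.div (Nat.mul hh (Nat.sub (2 ^ (720 * n)) 1)) (Nat.sub (2 ^ 720) 1)

def allChk (n o : ℕ) (ρ : ℕ → ℤ) (ε : ℕ) : List Ex → Bool
  | [] => true
  | e :: l => (Ex.chk hh n o ρ e ε).and (allChk n o ρ ε l)

/-- tolerances: `E1 ≤ 2^280` (`e = 2^-80`), `E3 ≤ 2^294` (`50 S⁴ 2^-71 = 50 * 2^289`),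
`E4 ≤ 50 S^7 SP 2^-34 = 50 * 2^646` -/
def okPoly (D : List (List ℤ)) : Bool :=
  packF (2 ^ 720) (envL D) (fun xs =>
    force (offc 120) (fun o1 => force (offc 232) (fun o2 =>
      ((allChk 120 o1 (nthZ xs) (2 ^ 280) Ex.Es1).and
        (allChk 120 o1 (nthZ xs) (50 * 2 ^ 289) Ex.Es3)).and
        (allChk 232 o2 (nthZ xs) (50 * 2 ^ 646) Ex.Es4))))

/-- `x ≤ y` for integers -/
def zle (x y : ℤ) : Bool := decide (x ≤ y)

/-- positivity of `U` and the bound for `1/|z|` -/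
def okU (u : List ℤ) : Bool := (zle (Int.ofNat (nrm u) + 1) (2 * nthZ u 0)).and
  (Nat.ble (nrm u * 5) (11 * 2 ^ 90))

def okLam (D : List (List ℤ)) (j : ℕ) : Bool :=
  ((Nat.ble ((8 * nrm (nthL D 4) ^ 3 + 10 * nrm (nthL D 6) ^ 3 + 5 * nrm (nthL D 5) ^ 3) *
    (2 ^ 20 + 1) * 64) (25 * 2 ^ 270 * 2 ^ 20 * (j - 8))).and
  (Nat.ble ((8 * nrm (nthL D 5) ^ 3 + 10 * nrm (nthL D 6) ^ 3 + 5 * nrm (nthL D 4) ^ 3) *
    (2 ^ 20 + 1) * 64) (25 * 2 ^ 270 * 2 ^ 20 * (j - 8)))).and (Nat.ble 65 j)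

def okM (D : List (List ℤ)) : Bool :=
  (Nat.ble (nrm (nthL D 7) + nrm (nthL D 8) + nrm (nthL D 11) + nrm (nthL D 12) +
    nrm (nthL D 15) + nrm (nthL D 16)) (14 * 2 ^ 50)).and
  (Nat.ble (nrm (nthL D 9) + nrm (nthL D 10) + nrm (nthL D 13) + nrm (nthL D 14) +
    nrm (nthL D 17) + nrm (nthL D 18)) (14 * 2 ^ 50))

/-- `p ≥ 1/100` in units of `2^90` -/
def okPos (p : List ℤ) : Bool := zle (2 ^ 90) (100 * (2 * nthZ p 0 - Int.ofNat (nrm p)))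

def okNeg (p : List ℤ) : Bool := zle (2 ^ 90) (100 * (-2 * nthZ p 0 - Int.ofNat (nrm p)))

def psub (p q : List ℤ) : List ℤ := padd p (pscale (-1) q)

def okSign (D : List (List ℤ)) : Bool :=
  ((okPos (nthL D 2)).and (((okPos (nthL D 0)).or (okNeg (nthL D 0))).or (okNeg (nthL D 1)))).and
  (((okPos (psub (nthL D 2) (nthL D 0))).or (okNeg (psub (nthL D 2) (nthL D 0)))).or
    (okNeg (psub (nthL D 3) (nthL D 1))))

def okPiece (D : List (List ℤ)) (j : ℕ) : Bool :=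
  ((okList (envL D) bL).and ((okU (nthL D 4)).and ((okU (nthL D 5)).and (okU (nthL D 6))))).and
    (((okLam D j).and ((okM D).and (okSign D))).and (okPoly D))

/-- closeness of the values of `p` at `1` and of `q` at `-1` -/
def near (p q : List ℤ) (tol : ℕ) : Bool := Nat.ble (Int.natAbs (evZ 1 p - evZ (-1) q)) tol

def okNode (D D' : List (List ℤ)) : Bool :=
  ([0, 1, 2, 3].all (fun i => (near (nthL D i) (nthL D' i) (2 ^ 13)).and
    (near (d1 (nthL D i)) (d1 (nthL D' i)) (2 ^ 13)))).and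
  ([7, 8, 9, 10, 11, 12, 13, 14, 15, 16, 17, 18].all
    (fun i => (near (nthL D i) (nthL D' i) 4096).and
    (near (d1 (nthL D i)) (d1 (nthL D' i)) 4096)))

end Pool.Agent.H70TB
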