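import Mathlib

/-!
# The planar three-body problem: definitions
-/

set_option autoImplicit false

open Complex ComplexConjugate Set

namespace Pool.Agent.H70TB

/-- The planar Newtonian three-body problem (`ℝ² = ℂ`) with masses `m 0, m 1, m 2`:
`x i` is twice differentiable and
`m i * x i'' = ∑_{j ≠ i} m i * m j * (x j - x i) / ‖x j - x i‖ ^ 3`, i.e. `m i * x i'' = ∂U/∂x i`
for `U = ∑_{i<j} m i m j / ‖x i - x j‖`. -/
def IsNewtonSolution (m : Fin 3 → ℝ) (x : Fin 3 → ℝ → ℂ) : Prop :=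
  ∃ v : Fin 3 → ℝ → ℂ, ∀ i t, HasDerivAt (x i) (v i t) t ∧
    ∃ w : ℂ, HasDerivAt (v i) w t ∧
      (m i : ℂ) * w = ∑ j ∈ Finset.univ.erase i,
        (m i : ℂ) * (m j : ℂ) * (x j t - x i t) / (‖x j t - x i t‖ : ℂ) ^ 3

/-- `k` is the winding number about `0` of the curve `z : [0, T] → ℂ`, in terms of a continuous
choice of the argument. -/
def HasWinding (T : ℝ) (z : ℝ → ℂ) (k : ℤ) : Prop :=
  ∃ θ : ℝ → ℝ, ContinuousOn θ (Icc 0 T) ∧
    (∀ t ∈ Icc (0 : ℝ) T, z t ≠ 0 ∧ z t = (‖z t‖ : ℂ) * exp ((θ t : ℂ) * I)) ∧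
    θ T - θ 0 = 2 * Real.pi * k

/-- For some positive masses there is a collision-free periodic solution (centre of mass at the
origin) whose homology class is `(k12, k23, k31)`. -/
def ClassRealised (k12 k23 k31 : ℤ) : Prop :=
  ∃ (m : Fin 3 → ℝ) (T : ℝ) (x : Fin 3 → ℝ → ℂ),
    (∀ i, 0 < m i) ∧ 0 < T ∧
    (∀ t, ∑ i, (m i : ℂ) * x i t = 0) ∧
    IsNewtonSolution m x ∧
    (∀ i j, i ≠ j → ∀ t, x i t ≠ x j t) ∧
    (∀ i t, x i (t + T) = x i t) ∧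
    HasWinding T (fun t => x 0 t - x 1 t) k12 ∧
    HasWinding T (fun t => x 1 t - x 2 t) k23 ∧
    HasWinding T (fun t => x 2 t - x 0 t) k31

/-- `z / |z|³` -/
noncomputable def g (z : ℂ) : ℂ := z / (‖z‖ : ℂ) ^ 3

/-- acceleration of `a = x 1 - x 0`, masses `μ, m, m`; `b = x 2 - x 0` -/
noncomputable def Fa (μ m : ℝ) (a b : ℂ) : ℂ :=
  -((μ + m : ℝ) : ℂ) * g a + (m : ℂ) * (g (b - a) - g b)

/-- acceleration of `b = x 2 - x 0` -/
noncomputable def Fb (μ m : ℝ) (a b : ℂ) : ℂ :=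
  -((μ + m : ℝ) : ℂ) * g b - (m : ℂ) * (g (b - a) + g a)

/-- Quarter-period data: everything that the symmetric extension needs. -/
structure Quarter (μ m τ : ℝ) (a b u v : ℝ → ℂ) : Prop where
  hμ : 0 < μ
  hm : 0 < m
  hτ : 0 < τ
  da : ∀ t ∈ Icc (0 : ℝ) τ, HasDerivWithinAt a (u t) (Icc 0 τ) t
  db : ∀ t ∈ Icc (0 : ℝ) τ, HasDerivWithinAt b (v t) (Icc 0 τ) t
  du : ∀ t ∈ Icc (0 : ℝ) τ, HasDerivWithinAt u (Fa μ m (a t) (b t)) (Icc 0 τ) t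
  dv : ∀ t ∈ Icc (0 : ℝ) τ, HasDerivWithinAt v (Fb μ m (a t) (b t)) (Icc 0 τ) t
  /-- Euler configuration at time `0`, body `0` in the middle -/
  a0 : a 0 = -b 0
  b0im : (b 0).im = 0
  u0 : u 0 = v 0
  /-- perpendicular syzygy at time `τ`, bodies `1, 2` on the same side of body `0` -/
  e1 : (a τ * conj (b τ)).im = 0
  e1' : 0 < (a τ * conj (b τ)).re
  e2 : (u τ * conj (a τ)).re = 0
  e3 : (v τ * conj (b τ)).re = 0
  /-- `a` avoids the ray `i [0, ∞)` -/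
  wa : ∀ t ∈ Icc (0 : ℝ) τ, I * a t ∈ slitPlane
  /-- `b` stays in the right half plane -/
  wb : ∀ t ∈ Icc (0 : ℝ) τ, 0 < (b t).re
  /-- `b - a` avoids the ray `i [0, ∞)` -/
  wc : ∀ t ∈ Icc (0 : ℝ) τ, I * (b t - a t) ∈ slitPlane

end Pool.Agent.H70TB
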