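import Pool.Agent.helper70.TB.Glue
import Pool.Agent.helper70.TB.Data

/-!
# Values of the reference trajectory at both ends
-/

set_option autoImplicit false
set_option exponentiation.threshold 1000

open Complex ComplexConjugate Set

namespace Pool.Agent.H70TB

lemma val_one {σ : ℝ} {p q : List ℤ} {A B : ℤ} (hp : evZ 1 p = A) (hq : evZ 1 q = B) :
    cz σ p q 1 = ⟨(A : ℝ) / σ, (B : ℝ) / σ⟩ := by
  rw [evZ_eq'] at hp hq
  apply Complex.ext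
  · rw [cz_re, ← hp, ev_cast (R := ℝ)]; norm_num
  · rw [cz_im, ← hq, ev_cast (R := ℝ)]; norm_num

lemma val_neg {σ : ℝ} {p q : List ℤ} {A B : ℤ} (hp : evZ (-1) p = A) (hq : evZ (-1) q = B) :
    cz σ p q (-1) = ⟨(A : ℝ) / σ, (B : ℝ) / σ⟩ := by
  rw [evZ_eq'] at hp hq
  apply Complex.ext
  · rw [cz_re, ← hp, ev_cast (R := ℝ)]; norm_num
  · rw [cz_im, ← hq, ev_cast (R := ℝ)]; norm_num

lemma sk_end : sk 29 (15 / 2) = 1 := by rw [sk]; norm_num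
lemma sk_start : sk 0 0 = -1 := by rw [sk]; norm_num

lemma eight_mk (x y : ℝ) : (8 : ℂ) * ⟨x, y⟩ = ⟨8 * x, 8 * y⟩ := by
  apply Complex.ext <;> simp

lemma lin_mk (x : Fin 3 → ℝ) {f : Fin 3 → ℂ} {a0 b0 a1 b1 a2 b2 : ℝ} (h0 : f 0 = ⟨a0, b0⟩)
    (h1 : f 1 = ⟨a1, b1⟩) (h2 : f 2 = ⟨a2, b2⟩) :
    lin x f = ⟨x 0 * a0 + x 1 * a1 + x 2 * a2, x 0 * b0 + x 1 * b1 + x 2 * b2⟩ := by
  rw [lin, Fin.sum_univ_three, h0, h1, h2]
  apply Complex.ext <;> simp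

lemma e_a : aF P29 29 (15 / 2) = ⟨((2493353470762373374650602192 : ℤ) : ℝ) / 2 ^ 90, ((1279517116945102015366881684 : ℤ) : ℝ) / 2 ^ 90⟩ := by
  change cz (2 ^ 90) (nthL P29 0) (nthL P29 1) (sk 29 (15 / 2)) = _
  rw [sk_end]
  exact val_one (by decide +kernel) (by decide +kernel)

lemma e_b : bF P29 29 (15 / 2) = ⟨((1797605232828962576904978096 : ℤ) : ℝ) / 2 ^ 90, ((922479179902025476005720026 : ℤ) : ℝ) / 2 ^ 90⟩ := by
  change cz (2 ^ 90) (nthL P29 2) (nthL P29 3) (sk 29 (15 / 2)) = _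
  rw [sk_end]
  exact val_one (by decide +kernel) (by decide +kernel)

lemma e_u : uF P29 29 (15 / 2) = ⟨8 * (((7200777799107037164229225 : ℤ) : ℝ) / 2 ^ 90), 8 * ((((-14031921949163341689943588) : ℤ) : ℝ) / 2 ^ 90)⟩ := by
  change 8 * cz (2 ^ 90) (d1 (nthL P29 0)) (d1 (nthL P29 1)) (sk 29 (15 / 2)) = _
  rw [sk_end, ← eight_mk]
  exact congrArg (fun z => 8 * z) (val_one (by decide +kernel) (by decide +kernel))

lemma e_v : vF P29 29 (15 / 2) = ⟨8 * ((((-41227180507630906364724062) : ℤ) : ℝ) / 2 ^ 90), 8 * (((80338068359626942479522195 : ℤ) : ℝ) / 2 ^ 90)⟩ := by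
  change 8 * cz (2 ^ 90) (d1 (nthL P29 2)) (d1 (nthL P29 3)) (sk 29 (15 / 2)) = _
  rw [sk_end, ← eight_mk]
  exact congrArg (fun z => 8 * z) (val_one (by decide +kernel) (by decide +kernel))

lemma e_fa0 : faF P29 29 (15 / 2) 0 = ⟨(((-1429043860627118) : ℤ) : ℝ) / 2 ^ 50, ((3338271912193830 : ℤ) : ℝ) / 2 ^ 50⟩ := by
  change cz (2 ^ 50) (nthL P29 7) (nthL P29 8) (sk 29 (15 / 2)) = _
  rw [sk_end]
  exact val_one (by decide +kernel) (by decide +kernel)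

lemma e_fb0 : fbF P29 29 (15 / 2) 0 = ⟨(((-1158099209699772) : ℤ) : ℝ) / 2 ^ 50, ((1782159642356124 : ℤ) : ℝ) / 2 ^ 50⟩ := by
  change cz (2 ^ 50) (nthL P29 9) (nthL P29 10) (sk 29 (15 / 2)) = _
  rw [sk_end]
  exact val_one (by decide +kernel) (by decide +kernel)

lemma e_fu0 : fuF P29 29 (15 / 2) 0 = ⟨8 * (((4895231284708 : ℤ) : ℝ) / 2 ^ 50), 8 * (((35112509018907 : ℤ) : ℝ) / 2 ^ 50)⟩ := by
  change 8 * cz (2 ^ 50) (d1 (nthL P29 7)) (d1 (nthL P29 8)) (sk 29 (15 / 2)) = _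
  rw [sk_end, ← eight_mk]
  exact congrArg (fun z => 8 * z) (val_one (by decide +kernel) (by decide +kernel))

lemma e_fv0 : fvF P29 29 (15 / 2) 0 = ⟨8 * ((((-76078191034814) : ℤ) : ℝ) / 2 ^ 50), 8 * ((((-58713383685030) : ℤ) : ℝ) / 2 ^ 50)⟩ := by
  change 8 * cz (2 ^ 50) (d1 (nthL P29 9)) (d1 (nthL P29 10)) (sk 29 (15 / 2)) = _
  rw [sk_end, ← eight_mk]
  exact congrArg (fun z => 8 * z) (val_one (by decide +kernel) (by decide +kernel))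

lemma e_fa1 : faF P29 29 (15 / 2) 1 = ⟨((2676919095481989 : ℤ) : ℝ) / 2 ^ 50, (((-2663891859209095) : ℤ) : ℝ) / 2 ^ 50⟩ := by
  change cz (2 ^ 50) (nthL P29 11) (nthL P29 12) (sk 29 (15 / 2)) = _
  rw [sk_end]
  exact val_one (by decide +kernel) (by decide +kernel)

lemma e_fb1 : fbF P29 29 (15 / 2) 1 = ⟨((2484274290588524 : ℤ) : ℝ) / 2 ^ 50, (((-1636092374189956) : ℤ) : ℝ) / 2 ^ 50⟩ := by
  change cz (2 ^ 50) (nthL P29 13) (nthL P29 14) (sk 29 (15 / 2)) = _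
  rw [sk_end]
  exact val_one (by decide +kernel) (by decide +kernel)

lemma e_fu1 : fuF P29 29 (15 / 2) 1 = ⟨8 * (((55134031028661 : ℤ) : ℝ) / 2 ^ 50), 8 * ((((-15552334343599) : ℤ) : ℝ) / 2 ^ 50)⟩ := by
  change 8 * cz (2 ^ 50) (d1 (nthL P29 11)) (d1 (nthL P29 12)) (sk 29 (15 / 2)) = _
  rw [sk_end, ← eight_mk]
  exact congrArg (fun z => 8 * z) (val_one (by decide +kernel) (by decide +kernel))

lemma e_fv1 : fvF P29 29 (15 / 2) 1 = ⟨8 * (((106951261336083 : ℤ) : ℝ) / 2 ^ 50), 8 * (((45100181640875 : ℤ) : ℝ) / 2 ^ 50)⟩ := by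
  change 8 * cz (2 ^ 50) (d1 (nthL P29 13)) (d1 (nthL P29 14)) (sk 29 (15 / 2)) = _
  rw [sk_end, ← eight_mk]
  exact congrArg (fun z => 8 * z) (val_one (by decide +kernel) (by decide +kernel))

lemma e_fa2 : faF P29 29 (15 / 2) 2 = ⟨(((-592622857543237) : ℤ) : ℝ) / 2 ^ 50, ((4618035944414783 : ℤ) : ℝ) / 2 ^ 50⟩ := by
  change cz (2 ^ 50) (nthL P29 15) (nthL P29 16) (sk 29 (15 / 2)) = _
  rw [sk_end]
  exact val_one (by decide +kernel) (by decide +kernel)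

lemma e_fb2 : fbF P29 29 (15 / 2) 2 = ⟨(((-641659137415544) : ℤ) : ℝ) / 2 ^ 50, ((3219388695285205 : ℤ) : ℝ) / 2 ^ 50⟩ := by
  change cz (2 ^ 50) (nthL P29 17) (nthL P29 18) (sk 29 (15 / 2)) = _
  rw [sk_end]
  exact val_one (by decide +kernel) (by decide +kernel)

lemma e_fu2 : fuF P29 29 (15 / 2) 2 = ⟨8 * (((11090554680751 : ℤ) : ℝ) / 2 ^ 50), 8 * (((32367361008211 : ℤ) : ℝ) / 2 ^ 50)⟩ := by
  change 8 * cz (2 ^ 50) (d1 (nthL P29 15)) (d1 (nthL P29 16)) (sk 29 (15 / 2)) = _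
  rw [sk_end, ← eight_mk]
  exact congrArg (fun z => 8 * z) (val_one (by decide +kernel) (by decide +kernel))

lemma e_fv2 : fvF P29 29 (15 / 2) 2 = ⟨8 * ((((-27757317569132) : ℤ) : ℝ) / 2 ^ 50), 8 * ((((-66095795237392) : ℤ) : ℝ) / 2 ^ 50)⟩ := by
  change 8 * cz (2 ^ 50) (d1 (nthL P29 17)) (d1 (nthL P29 18)) (sk 29 (15 / 2)) = _
  rw [sk_end, ← eight_mk]
  exact congrArg (fun z => 8 * z) (val_one (by decide +kernel) (by decide +kernel))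

lemma i_a : aF P0 0 0 = ⟨(((-1252344710726366238304848042) : ℤ) : ℝ) / 2 ^ 90, (((-2) : ℤ) : ℝ) / 2 ^ 90⟩ := by
  change cz (2 ^ 90) (nthL P0 0) (nthL P0 1) (sk 0 0) = _
  rw [sk_start]
  exact val_neg (by decide +kernel) (by decide +kernel)

lemma i_b : bF P0 0 0 = ⟨((1252344710726366238304848044 : ℤ) : ℝ) / 2 ^ 90, ((2 : ℤ) : ℝ) / 2 ^ 90⟩ := by
  change cz (2 ^ 90) (nthL P0 2) (nthL P0 3) (sk 0 0) = _
  rw [sk_start]
  exact val_neg (by decide +kernel) (by decide +kernel)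

lemma i_u : uF P0 0 0 = ⟨8 * (((64547869889450883279842910 : ℤ) : ℝ) / 2 ^ 90), 8 * ((((-62104897419100620658997873) : ℤ) : ℝ) / 2 ^ 90)⟩ := by
  change 8 * cz (2 ^ 90) (d1 (nthL P0 0)) (d1 (nthL P0 1)) (sk 0 0) = _
  rw [sk_start, ← eight_mk]
  exact congrArg (fun z => 8 * z) (val_neg (by decide +kernel) (by decide +kernel))

lemma i_v : vF P0 0 0 = ⟨8 * (((64547869889450883279842887 : ℤ) : ℝ) / 2 ^ 90), 8 * ((((-62104897419100620658997905) : ℤ) : ℝ) / 2 ^ 90)⟩ := by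
  change 8 * cz (2 ^ 90) (d1 (nthL P0 2)) (d1 (nthL P0 3)) (sk 0 0) = _
  rw [sk_start, ← eight_mk]
  exact congrArg (fun z => 8 * z) (val_neg (by decide +kernel) (by decide +kernel))

lemma i_fa0 : faF P0 0 0 0 = ⟨((321213463640268 : ℤ) : ℝ) / 2 ^ 50, ((0 : ℤ) : ℝ) / 2 ^ 50⟩ := by
  change cz (2 ^ 50) (nthL P0 7) (nthL P0 8) (sk 0 0) = _
  rw [sk_start]
  exact val_neg (by decide +kernel) (by decide +kernel)

lemma i_fb0 : fbF P0 0 0 0 = ⟨(((-321213463640268) : ℤ) : ℝ) / 2 ^ 50, ((0 : ℤ) : ℝ) / 2 ^ 50⟩ := by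
  change cz (2 ^ 50) (nthL P0 9) (nthL P0 10) (sk 0 0) = _
  rw [sk_start]
  exact val_neg (by decide +kernel) (by decide +kernel)

lemma i_fu0 : fuF P0 0 0 0 = ⟨8 * (((43112051102490 : ℤ) : ℝ) / 2 ^ 50), 8 * (((13316795859403 : ℤ) : ℝ) / 2 ^ 50)⟩ := by
  change 8 * cz (2 ^ 50) (d1 (nthL P0 7)) (d1 (nthL P0 8)) (sk 0 0) = _
  rw [sk_start, ← eight_mk]
  exact congrArg (fun z => 8 * z) (val_neg (by decide +kernel) (by decide +kernel))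

lemma i_fv0 : fvF P0 0 0 0 = ⟨8 * (((43112051102509 : ℤ) : ℝ) / 2 ^ 50), 8 * (((13316795859403 : ℤ) : ℝ) / 2 ^ 50)⟩ := by
  change 8 * cz (2 ^ 50) (d1 (nthL P0 9)) (d1 (nthL P0 10)) (sk 0 0) = _
  rw [sk_start, ← eight_mk]
  exact congrArg (fun z => 8 * z) (val_neg (by decide +kernel) (by decide +kernel))

lemma i_fa1 : faF P0 0 0 1 = ⟨(((-235702885670657) : ℤ) : ℝ) / 2 ^ 50, ((0 : ℤ) : ℝ) / 2 ^ 50⟩ := by
  change cz (2 ^ 50) (nthL P0 11) (nthL P0 12) (sk 0 0) = _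
  rw [sk_start]
  exact val_neg (by decide +kernel) (by decide +kernel)

lemma i_fb1 : fbF P0 0 0 1 = ⟨((235702885670657 : ℤ) : ℝ) / 2 ^ 50, ((2 : ℤ) : ℝ) / 2 ^ 50⟩ := by
  change cz (2 ^ 50) (nthL P0 13) (nthL P0 14) (sk 0 0) = _
  rw [sk_start]
  exact val_neg (by decide +kernel) (by decide +kernel)

lemma i_fu1 : fuF P0 0 0 1 = ⟨8 * ((((-17161499298042) : ℤ) : ℝ) / 2 ^ 50), 8 * ((((-14248769243693) : ℤ) : ℝ) / 2 ^ 50)⟩ := by
  change 8 * cz (2 ^ 50) (d1 (nthL P0 11)) (d1 (nthL P0 12)) (sk 0 0) = _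
  rw [sk_start, ← eight_mk]
  exact congrArg (fun z => 8 * z) (val_neg (by decide +kernel) (by decide +kernel))

lemma i_fv1 : fvF P0 0 0 1 = ⟨8 * ((((-17161499298042) : ℤ) : ℝ) / 2 ^ 50), 8 * ((((-14248769243703) : ℤ) : ℝ) / 2 ^ 50)⟩ := by
  change 8 * cz (2 ^ 50) (d1 (nthL P0 13)) (d1 (nthL P0 14)) (sk 0 0) = _
  rw [sk_start, ← eight_mk]
  exact congrArg (fun z => 8 * z) (val_neg (by decide +kernel) (by decide +kernel))

lemma i_fa2 : faF P0 0 0 2 = ⟨((663374074635121 : ℤ) : ℝ) / 2 ^ 50, (((-1) : ℤ) : ℝ) / 2 ^ 50⟩ := by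
  change cz (2 ^ 50) (nthL P0 15) (nthL P0 16) (sk 0 0) = _
  rw [sk_start]
  exact val_neg (by decide +kernel) (by decide +kernel)

lemma i_fb2 : fbF P0 0 0 2 = ⟨(((-663374074635122) : ℤ) : ℝ) / 2 ^ 50, (((-2) : ℤ) : ℝ) / 2 ^ 50⟩ := by
  change cz (2 ^ 50) (nthL P0 17) (nthL P0 18) (sk 0 0) = _
  rw [sk_start]
  exact val_neg (by decide +kernel) (by decide +kernel)

lemma i_fu2 : fuF P0 0 0 2 = ⟨8 * (((87960930430479 : ℤ) : ℝ) / 2 ^ 50), 8 * (((11528416816582 : ℤ) : ℝ) / 2 ^ 50)⟩ := by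
  change 8 * cz (2 ^ 50) (d1 (nthL P0 15)) (d1 (nthL P0 16)) (sk 0 0) = _
  rw [sk_start, ← eight_mk]
  exact congrArg (fun z => 8 * z) (val_neg (by decide +kernel) (by decide +kernel))

lemma i_fv2 : fvF P0 0 0 2 = ⟨8 * (((87960930430455 : ℤ) : ℝ) / 2 ^ 50), 8 * (((11528416816589 : ℤ) : ℝ) / 2 ^ 50)⟩ := by
  change 8 * cz (2 ^ 50) (d1 (nthL P0 17)) (d1 (nthL P0 18)) (sk 0 0) = _
  rw [sk_start, ← eight_mk]
  exact congrArg (fun z => 8 * z) (val_neg (by decide +kernel) (by decide +kernel))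

end Pool.Agent.H70TB
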