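import Pool.Agent.helper70.TB.Flow

/-!
# The force field, its derivative, its cut-off
-/

set_option autoImplicit false

open Complex ComplexConjugate Set
open scoped NNReal

namespace Pool.Agent.H70TB

noncomputable def FA (G : ℂ → ℂ) (a b : ℂ) : ℂ :=
  -(4 / 25) * G a + (1 / 10) * (G (b - a) - G b)

noncomputable def FB (G : ℂ → ℂ) (a b : ℂ) : ℂ :=
  -(4 / 25) * G b - (1 / 10) * (G (b - a) + G a)

noncomputable def DA (a b x y : ℂ) : ℂ :=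
  -(4 / 25) * DgL a x + (1 / 10) * (DgL (b - a) (y - x) - DgL b y)

noncomputable def DB (a b x y : ℂ) : ℂ :=
  -(4 / 25) * DgL b y - (1 / 10) * (DgL (b - a) (y - x) + DgL a x)

lemma Fa_eq (a b : ℂ) : Fa (3 / 50) (1 / 10) a b = FA g a b := by
  rw [Fa, FA]; norm_num

lemma Fb_eq (a b : ℂ) : Fb (3 / 50) (1 / 10) a b = FB g a b := by
  rw [Fb, FB]; norm_num

/-- the cut-off function -/
noncomputable def gt (z : ℂ) : ℂ := gc (2 / 5) z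

lemma gt_eq {z : ℂ} (h : 2 / 5 ≤ ‖z‖) : gt z = g z := gc_eq h

lemma FA_gt {a b : ℂ} (ha : 2 / 5 ≤ ‖a‖) (hb : 2 / 5 ≤ ‖b‖) (hc : 2 / 5 ≤ ‖b - a‖) :
    FA gt a b = FA g a b := by
  rw [FA, FA, gt_eq ha, gt_eq hb, gt_eq hc]

lemma FB_gt {a b : ℂ} (ha : 2 / 5 ≤ ‖a‖) (hb : 2 / 5 ≤ ‖b‖) (hc : 2 / 5 ≤ ‖b - a‖) :
    FB gt a b = FB g a b := by
  rw [FB, FB, gt_eq ha, gt_eq hb, gt_eq hc]

lemma norm_comb1 (x y z : ℂ) : ‖-(4 / 25 : ℂ) * x + (1 / 10) * (y - z)‖ ≤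
    4 / 25 * ‖x‖ + 1 / 10 * ‖y‖ + 1 / 10 * ‖z‖ := by
  have h1 : ‖-(4 / 25 : ℂ) * x‖ = 4 / 25 * ‖x‖ := by
    rw [norm_mul, norm_neg]; norm_num
  have h2 : ‖(1 / 10 : ℂ) * (y - z)‖ = 1 / 10 * ‖y - z‖ := by
    rw [norm_mul]; norm_num
  have h3 := norm_add_le (-(4 / 25 : ℂ) * x) ((1 / 10 : ℂ) * (y - z))
  have h4 := norm_sub_le y z
  rw [h1, h2] at h3
  linarith

lemma norm_comb2 (x y z : ℂ) : ‖-(4 / 25 : ℂ) * x - (1 / 10) * (y + z)‖ ≤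
    4 / 25 * ‖x‖ + 1 / 10 * ‖y‖ + 1 / 10 * ‖z‖ := by
  have h1 : ‖-(4 / 25 : ℂ) * x‖ = 4 / 25 * ‖x‖ := by
    rw [norm_mul, norm_neg]; norm_num
  have h2 : ‖(1 / 10 : ℂ) * (y + z)‖ = 1 / 10 * ‖y + z‖ := by
    rw [norm_mul]; norm_num
  have h3 := norm_sub_le (-(4 / 25 : ℂ) * x) ((1 / 10 : ℂ) * (y + z))
  have h4 := norm_add_le y z
  rw [h1, h2] at h3
  linarith

/-- solutions of the cut-off system on `[0, T]` -/
structure Sol (T : ℝ) (a b u v : ℝ → ℂ) : Prop where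
  da : ∀ t ∈ Icc (0 : ℝ) T, HasDerivWithinAt a (u t) (Icc 0 T) t
  db : ∀ t ∈ Icc (0 : ℝ) T, HasDerivWithinAt b (v t) (Icc 0 T) t
  du : ∀ t ∈ Icc (0 : ℝ) T, HasDerivWithinAt u (FA gt (a t) (b t)) (Icc 0 T) t
  dv : ∀ t ∈ Icc (0 : ℝ) T, HasDerivWithinAt v (FB gt (a t) (b t)) (Icc 0 T) t

theorem exists_sol (T : ℝ) (hT : 0 ≤ T) (a0 b0 u0 v0 : ℂ) :
    ∃ a b u v : ℝ → ℂ, a 0 = a0 ∧ b 0 = b0 ∧ u 0 = u0 ∧ v 0 = v0 ∧ Sol T a b u v := by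
  have hr : (0 : ℝ) < 2 / 5 := by norm_num
  have hb : ∀ z, ‖gt z‖ ≤ (2 / 5 : ℝ)⁻¹ ^ 2 := norm_gc_le (r := 2 / 5) hr
  have hl : ∀ z w, ‖gt z - gt w‖ ≤ 4 * (2 / 5 : ℝ)⁻¹ ^ 3 * ‖z - w‖ := gc_lip (r := 2 / 5) hr
  set F : ℂ × ℂ → ℂ × ℂ := fun p => (FA gt p.1 p.2, FB gt p.1 p.2) with hF
  have hbd : ∀ p, ‖F p‖ ≤ ((10 : ℝ≥0) : ℝ) := by
    intro p
    have h1 := hb p.1
    have h2 := hb p.2
    have h3 := hb (p.2 - p.1)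
    norm_num at h1 h2 h3
    have h4 := norm_comb1 (gt p.1) (gt (p.2 - p.1)) (gt p.2)
    have h5 := norm_comb2 (gt p.2) (gt (p.2 - p.1)) (gt p.1)
    have hco : ((10 : ℝ≥0) : ℝ) = 10 := rfl
    rw [hco]
    apply max_le
    · change ‖FA gt p.1 p.2‖ ≤ 10
      rw [FA]; linarith
    · change ‖FB gt p.1 p.2‖ ≤ 10
      rw [FB]; linarith
  have hlip : LipschitzWith 100 F := by
    apply LipschitzWith.of_dist_le_mul
    intro p q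
    rw [dist_eq_norm, dist_eq_norm]
    have h1 : ‖p.1 - q.1‖ ≤ ‖p - q‖ := norm_fst_le (p - q)
    have h2 : ‖p.2 - q.2‖ ≤ ‖p - q‖ := norm_snd_le (p - q)
    have h3 : ‖(p.2 - p.1) - (q.2 - q.1)‖ ≤ 2 * ‖p - q‖ := by
      have : (p.2 - p.1) - (q.2 - q.1) = (p.2 - q.2) - (p.1 - q.1) := by ring
      rw [this]
      have := norm_sub_le (p.2 - q.2) (p.1 - q.1)
      linarith
    have h4 := hl p.1 q.1
    have h5 := hl p.2 q.2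
    have h6 := hl (p.2 - p.1) (q.2 - q.1)
    norm_num at h4 h5 h6
    have hco : ((100 : ℝ≥0) : ℝ) = 100 := rfl
    rw [hco]
    apply max_le
    · change ‖FA gt p.1 p.2 - FA gt q.1 q.2‖ ≤ _
      have e : FA gt p.1 p.2 - FA gt q.1 q.2 = -(4 / 25) * (gt p.1 - gt q.1) +
          (1 / 10) * ((gt (p.2 - p.1) - gt (q.2 - q.1)) - (gt p.2 - gt q.2)) := by
        rw [FA, FA]; ring
      rw [e]
      refine (norm_comb1 _ _ _).trans ?_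
      linarith [norm_nonneg (p - q)]
    · change ‖FB gt p.1 p.2 - FB gt q.1 q.2‖ ≤ _
      have e : FB gt p.1 p.2 - FB gt q.1 q.2 = -(4 / 25) * (gt p.2 - gt q.2) -
          (1 / 10) * ((gt (p.2 - p.1) - gt (q.2 - q.1)) + (gt p.1 - gt q.1)) := by
        rw [FB, FB]; ring
      rw [e]
      refine (norm_comb2 _ _ _).trans ?_
      linarith [norm_nonneg (p - q)]
  obtain ⟨x, v, hx0, hv0, hx, hv⟩ := exists_second_order F 10 100 hbd hlip T hT (a0, b0) (u0, v0)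
  refine ⟨fun t => (x t).1, fun t => (x t).2, fun t => (v t).1, fun t => (v t).2, ?_, ?_, ?_, ?_,
    ⟨?_, ?_, ?_, ?_⟩⟩
  · simp [hx0]
  · simp [hx0]
  · simp [hv0]
  · simp [hv0]
  · intro t ht
    have h0 := hx t ht
    rw [hasDerivWithinAt_iff_hasFDerivWithinAt] at h0
    have h1 : HasFDerivWithinAt (fun t => (x t).1) _ (Icc 0 T) t := h0.fst
    have h2 := h1.hasDerivWithinAt
    convert h2 using 1
    simp
  · intro t ht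
    have h0 := hx t ht
    rw [hasDerivWithinAt_iff_hasFDerivWithinAt] at h0
    have h1 : HasFDerivWithinAt (fun t => (x t).2) _ (Icc 0 T) t := h0.snd
    have h2 := h1.hasDerivWithinAt
    convert h2 using 1
    simp
  · intro t ht
    have h0 := hv t ht
    rw [hasDerivWithinAt_iff_hasFDerivWithinAt] at h0
    have h1 : HasFDerivWithinAt (fun t => (v t).1) _ (Icc 0 T) t := h0.fst
    have h2 := h1.hasDerivWithinAt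
    convert h2 using 1
    simp [hF]
  · intro t ht
    have h0 := hv t ht
    rw [hasDerivWithinAt_iff_hasFDerivWithinAt] at h0
    have h1 : HasFDerivWithinAt (fun t => (v t).2) _ (Icc 0 T) t := h0.snd
    have h2 := h1.hasDerivWithinAt
    convert h2 using 1
    simp [hF]

/-- quadratic estimates -/
lemma gt_quad {z₀ z w : ℂ} {R : ℝ} (hR : 0 < R) (hR' : R ≤ 1 / 50) (h0 : 9 / 20 ≤ ‖z₀‖)
    (hz : ‖z - z₀‖ ≤ R) (hw : ‖w - z₀‖ ≤ R) :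
    ‖gt z - gt w - DgL z₀ (z - w)‖ ≤ 1875 / 4 * R * ‖z - w‖ := by
  have h := g_quad (K := 5 / 2) hR (by norm_num) (by norm_num; linarith) hz hw
  have hn : ∀ y : ℂ, ‖y - z₀‖ ≤ R → 2 / 5 ≤ ‖y‖ := by
    intro y hy
    have := norm_sub_norm_le z₀ (z₀ - y)
    rw [sub_sub_cancel] at this
    have h2 : ‖z₀ - y‖ ≤ R := by rw [← norm_neg, neg_sub]; exact hy
    linarith
  rw [gt_eq (hn z hz), gt_eq (hn w hw)]
  refine h.trans (le_of_eq ?_)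
  norm_num

lemma F_quad {a₀ b₀ a₁ b₁ a₂ b₂ : ℂ} {R d : ℝ} (hR : 0 < R) (hR' : R ≤ 1 / 100)
    (ha : 9 / 20 ≤ ‖a₀‖) (hb : 9 / 20 ≤ ‖b₀‖) (hc : 9 / 20 ≤ ‖b₀ - a₀‖)
    (ha₁ : ‖a₁ - a₀‖ ≤ R) (hb₁ : ‖b₁ - b₀‖ ≤ R) (ha₂ : ‖a₂ - a₀‖ ≤ R) (hb₂ : ‖b₂ - b₀‖ ≤ R)
    (hda : ‖a₁ - a₂‖ ≤ d) (hdb : ‖b₁ - b₂‖ ≤ d) :
    ‖FA gt a₁ b₁ - FA gt a₂ b₂ - DA a₀ b₀ (a₁ - a₂) (b₁ - b₂)‖ ≤ 310 * R * d ∧
    ‖FB gt a₁ b₁ - FB gt a₂ b₂ - DB a₀ b₀ (a₁ - a₂) (b₁ - b₂)‖ ≤ 310 * R * d := by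
  have hd : 0 ≤ d := (norm_nonneg _).trans hda
  have h1 := gt_quad hR (by linarith) ha ha₁ ha₂
  have h2 := gt_quad hR (by linarith) hb hb₁ hb₂
  have hc1 : ‖(b₁ - a₁) - (b₀ - a₀)‖ ≤ 2 * R := by
    have : (b₁ - a₁) - (b₀ - a₀) = (b₁ - b₀) - (a₁ - a₀) := by ring
    rw [this]
    have := norm_sub_le (b₁ - b₀) (a₁ - a₀)
    linarith
  have hc2 : ‖(b₂ - a₂) - (b₀ - a₀)‖ ≤ 2 * R := by
    have : (b₂ - a₂) - (b₀ - a₀) = (b₂ - b₀) - (a₂ - a₀) := by ring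
    rw [this]
    have := norm_sub_le (b₂ - b₀) (a₂ - a₀)
    linarith
  have h3 := gt_quad (by linarith : 0 < 2 * R) (by linarith) hc hc1 hc2
  have e : (b₁ - a₁) - (b₂ - a₂) = (b₁ - b₂) - (a₁ - a₂) := by ring
  rw [e] at h3
  have h4 : ‖(b₁ - b₂) - (a₁ - a₂)‖ ≤ 2 * d := by
    have := norm_sub_le (b₁ - b₂) (a₁ - a₂)
    linarith
  have k1 : ‖gt a₁ - gt a₂ - DgL a₀ (a₁ - a₂)‖ ≤ 1875 / 4 * (R * d) := by
    refine h1.trans ?_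
    rw [mul_assoc]
    gcongr
  have k2 : ‖gt b₁ - gt b₂ - DgL b₀ (b₁ - b₂)‖ ≤ 1875 / 4 * (R * d) := by
    refine h2.trans ?_
    rw [mul_assoc]
    gcongr
  have k3 : ‖gt (b₁ - a₁) - gt (b₂ - a₂) - DgL (b₀ - a₀) ((b₁ - b₂) - (a₁ - a₂))‖ ≤
      1875 * (R * d) := by
    refine h3.trans ?_
    calc 1875 / 4 * (2 * R) * ‖(b₁ - b₂) - (a₁ - a₂)‖ ≤ 1875 / 4 * (2 * R) * (2 * d) := by gcongr
      _ = _ := by ring
  have hRd : 0 ≤ R * d := by positivity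
  constructor
  · have e1 : FA gt a₁ b₁ - FA gt a₂ b₂ - DA a₀ b₀ (a₁ - a₂) (b₁ - b₂) =
        -(4 / 25) * (gt a₁ - gt a₂ - DgL a₀ (a₁ - a₂)) +
        (1 / 10) * ((gt (b₁ - a₁) - gt (b₂ - a₂) - DgL (b₀ - a₀) ((b₁ - b₂) - (a₁ - a₂))) -
          (gt b₁ - gt b₂ - DgL b₀ (b₁ - b₂))) := by
      rw [FA, FA, DA]; ring
    rw [e1]
    refine (norm_comb1 _ _ _).trans ?_
    nlinarith
  · have e1 : FB gt a₁ b₁ - FB gt a₂ b₂ - DB a₀ b₀ (a₁ - a₂) (b₁ - b₂) =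
        -(4 / 25) * (gt b₁ - gt b₂ - DgL b₀ (b₁ - b₂)) -
        (1 / 10) * ((gt (b₁ - a₁) - gt (b₂ - a₂) - DgL (b₀ - a₀) ((b₁ - b₂) - (a₁ - a₂))) +
          (gt a₁ - gt a₂ - DgL a₀ (a₁ - a₂))) := by
      rw [FB, FB, DB]; ring
    rw [e1]
    refine (norm_comb2 _ _ _).trans ?_
    nlinarith

/-- linearity of `DA`, `DB` -/
lemma DA_sub (a b x y x' y' : ℂ) : DA a b (x - x') (y - y') = DA a b x y - DA a b x' y' := by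
  rw [DA, DA, DA, show y - y' - (x - x') = (y - x) - (y' - x') by ring]
  simp only [map_sub]
  ring

lemma DB_sub (a b x y x' y' : ℂ) : DB a b (x - x') (y - y') = DB a b x y - DB a b x' y' := by
  rw [DB, DB, DB, show y - y' - (x - x') = (y - x) - (y' - x') by ring]
  simp only [map_sub]
  ring

lemma D_bound {a b x y : ℂ} {p q s d : ℝ} (ha : a ≠ 0) (hb : b ≠ 0) (hc : b - a ≠ 0)
    (hp : ‖a‖⁻¹ ≤ p) (hq : ‖b‖⁻¹ ≤ q) (hs : ‖b - a‖⁻¹ ≤ s) (hx : ‖x‖ ≤ d) (hy : ‖y‖ ≤ d) :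
    ‖DA a b x y‖ ≤ (8 / 25 * p ^ 3 + 2 / 5 * s ^ 3 + 1 / 5 * q ^ 3) * d ∧
    ‖DB a b x y‖ ≤ (8 / 25 * q ^ 3 + 2 / 5 * s ^ 3 + 1 / 5 * p ^ 3) * d := by
  have hd : 0 ≤ d := (norm_nonneg _).trans hx
  have hyx : ‖y - x‖ ≤ 2 * d := by
    have := norm_sub_le y x
    linarith
  have hp0 : 0 ≤ p := le_trans (by positivity) hp
  have hq0 : 0 ≤ q := le_trans (by positivity) hq
  have hs0 : 0 ≤ s := le_trans (by positivity) hs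
  have h1 : ‖DgL a x‖ ≤ 2 * (p ^ 3 * d) := by
    refine (norm_DgL_apply_le a x ha).trans ?_
    rw [mul_assoc]
    gcongr
  have h2 : ‖DgL b y‖ ≤ 2 * (q ^ 3 * d) := by
    refine (norm_DgL_apply_le b y hb).trans ?_
    rw [mul_assoc]
    gcongr
  have h3 : ‖DgL (b - a) (y - x)‖ ≤ 4 * (s ^ 3 * d) := by
    refine (norm_DgL_apply_le (b - a) (y - x) hc).trans ?_
    calc 2 * ‖b - a‖⁻¹ ^ 3 * ‖y - x‖ ≤ 2 * s ^ 3 * (2 * d) := by gcongr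
      _ = _ := by ring
  constructor
  · rw [DA]
    refine (norm_comb1 _ _ _).trans ?_
    linarith
  · rw [DB]
    refine (norm_comb2 _ _ _).trans ?_
    linarith

end Pool.Agent.H70TB
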