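import Pool.Agent.helper70.TB.GCalc

/-!
# Existence of solutions of second order systems with bounded Lipschitz force
-/

set_option autoImplicit false

open Set Metric
open scoped NNReal

namespace Pool.Agent.H70TB

theorem exists_second_order {P : Type*} [NormedAddCommGroup P] [NormedSpace ℝ P] [CompleteSpace P]
    (F : P → P) (C K : ℝ≥0) (hC : ∀ x, ‖F x‖ ≤ C) (hK : LipschitzWith K F) (T : ℝ) (hT : 0 ≤ T)
    (x0 v0 : P) : ∃ x v : ℝ → P, x 0 = x0 ∧ v 0 = v0 ∧
      (∀ t ∈ Icc 0 T, HasDerivWithinAt x (v t) (Icc 0 T) t) ∧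
      (∀ t ∈ Icc 0 T, HasDerivWithinAt v (F (x t)) (Icc 0 T) t) := by
  set l : ℝ := 2 * T + 1 with hl
  have hlpos : 0 < l := by positivity
  let lN : ℝ≥0 := ⟨l, hlpos.le⟩
  let TN : ℝ≥0 := ⟨T, hT⟩
  set f : P × P → P × P := fun y => (l⁻¹ • y.2, l • F y.1) with hf
  let A : ℝ≥0 := 2 * TN * (‖v0‖₊ + lN * C)
  let L : ℝ≥0 := ‖v0‖₊ + A * lN⁻¹ + lN * C
  have hAr : (A : ℝ) = 2 * T * (‖v0‖ + l * C) := rfl
  have hLr : (L : ℝ) = ‖v0‖ + A * l⁻¹ + l * C := rfl
  have hpl : IsPicardLindelof (fun _ => f) (tmin := 0) (tmax := T) ⟨0, ⟨le_rfl, hT⟩⟩ (x0, l • v0)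
      A 0 L (lN⁻¹ + lN * K) := by
    apply IsPicardLindelof.of_time_independent
    · intro y hy
      rw [mem_closedBall, dist_eq_norm] at hy
      have h2 : ‖y.2 - l • v0‖ ≤ A := (norm_snd_le (y - (x0, l • v0))).trans hy
      have h3 : ‖y.2‖ ≤ l * ‖v0‖ + A := by
        have := norm_add_le (y.2 - l • v0) (l • v0)
        rw [sub_add_cancel, norm_smul, Real.norm_of_nonneg hlpos.le] at this
        linarith
      have hC' := hC y.1
      apply max_le
      · change ‖l⁻¹ • y.2‖ ≤ _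
        rw [norm_smul, Real.norm_of_nonneg (by positivity), hLr]
        calc l⁻¹ * ‖y.2‖ ≤ l⁻¹ * (l * ‖v0‖ + A) := by gcongr
          _ = ‖v0‖ + A * l⁻¹ := by field_simp
          _ ≤ _ := by
            have : 0 ≤ l * C := by positivity
            linarith
      · change ‖l • F y.1‖ ≤ _
        rw [norm_smul, Real.norm_of_nonneg hlpos.le, hLr]
        calc l * ‖F y.1‖ ≤ l * C := by gcongr
          _ ≤ _ := by
            have : 0 ≤ A * l⁻¹ := by positivity
            have := norm_nonneg v0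
            linarith
    · apply LipschitzWith.lipschitzOnWith
      apply LipschitzWith.of_dist_le_mul
      intro y z
      rw [dist_eq_norm, dist_eq_norm]
      have h1 : ‖y.1 - z.1‖ ≤ ‖y - z‖ := norm_fst_le (y - z)
      have h2 : ‖y.2 - z.2‖ ≤ ‖y - z‖ := norm_snd_le (y - z)
      have h3 : ‖F y.1 - F z.1‖ ≤ K * ‖y.1 - z.1‖ := by
        have := hK.dist_le_mul y.1 z.1
        rwa [dist_eq_norm, dist_eq_norm] at this
      have hco : ((lN⁻¹ + lN * K : ℝ≥0) : ℝ) = l⁻¹ + l * K := rfl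
      rw [hco]
      apply max_le
      · change ‖l⁻¹ • y.2 - l⁻¹ • z.2‖ ≤ _
        rw [← smul_sub, norm_smul, Real.norm_of_nonneg (by positivity)]
        calc l⁻¹ * ‖y.2 - z.2‖ ≤ l⁻¹ * ‖y - z‖ := by gcongr
          _ ≤ _ := by
            have : 0 ≤ l * K * ‖y - z‖ := by positivity
            linarith
      · change ‖l • F y.1 - l • F z.1‖ ≤ _
        rw [← smul_sub, norm_smul, Real.norm_of_nonneg (by positivity)]
        calc l * ‖F y.1 - F z.1‖ ≤ l * (K * ‖y - z‖) := by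
              gcongr
              exact h3.trans (by gcongr)
          _ ≤ _ := by
            have : 0 ≤ l⁻¹ * ‖y - z‖ := by positivity
            linarith
    · change (L : ℝ) * max (T - 0) (0 - 0) ≤ A - 0
      rw [sub_zero, sub_zero, sub_zero, max_eq_left hT, hLr]
      have h1 : A * l⁻¹ * T ≤ A / 2 := by
        have : l⁻¹ * T ≤ 1 / 2 := by
          rw [inv_mul_le_iff₀ hlpos, hl]; linarith
        have hA0 : (0 : ℝ) ≤ A := A.2
        nlinarith
      have h2 : (‖v0‖ + l * C) * T = A / 2 := by rw [hAr]; ring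
      nlinarith
  obtain ⟨α, hα0, hα⟩ := hpl.exists_eq_forall_mem_Icc_hasDerivWithinAt₀
  refine ⟨fun t => (α t).1, fun t => l⁻¹ • (α t).2, ?_, ?_, ?_, ?_⟩
  · change (α 0).1 = x0
    have : α 0 = (x0, l • v0) := hα0
    rw [this]
  · change l⁻¹ • (α 0).2 = v0
    have : α 0 = (x0, l • v0) := hα0
    rw [this, smul_smul, inv_mul_cancel₀ hlpos.ne', one_smul]
  · intro t ht
    have h0 := hα t ht
    rw [hasDerivWithinAt_iff_hasFDerivWithinAt] at h0
    have h1 : HasFDerivWithinAt (fun t => (α t).1) _ (Icc 0 T) t := h0.fst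
    have h2 := h1.hasDerivWithinAt
    convert h2 using 1
    simp [hf]
  · intro t ht
    have h0 := hα t ht
    rw [hasDerivWithinAt_iff_hasFDerivWithinAt] at h0
    have h1 : HasFDerivWithinAt (fun t => (α t).2) _ (Icc 0 T) t := h0.snd
    have h2 := h1.hasDerivWithinAt.const_smul l⁻¹
    have e : F (α t).1 = l⁻¹ • (ContinuousLinearMap.snd ℝ P P ∘SL
        ContinuousLinearMap.toSpanSingleton ℝ (f (α t))) 1 := by
      simp [hf, smul_smul, inv_mul_cancel₀ hlpos.ne']
    change HasDerivWithinAt (fun t => l⁻¹ • (α t).2) (F (α t).1) _ t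
    rw [e]
    exact h2

end Pool.Agent.H70TB
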