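import Pool.Agent.helper70.TB.Defs

/-!
# Calculus of `g z = z / |z|³`
-/

set_option autoImplicit false

open Complex ComplexConjugate Set

namespace Pool.Agent.H70TB

/-- the derivative of `g` -/
noncomputable def DgL (z : ℂ) : ℂ →L[ℝ] ℂ :=
  (‖z‖⁻¹ ^ 3 : ℝ) • ContinuousLinearMap.id ℝ ℂ
    - (3 * ‖z‖⁻¹ ^ 5 : ℝ) • ((innerSL ℝ z).smulRight z)

lemma DgL_apply (z w : ℂ) : DgL z w =
    ((‖z‖⁻¹ ^ 3 : ℝ) : ℂ) * w - 3 * ((‖z‖⁻¹ ^ 5 : ℝ) : ℂ) * ((z.re * w.re + z.im * w.im : ℝ) : ℂ) * z := by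
  simp [DgL, Complex.inner, Complex.real_smul]
  ring

lemma DgL_apply' (z w : ℂ) (hz : z ≠ 0) : DgL z w =
    -(1 / 2) * (((‖z‖⁻¹ ^ 3 : ℝ) : ℂ) * w + 3 * ((‖z‖⁻¹ ^ 5 : ℝ) : ℂ) * z ^ 2 * conj w) := by
  rw [DgL_apply]
  have h1 : ((z.re * w.re + z.im * w.im : ℝ) : ℂ) = (z * conj w + conj z * w) / 2 := by
    apply Complex.ext <;> simp <;> ring
  have hn : ‖z‖ ≠ 0 := norm_ne_zero_iff.2 hz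
  have h2 : ((‖z‖⁻¹ : ℝ) : ℂ) ^ 2 * (z * conj z) = 1 := by
    have hn' : (‖z‖ : ℂ) ≠ 0 := by exact_mod_cast hn
    rw [Complex.mul_conj, Complex.normSq_eq_norm_sq]
    push_cast
    field_simp
  rw [h1]
  push_cast at h2 ⊢
  linear_combination (-(3 : ℂ) / 2 * ((‖z‖ : ℂ)⁻¹ ^ 3) * w) * h2

lemma norm_DgL_apply_le (z w : ℂ) (hz : z ≠ 0) : ‖DgL z w‖ ≤ 2 * ‖z‖⁻¹ ^ 3 * ‖w‖ := by
  rw [DgL_apply' z w hz]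
  have hn : ‖z‖ ≠ 0 := norm_ne_zero_iff.2 hz
  have h0 : 0 ≤ ‖z‖⁻¹ := by positivity
  have h1 : ‖((‖z‖⁻¹ ^ 3 : ℝ) : ℂ) * w‖ = ‖z‖⁻¹ ^ 3 * ‖w‖ := by
    rw [norm_mul, Complex.norm_real, Real.norm_of_nonneg (by positivity)]
  have h2 : ‖3 * ((‖z‖⁻¹ ^ 5 : ℝ) : ℂ) * z ^ 2 * conj w‖ = 3 * ‖z‖⁻¹ ^ 3 * ‖w‖ := by
    rw [norm_mul, norm_mul, norm_mul, Complex.norm_real, Real.norm_of_nonneg (by positivity),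
      norm_pow, RCLike.norm_conj]
    have : ‖(3 : ℂ)‖ = 3 := by simp
    rw [this]
    field_simp
  calc ‖-(1 / 2 : ℂ) * (((‖z‖⁻¹ ^ 3 : ℝ) : ℂ) * w + 3 * ((‖z‖⁻¹ ^ 5 : ℝ) : ℂ) * z ^ 2 * conj w)‖
      = 1 / 2 * ‖((‖z‖⁻¹ ^ 3 : ℝ) : ℂ) * w + 3 * ((‖z‖⁻¹ ^ 5 : ℝ) : ℂ) * z ^ 2 * conj w‖ := by
        rw [norm_mul]; simp
    _ ≤ 1 / 2 * (‖z‖⁻¹ ^ 3 * ‖w‖ + 3 * ‖z‖⁻¹ ^ 3 * ‖w‖) := by
        rw [← h1, ← h2]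
        gcongr
        exact norm_add_le _ _
    _ = _ := by ring

lemma hasFDerivAt_g (z : ℂ) (hz : z ≠ 0) : HasFDerivAt g (DgL z) z := by
  have hn : ‖z‖ ≠ 0 := norm_ne_zero_iff.2 hz
  have hn2 : ‖z‖ ^ 2 ≠ 0 := pow_ne_zero _ hn
  have h1 : HasFDerivAt (fun x : ℂ => ‖x‖ ^ 2) (2 • (innerSL ℝ z)) z :=
    (hasStrictFDerivAt_norm_sq z).hasFDerivAt
  have h2 := (h1.rpow_const (p := (-3 / 2 : ℝ)) (Or.inl hn2)).smul (hasFDerivAt_id (𝕜 := ℝ) z)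
  have hrp : ∀ x : ℂ, ∀ p : ℝ, (‖x‖ ^ 2) ^ p = ‖x‖ ^ (2 * p) := by
    intro x p
    rw [← Real.rpow_natCast, ← Real.rpow_mul (norm_nonneg _)]
    norm_num
  have hg : g = (fun x : ℂ => (‖x‖ ^ 2) ^ (-3 / 2 : ℝ) • id x) := by
    ext1 x
    rw [hrp]
    have : (2 * (-3 / 2) : ℝ) = -3 := by norm_num
    rw [this, g, Complex.real_smul, Real.rpow_neg (norm_nonneg _)]
    have h3 : ‖x‖ ^ (3 : ℝ) = ‖x‖ ^ 3 := by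
      rw [← Real.rpow_natCast]; norm_num
    rw [h3]
    push_cast
    rw [div_eq_inv_mul]
    rfl
  rw [hg]
  refine h2.congr_fderiv ?_
  ext1 w
  have e1 : ((‖z‖ ^ 2) ^ (-3 / 2 : ℝ)) = ‖z‖⁻¹ ^ 3 := by
    rw [hrp]
    have : (2 * (-3 / 2) : ℝ) = -3 := by norm_num
    rw [this, Real.rpow_neg (norm_nonneg _)]
    have h3 : ‖z‖ ^ (3 : ℝ) = ‖z‖ ^ 3 := by
      rw [← Real.rpow_natCast]; norm_num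
    rw [h3, inv_pow]
  have e2 : ((‖z‖ ^ 2) ^ (-3 / 2 - 1 : ℝ)) = ‖z‖⁻¹ ^ 5 := by
    rw [hrp]
    have : (2 * (-3 / 2 - 1) : ℝ) = -5 := by norm_num
    rw [this, Real.rpow_neg (norm_nonneg _)]
    have h3 : ‖z‖ ^ (5 : ℝ) = ‖z‖ ^ 5 := by
      rw [← Real.rpow_natCast]; norm_num
    rw [h3, inv_pow]
  rw [e1, e2]
  simp [DgL]
  ring

/-! ### estimates -/

lemma inv_diff {z w : ℂ} {K : ℝ} (hz : z ≠ 0) (hw : w ≠ 0) (hzK : ‖z‖⁻¹ ≤ K) (hwK : ‖w‖⁻¹ ≤ K) :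
    |‖z‖⁻¹ - ‖w‖⁻¹| ≤ K ^ 2 * ‖z - w‖ := by
  have hn : 0 < ‖z‖ := norm_pos_iff.2 hz
  have hm : 0 < ‖w‖ := norm_pos_iff.2 hw
  have h1 : ‖z‖⁻¹ - ‖w‖⁻¹ = (‖w‖ - ‖z‖) * (‖z‖⁻¹ * ‖w‖⁻¹) := by
    field_simp
  have h2 : |‖w‖ - ‖z‖| ≤ ‖z - w‖ := by
    rw [← norm_neg (z - w), neg_sub]; exact abs_norm_sub_norm_le w z
  rw [h1, abs_mul, abs_of_pos (by positivity : 0 < ‖z‖⁻¹ * ‖w‖⁻¹)]
  have h3 : ‖z‖⁻¹ * ‖w‖⁻¹ ≤ K * K := by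
    apply mul_le_mul hzK hwK (by positivity)
    exact le_trans (by positivity) hzK
  calc |‖w‖ - ‖z‖| * (‖z‖⁻¹ * ‖w‖⁻¹) ≤ ‖z - w‖ * (K * K) := by
        apply mul_le_mul h2 h3 (by positivity) (norm_nonneg _)
    _ = _ := by ring

lemma inv_diff3 {z w : ℂ} {K : ℝ} (hz : z ≠ 0) (hw : w ≠ 0) (hzK : ‖z‖⁻¹ ≤ K) (hwK : ‖w‖⁻¹ ≤ K) :
    |‖z‖⁻¹ ^ 3 - ‖w‖⁻¹ ^ 3| ≤ 3 * K ^ 4 * ‖z - w‖ := by
  have h := inv_diff hz hw hzK hwK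
  have ha : 0 ≤ ‖z‖⁻¹ := by positivity
  have hb : 0 ≤ ‖w‖⁻¹ := by positivity
  have h1 : ‖z‖⁻¹ ^ 3 - ‖w‖⁻¹ ^ 3 =
      (‖z‖⁻¹ - ‖w‖⁻¹) * (‖z‖⁻¹ * ‖z‖⁻¹ + ‖z‖⁻¹ * ‖w‖⁻¹ + ‖w‖⁻¹ * ‖w‖⁻¹) := by ring
  have hK : 0 ≤ K := ha.trans hzK
  have h2 : ‖z‖⁻¹ * ‖z‖⁻¹ + ‖z‖⁻¹ * ‖w‖⁻¹ + ‖w‖⁻¹ * ‖w‖⁻¹ ≤ K * K + K * K + K * K := by
    gcongr
  rw [h1, abs_mul, abs_of_nonneg (by positivity :
    0 ≤ ‖z‖⁻¹ * ‖z‖⁻¹ + ‖z‖⁻¹ * ‖w‖⁻¹ + ‖w‖⁻¹ * ‖w‖⁻¹)]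
  calc _ ≤ (K ^ 2 * ‖z - w‖) * (K * K + K * K + K * K) := by
        apply mul_le_mul h h2 (by positivity) (by positivity)
    _ = _ := by ring

/-- the direction -/
lemma dir_diff {z w : ℂ} {K : ℝ} (hz : z ≠ 0) (hw : w ≠ 0) (hzK : ‖z‖⁻¹ ≤ K) :
    ‖((‖z‖⁻¹ : ℝ) : ℂ) * z - ((‖w‖⁻¹ : ℝ) : ℂ) * w‖ ≤ 2 * K * ‖z - w‖ := by
  have hn : 0 < ‖z‖ := norm_pos_iff.2 hz
  have hm : 0 < ‖w‖ := norm_pos_iff.2 hw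
  have h0 : ((‖z‖⁻¹ : ℝ) : ℂ) * z - ((‖w‖⁻¹ : ℝ) : ℂ) * w =
      ((‖z‖⁻¹ : ℝ) : ℂ) * (z - w) + ((‖z‖⁻¹ - ‖w‖⁻¹ : ℝ) : ℂ) * w := by
    push_cast; ring
  have h1 : ‖z‖⁻¹ - ‖w‖⁻¹ = (‖w‖ - ‖z‖) * (‖z‖⁻¹ * ‖w‖⁻¹) := by
    field_simp
  have h2 : |‖w‖ - ‖z‖| ≤ ‖z - w‖ := by
    rw [← norm_neg (z - w), neg_sub]; exact abs_norm_sub_norm_le w z
  rw [h0]
  refine (norm_add_le _ _).trans ?_
  rw [norm_mul, norm_mul, Complex.norm_real, Complex.norm_real, Real.norm_eq_abs, Real.norm_eq_abs,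
    h1, abs_mul, abs_of_pos (by positivity : 0 < ‖z‖⁻¹ * ‖w‖⁻¹),
    abs_of_pos (by positivity : 0 < ‖z‖⁻¹)]
  have h3 : |‖w‖ - ‖z‖| * (‖z‖⁻¹ * ‖w‖⁻¹) * ‖w‖ = |‖w‖ - ‖z‖| * ‖z‖⁻¹ := by
    field_simp
  rw [h3]
  have h4 : |‖w‖ - ‖z‖| * ‖z‖⁻¹ ≤ ‖z - w‖ * K := mul_le_mul h2 hzK (by positivity) (norm_nonneg _)
  have h5 : ‖z‖⁻¹ * ‖z - w‖ ≤ K * ‖z - w‖ := by gcongr
  linarith

lemma norm_dir {z : ℂ} (hz : z ≠ 0) : ‖((‖z‖⁻¹ : ℝ) : ℂ) * z‖ = 1 := by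
  have hn : 0 < ‖z‖ := norm_pos_iff.2 hz
  rw [norm_mul, Complex.norm_real, Real.norm_of_nonneg (by positivity)]
  field_simp

/-- `Dg` is Lipschitz -/
lemma DgL_diff {z w : ℂ} {K : ℝ} (hz : z ≠ 0) (hw : w ≠ 0) (hzK : ‖z‖⁻¹ ≤ K) (hwK : ‖w‖⁻¹ ≤ K)
    (x : ℂ) : ‖DgL z x - DgL w x‖ ≤ 12 * K ^ 4 * ‖z - w‖ * ‖x‖ := by
  have hK : 0 ≤ K := le_trans (by positivity) hzK
  rw [DgL_apply' z x hz, DgL_apply' w x hw]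
  set e : ℂ := ((‖z‖⁻¹ : ℝ) : ℂ) * z with he
  set f : ℂ := ((‖w‖⁻¹ : ℝ) : ℂ) * w with hf
  have h1 := inv_diff3 hz hw hzK hwK
  have h2 := dir_diff (w := w) hz hw hzK
  rw [← he, ← hf] at h2
  have hen : ‖e‖ = 1 := norm_dir hz
  have hfn : ‖f‖ = 1 := norm_dir hw
  have hA : -(1 / 2 : ℂ) * (((‖z‖⁻¹ ^ 3 : ℝ) : ℂ) * x + 3 * ((‖z‖⁻¹ ^ 5 : ℝ) : ℂ) * z ^ 2 * conj x) -
      -(1 / 2 : ℂ) * (((‖w‖⁻¹ ^ 3 : ℝ) : ℂ) * x + 3 * ((‖w‖⁻¹ ^ 5 : ℝ) : ℂ) * w ^ 2 * conj x) =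
      -(1 / 2 : ℂ) * ((((‖z‖⁻¹ ^ 3 - ‖w‖⁻¹ ^ 3 : ℝ) : ℂ)) * x +
        3 * (((‖z‖⁻¹ ^ 3 : ℝ) : ℂ) * ((e - f) * (e + f)) +
          ((‖z‖⁻¹ ^ 3 - ‖w‖⁻¹ ^ 3 : ℝ) : ℂ) * f ^ 2) * conj x) := by
    rw [he, hf]; push_cast; ring
  rw [hA]
  have h3 : ‖z‖⁻¹ ^ 3 ≤ K ^ 3 := by gcongr
  have h4 : ‖(e - f) * (e + f)‖ ≤ 4 * K * ‖z - w‖ := by
    rw [norm_mul]
    have : ‖e + f‖ ≤ 2 := by
      refine (norm_add_le _ _).trans ?_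
      rw [hen, hfn]; norm_num
    calc ‖e - f‖ * ‖e + f‖ ≤ (2 * K * ‖z - w‖) * 2 := mul_le_mul h2 this (norm_nonneg _)
          (by positivity)
      _ = _ := by ring
  have h5 : ‖((‖z‖⁻¹ ^ 3 : ℝ) : ℂ) * ((e - f) * (e + f)) +
          ((‖z‖⁻¹ ^ 3 - ‖w‖⁻¹ ^ 3 : ℝ) : ℂ) * f ^ 2‖ ≤ 7 * K ^ 4 * ‖z - w‖ := by
    refine (norm_add_le _ _).trans ?_
    rw [norm_mul, norm_mul (((‖z‖⁻¹ ^ 3 - ‖w‖⁻¹ ^ 3 : ℝ) : ℂ)), Complex.norm_real, Complex.norm_real,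
      Real.norm_eq_abs, Real.norm_eq_abs, norm_pow, hfn, abs_of_nonneg (by positivity : 0 ≤ ‖z‖⁻¹ ^ 3)]
    have h6 : ‖z‖⁻¹ ^ 3 * ‖(e - f) * (e + f)‖ ≤ K ^ 3 * (4 * K * ‖z - w‖) :=
      mul_le_mul h3 h4 (norm_nonneg _) (by positivity)
    nlinarith
  rw [norm_mul]
  have h7 : ‖-(1 / 2 : ℂ)‖ = 1 / 2 := by simp
  rw [h7]
  have h8 : ‖(((‖z‖⁻¹ ^ 3 - ‖w‖⁻¹ ^ 3 : ℝ) : ℂ)) * x +
        3 * (((‖z‖⁻¹ ^ 3 : ℝ) : ℂ) * ((e - f) * (e + f)) +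
          ((‖z‖⁻¹ ^ 3 - ‖w‖⁻¹ ^ 3 : ℝ) : ℂ) * f ^ 2) * conj x‖ ≤
      (3 * K ^ 4 * ‖z - w‖) * ‖x‖ + 3 * (7 * K ^ 4 * ‖z - w‖) * ‖x‖ := by
    refine (norm_add_le _ _).trans ?_
    rw [norm_mul, norm_mul, norm_mul, Complex.norm_real, Real.norm_eq_abs, RCLike.norm_conj]
    have : ‖(3 : ℂ)‖ = 3 := by simp
    rw [this]
    gcongr
  calc _ ≤ 1 / 2 * ((3 * K ^ 4 * ‖z - w‖) * ‖x‖ + 3 * (7 * K ^ 4 * ‖z - w‖) * ‖x‖) := by gcongr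
    _ = _ := by ring

/-- second order estimate for `g` -/
lemma g_quad {z₀ z w : ℂ} {K R : ℝ} (hR : 0 < R) (hK : 0 < K) (h0 : K⁻¹ + R ≤ ‖z₀‖)
    (hz : ‖z - z₀‖ ≤ R) (hw : ‖w - z₀‖ ≤ R) :
    ‖g z - g w - DgL z₀ (z - w)‖ ≤ 12 * K ^ 4 * R * ‖z - w‖ := by
  have hball : ∀ y ∈ Metric.closedBall z₀ R, K⁻¹ ≤ ‖y‖ := by
    intro y hy
    rw [Metric.mem_closedBall, dist_eq_norm] at hy
    have := norm_sub_norm_le z₀ (z₀ - y)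
    rw [sub_sub_cancel] at this
    have h2 : ‖z₀ - y‖ ≤ R := by rw [← norm_neg, neg_sub]; exact hy
    linarith
  have hKi : 0 < K⁻¹ := by positivity
  have hne : ∀ y ∈ Metric.closedBall z₀ R, y ≠ 0 := by
    intro y hy h
    have := hball y hy
    rw [h, norm_zero] at this
    linarith
  have hinv : ∀ y ∈ Metric.closedBall z₀ R, ‖y‖⁻¹ ≤ K := by
    intro y hy
    have h1 := hball y hy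
    have h2 := inv_anti₀ hKi h1
    rwa [inv_inv] at h2
  have hz0 : z₀ ∈ Metric.closedBall z₀ R := Metric.mem_closedBall_self hR.le
  have key := (convex_closedBall z₀ R).norm_image_sub_le_of_norm_hasFDerivWithin_le
    (𝕜 := ℝ) (f := fun y => g y - DgL z₀ y) (f' := fun y => DgL y - DgL z₀)
    (C := 12 * K ^ 4 * R) (x := w) (y := z)
    (fun y hy => ((hasFDerivAt_g y (hne y hy)).sub (DgL z₀).hasFDerivAt).hasFDerivWithinAt)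
    (fun y hy => by
      apply ContinuousLinearMap.opNorm_le_bound _ (by positivity)
      intro x
      have := DgL_diff (hne y hy) (hne z₀ hz0) (hinv y hy) (hinv z₀ hz0) x
      rw [sub_apply]
      refine this.trans ?_
      rw [Metric.mem_closedBall, dist_eq_norm] at hy
      gcongr)
    (by rw [Metric.mem_closedBall, dist_eq_norm]; exact hw)
    (by rw [Metric.mem_closedBall, dist_eq_norm]; exact hz)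
  have e : g z - g w - DgL z₀ (z - w) = g z - DgL z₀ z - (g w - DgL z₀ w) := by
    rw [map_sub]; ring
  rw [e]
  exact key

/-! ### the cut-off field -/

/-- cut-off of `g` -/
noncomputable def gc (r : ℝ) (z : ℂ) : ℂ := z / ((max ‖z‖ r : ℝ) : ℂ) ^ 3

lemma gc_eq {r : ℝ} {z : ℂ} (h : r ≤ ‖z‖) : gc r z = g z := by
  rw [gc, g, max_eq_left h]

lemma norm_gc_le {r : ℝ} (hr : 0 < r) (z : ℂ) : ‖gc r z‖ ≤ r⁻¹ ^ 2 := by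
  have hm : 0 < max ‖z‖ r := lt_of_lt_of_le hr (le_max_right _ _)
  rw [gc, norm_div, norm_pow, Complex.norm_real, Real.norm_of_nonneg hm.le]
  have h1 : ‖z‖ ≤ max ‖z‖ r := le_max_left _ _
  have h2 : r ≤ max ‖z‖ r := le_max_right _ _
  calc ‖z‖ / (max ‖z‖ r) ^ 3 ≤ (max ‖z‖ r) / (max ‖z‖ r) ^ 3 := by gcongr
    _ = (max ‖z‖ r)⁻¹ ^ 2 := by field_simp
    _ ≤ r⁻¹ ^ 2 := by gcongr

lemma gc_lip_aux {r : ℝ} (hr : 0 < r) (z w : ℂ) (hzw : ‖z‖ ≤ ‖w‖) :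
    ‖gc r z - gc r w‖ ≤ 4 * r⁻¹ ^ 3 * ‖z - w‖ := by
  set M := max ‖z‖ r with hM
  set N := max ‖w‖ r with hN
  have hMpos : 0 < M := lt_of_lt_of_le hr (le_max_right _ _)
  have hNpos : 0 < N := lt_of_lt_of_le hr (le_max_right _ _)
  have hMN : M ≤ N := max_le_max_right _ hzw
  have hzM : ‖z‖ ≤ M := le_max_left _ _
  have hrM : r ≤ M := le_max_right _ _
  have hrN : r ≤ N := le_max_right _ _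
  have hd : N - M ≤ ‖z - w‖ := by
    have h1 : |N - M| ≤ max |‖w‖ - ‖z‖| |r - r| := abs_max_sub_max_le_max _ _ _ _
    have h2 : |‖w‖ - ‖z‖| ≤ ‖z - w‖ := by
      rw [← norm_neg (z - w), neg_sub]; exact abs_norm_sub_norm_le w z
    rw [sub_self, abs_zero, max_eq_left (abs_nonneg _)] at h1
    exact (le_abs_self _).trans (h1.trans h2)
  have h0 : gc r z - gc r w = (((M⁻¹ ^ 3 - N⁻¹ ^ 3 : ℝ)) : ℂ) * z + ((N⁻¹ ^ 3 : ℝ) : ℂ) * (z - w) := by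
    rw [gc, gc, ← hM, ← hN]
    push_cast
    field_simp
    ring
  rw [h0]
  refine (norm_add_le _ _).trans ?_
  have hMi : M⁻¹ ≤ r⁻¹ := inv_anti₀ hr hrM
  have hNi : N⁻¹ ≤ r⁻¹ := inv_anti₀ hr hrN
  have hNM : N⁻¹ ≤ M⁻¹ := inv_anti₀ hMpos hMN
  have hNi0 : 0 < N⁻¹ := by positivity
  have hMi0 : 0 < M⁻¹ := by positivity
  have hri0 : 0 < r⁻¹ := by positivity
  rw [norm_mul, norm_mul, Complex.norm_real, Complex.norm_real, Real.norm_eq_abs, Real.norm_eq_abs,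
    abs_of_nonneg (by positivity : 0 ≤ N⁻¹ ^ 3), abs_of_nonneg (by
      have : N⁻¹ ^ 3 ≤ M⁻¹ ^ 3 := by gcongr
      linarith)]
  have h5 : (M⁻¹ ^ 3 - N⁻¹ ^ 3) * ‖z‖ ≤ 3 * r⁻¹ ^ 3 * ‖z - w‖ := by
    have e1 : (M⁻¹ ^ 3 - N⁻¹ ^ 3) * M =
        (N - M) * (N⁻¹ * (M⁻¹ * M⁻¹ + M⁻¹ * N⁻¹ + N⁻¹ * N⁻¹)) := by
      field_simp
      ring
    have h6 : 0 ≤ M⁻¹ ^ 3 - N⁻¹ ^ 3 := by
      have : N⁻¹ ^ 3 ≤ M⁻¹ ^ 3 := by gcongr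
      linarith
    calc (M⁻¹ ^ 3 - N⁻¹ ^ 3) * ‖z‖ ≤ (M⁻¹ ^ 3 - N⁻¹ ^ 3) * M := by gcongr
      _ = (N - M) * (N⁻¹ * (M⁻¹ * M⁻¹ + M⁻¹ * N⁻¹ + N⁻¹ * N⁻¹)) := e1
      _ ≤ ‖z - w‖ * (r⁻¹ * (r⁻¹ * r⁻¹ + r⁻¹ * r⁻¹ + r⁻¹ * r⁻¹)) := by gcongr
      _ = _ := by ring
  have h7 : N⁻¹ ^ 3 * ‖z - w‖ ≤ r⁻¹ ^ 3 * ‖z - w‖ := by gcongr
  linarith

lemma gc_lip {r : ℝ} (hr : 0 < r) (z w : ℂ) :
    ‖gc r z - gc r w‖ ≤ 4 * r⁻¹ ^ 3 * ‖z - w‖ := by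
  rcases le_total ‖z‖ ‖w‖ with h | h
  · exact gc_lip_aux hr z w h
  · rw [← norm_neg, neg_sub, ← norm_neg (z - w), neg_sub]
    exact gc_lip_aux hr w z h

end Pool.Agent.H70TB
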