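import Pool.Agent.helper70.TB.Tube

/-!
# From a chain of reference pieces to a solution of the boundary value problem
-/

set_option autoImplicit false

open Complex ComplexConjugate Set

namespace Pool.Agent.H70TB

/-- the whole reference trajectory: 30 pieces of length `1/4` -/
structure Chain (a b u v : ℕ → ℝ → ℂ) (fa fb fu fv : ℕ → ℝ → Fin 3 → ℂ) (Λ l κ : ℕ → ℝ)
    (ell : ℝ) (w0 : ℂ) (cl : Fin 3 → ℝ) (cw : Fin 3 → ℂ) : Prop where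
  ref : ∀ k : ℕ, k < 30 → Ref ((k : ℝ) / 4) (((k + 1 : ℕ) : ℝ) / 4) (Λ k) (a k) (b k) (u k) (v k)
    (fa k) (fb k) (fu k) (fv k)
  hl : ∀ k : ℕ, k < 30 → Λ k + 1 / 8 ≤ l k
  hl1 : ∀ k : ℕ, k < 30 → 1 < l k
  κlo : ∀ k : ℕ, k ≤ 30 → 256 ≤ κ k
  κhi : ∀ k : ℕ, k ≤ 30 → κ k ≤ 2 ^ 24
  κs : ∀ k : ℕ, k < 30 → κ k * Real.exp (l k / 4) + 1 ≤ κ (k + 1)
  /-- nodes -/
  na : ∀ k : ℕ, k < 29 → ‖a k (((k + 1 : ℕ) : ℝ) / 4) - a (k + 1) (((k + 1 : ℕ) : ℝ) / 4)‖ ≤ 1 / 2 ^ 73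
  nb : ∀ k : ℕ, k < 29 → ‖b k (((k + 1 : ℕ) : ℝ) / 4) - b (k + 1) (((k + 1 : ℕ) : ℝ) / 4)‖ ≤ 1 / 2 ^ 73
  nu : ∀ k : ℕ, k < 29 → ‖u k (((k + 1 : ℕ) : ℝ) / 4) - u (k + 1) (((k + 1 : ℕ) : ℝ) / 4)‖ ≤ 1 / 2 ^ 73
  nv : ∀ k : ℕ, k < 29 → ‖v k (((k + 1 : ℕ) : ℝ) / 4) - v (k + 1) (((k + 1 : ℕ) : ℝ) / 4)‖ ≤ 1 / 2 ^ 73
  nfa : ∀ k : ℕ, k < 29 → ∀ x : Fin 3 → ℝ, ‖lin x (fa k (((k + 1 : ℕ) : ℝ) / 4)) -
    lin x (fa (k + 1) (((k + 1 : ℕ) : ℝ) / 4))‖ ≤ 1 / 2 ^ 32 * ‖x‖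
  nfb : ∀ k : ℕ, k < 29 → ∀ x : Fin 3 → ℝ, ‖lin x (fb k (((k + 1 : ℕ) : ℝ) / 4)) -
    lin x (fb (k + 1) (((k + 1 : ℕ) : ℝ) / 4))‖ ≤ 1 / 2 ^ 32 * ‖x‖
  nfu : ∀ k : ℕ, k < 29 → ∀ x : Fin 3 → ℝ, ‖lin x (fu k (((k + 1 : ℕ) : ℝ) / 4)) -
    lin x (fu (k + 1) (((k + 1 : ℕ) : ℝ) / 4))‖ ≤ 1 / 2 ^ 32 * ‖x‖
  nfv : ∀ k : ℕ, k < 29 → ∀ x : Fin 3 → ℝ, ‖lin x (fv k (((k + 1 : ℕ) : ℝ) / 4)) -
    lin x (fv (k + 1) (((k + 1 : ℕ) : ℝ) / 4))‖ ≤ 1 / 2 ^ 32 * ‖x‖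
  /-- initial data: `a = -ℓ, b = ℓ, u = v = w` with `ℓ = ell + Σ x_i cl_i`, `w = w0 + Σ x_i cw_i` -/
  ia : ‖-(ell : ℂ) - a 0 0‖ ≤ 1 / 2 ^ 65
  ib : ‖(ell : ℂ) - b 0 0‖ ≤ 1 / 2 ^ 65
  iu : ‖w0 - u 0 0‖ ≤ 1 / 2 ^ 65
  iv : ‖w0 - v 0 0‖ ≤ 1 / 2 ^ 65
  ifa : ∀ x : Fin 3 → ℝ, ‖-lin x (fun i => (cl i : ℂ)) - lin x (fa 0 0)‖ ≤ 1 / 2 ^ 24 * ‖x‖
  ifb : ∀ x : Fin 3 → ℝ, ‖lin x (fun i => (cl i : ℂ)) - lin x (fb 0 0)‖ ≤ 1 / 2 ^ 24 * ‖x‖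
  ifu : ∀ x : Fin 3 → ℝ, ‖lin x cw - lin x (fu 0 0)‖ ≤ 1 / 2 ^ 24 * ‖x‖
  ifv : ∀ x : Fin 3 → ℝ, ‖lin x cw - lin x (fv 0 0)‖ ≤ 1 / 2 ^ 24 * ‖x‖
  /-- end point -/
  eA : ‖a 29 (15 / 2)‖ ≤ 4
  eB : ‖b 29 (15 / 2)‖ ≤ 4
  eU : ‖u 29 (15 / 2)‖ ≤ 4
  eV : ‖v 29 (15 / 2)‖ ≤ 4
  efu : ∀ x : Fin 3 → ℝ, ‖lin x (fu 29 (15 / 2))‖ ≤ 14 * ‖x‖
  efv : ∀ x : Fin 3 → ℝ, ‖lin x (fv 29 (15 / 2))‖ ≤ 14 * ‖x‖
  eG1 : |(a 29 (15 / 2) * conj (b 29 (15 / 2))).im| ≤ 1 / 2 ^ 60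
  eG2 : |(u 29 (15 / 2) * conj (a 29 (15 / 2))).re| ≤ 1 / 2 ^ 60
  eG3 : |(v 29 (15 / 2) * conj (b 29 (15 / 2))).re| ≤ 1 / 2 ^ 60
  eD1 : ∀ x : Fin 3 → ℝ, |(lin x (fa 29 (15 / 2)) * conj (b 29 (15 / 2)) +
    a 29 (15 / 2) * conj (lin x (fb 29 (15 / 2)))).im - x 0| ≤ 1 / 16 * ‖x‖
  eD2 : ∀ x : Fin 3 → ℝ, |(lin x (fu 29 (15 / 2)) * conj (a 29 (15 / 2)) +
    u 29 (15 / 2) * conj (lin x (fa 29 (15 / 2)))).re - x 1| ≤ 1 / 16 * ‖x‖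
  eD3 : ∀ x : Fin 3 → ℝ, |(lin x (fv 29 (15 / 2)) * conj (b 29 (15 / 2)) +
    v 29 (15 / 2) * conj (lin x (fb 29 (15 / 2)))).re - x 2| ≤ 1 / 16 * ‖x‖
  eAre : 1 / 2 ≤ (a 29 (15 / 2)).re
  eAim : 1 / 2 ≤ (a 29 (15 / 2)).im
  eBre : 1 / 2 ≤ (b 29 (15 / 2)).re
  eBim : 1 / 2 ≤ (b 29 (15 / 2)).im
  /-- signs -/
  sb : ∀ k : ℕ, k < 30 → ∀ t ∈ Icc ((k : ℝ) / 4) (((k + 1 : ℕ) : ℝ) / 4), 1 / 100 ≤ (b k t).re
  sa : ∀ k : ℕ, k < 30 → ∀ t ∈ Icc ((k : ℝ) / 4) (((k + 1 : ℕ) : ℝ) / 4),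
    1 / 100 ≤ (a k t).re ∨ (a k t).re ≤ -(1 / 100) ∨ (a k t).im ≤ -(1 / 100)
  sc : ∀ k : ℕ, k < 30 → ∀ t ∈ Icc ((k : ℝ) / 4) (((k + 1 : ℕ) : ℝ) / 4),
    1 / 100 ≤ (b k t - a k t).re ∨ (b k t - a k t).re ≤ -(1 / 100) ∨
      (b k t - a k t).im ≤ -(1 / 100)

section
variable {E : Type*} [NormedAddCommGroup E]

lemma chain_ind (r : ℕ → ℝ → E) (κ l : ℕ → ℝ) {θ : ℝ} (hθ : 0 ≤ θ)
    (hl : ∀ k : ℕ, k < 30 → 1 < l k)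
    (κhi : ∀ k : ℕ, k ≤ 30 → κ k ≤ 2 ^ 24) (κlo : ∀ k : ℕ, k ≤ 30 → 256 ≤ κ k)
    (κs : ∀ k : ℕ, k < 30 → κ k * Real.exp (l k / 4) + 1 ≤ κ (k + 1))
    (h0 : ‖r 0 0‖ ≤ 256 * θ)
    (hstep : ∀ k : ℕ, k < 30 → ‖r k ((k : ℝ) / 4)‖ ≤ κ k * θ →
      ∀ t ∈ Icc ((k : ℝ) / 4) (((k + 1 : ℕ) : ℝ) / 4),
        ‖r k t‖ ≤ κ k * θ * Real.exp (l k * (t - (k : ℝ) / 4)))
    (hjump : ∀ k : ℕ, k < 29 → ‖r (k + 1) (((k + 1 : ℕ) : ℝ) / 4)‖ ≤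
      ‖r k (((k + 1 : ℕ) : ℝ) / 4)‖ + θ) :
    ∀ k : ℕ, k < 30 → ‖r k ((k : ℝ) / 4)‖ ≤ κ k * θ ∧
      ∀ t ∈ Icc ((k : ℝ) / 4) (((k + 1 : ℕ) : ℝ) / 4), ‖r k t‖ ≤ 2 ^ 24 * θ := by
  have hexp : ∀ k : ℕ, k < 30 → ∀ t ∈ Icc ((k : ℝ) / 4) (((k + 1 : ℕ) : ℝ) / 4),
      κ k * θ * Real.exp (l k * (t - (k : ℝ) / 4)) ≤ (κ (k + 1) - 1) * θ := by
    intro k hk t ht
    have h1 := κs k hk
    have h2 := κlo k hk.le
    have h3 : Real.exp (l k * (t - (k : ℝ) / 4)) ≤ Real.exp (l k / 4) := by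
      apply Real.exp_le_exp.2
      have h4 := ht.2
      have h5 := hl k hk
      push_cast at h4
      nlinarith
    have h6 : κ k * Real.exp (l k * (t - (k : ℝ) / 4)) ≤ κ k * Real.exp (l k / 4) := by gcongr
    calc κ k * θ * Real.exp (l k * (t - (k : ℝ) / 4)) =
          (κ k * Real.exp (l k * (t - (k : ℝ) / 4))) * θ := by ring
      _ ≤ (κ (k + 1) - 1) * θ := by gcongr; linarith
  have main : ∀ k : ℕ, k < 30 → ‖r k ((k : ℝ) / 4)‖ ≤ κ k * θ := by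
    intro k
    induction k with
    | zero =>
      intro _
      have h1 := κlo 0 (by norm_num)
      have h2 : ((0 : ℕ) : ℝ) / 4 = 0 := by norm_num
      rw [h2]
      exact h0.trans (by gcongr)
    | succ k ih =>
      intro hk
      have h1 := ih (by omega)
      have hmem : (((k + 1 : ℕ) : ℝ) / 4) ∈ Icc ((k : ℝ) / 4) (((k + 1 : ℕ) : ℝ) / 4) := by
        constructor
        · push_cast; linarith
        · exact le_rfl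
      have h2 := hstep k (by omega) h1 _ hmem
      have h3 := hexp k (by omega) _ hmem
      have h4 := hjump k (by omega)
      linarith
  intro k hk
  refine ⟨main k hk, fun t ht => ?_⟩
  have h1 := hstep k hk (main k hk) t ht
  have h2 := hexp k hk t ht
  have h3 := κhi (k + 1) (by omega)
  have h4 : (κ (k + 1) - 1) * θ ≤ 2 ^ 24 * θ := by gcongr; linarith
  linarith

end

section
variable {a b u v : ℕ → ℝ → ℂ} {fa fb fu fv : ℕ → ℝ → Fin 3 → ℂ} {Λ l κ : ℕ → ℝ}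
    {ell : ℝ} {w0 : ℂ} {cl : Fin 3 → ℝ} {cw : Fin 3 → ℂ}

lemma Chain.exp_le (h : Chain a b u v fa fb fu fv Λ l κ ell w0 cl cw) {θ : ℝ} (hθ : 0 ≤ θ)
    {k : ℕ} (hk : k < 30) {t : ℝ} (ht : t ∈ Icc ((k : ℝ) / 4) (((k + 1 : ℕ) : ℝ) / 4)) :
    κ k * θ * Real.exp (l k * (t - (k : ℝ) / 4)) ≤ 2 ^ 24 * θ := by
  have h1 := h.κs k hk
  have h2 := h.κlo k hk.le
  have h3 : Real.exp (l k * (t - (k : ℝ) / 4)) ≤ Real.exp (l k / 4) := by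
    apply Real.exp_le_exp.2
    have h4 := ht.2
    have h5 := h.hl1 k hk
    push_cast at h4
    nlinarith
  have h6 : κ k * Real.exp (l k * (t - (k : ℝ) / 4)) ≤ κ k * Real.exp (l k / 4) := by gcongr
  have h7 := h.κhi (k + 1) (by omega)
  calc κ k * θ * Real.exp (l k * (t - (k : ℝ) / 4)) =
        (κ k * Real.exp (l k * (t - (k : ℝ) / 4))) * θ := by ring
    _ ≤ 2 ^ 24 * θ := by gcongr; linarith

/-- restriction of solutions to pieces -/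
lemma Sol.piece {a b u v : ℝ → ℂ} (h : Sol (15 / 2) a b u v) {k : ℕ} (hk : k < 30) :
    (∀ t ∈ Icc ((k : ℝ) / 4) (((k + 1 : ℕ) : ℝ) / 4),
      HasDerivWithinAt a (u t) (Icc ((k : ℝ) / 4) (((k + 1 : ℕ) : ℝ) / 4)) t) ∧
    (∀ t ∈ Icc ((k : ℝ) / 4) (((k + 1 : ℕ) : ℝ) / 4),
      HasDerivWithinAt b (v t) (Icc ((k : ℝ) / 4) (((k + 1 : ℕ) : ℝ) / 4)) t) ∧
    (∀ t ∈ Icc ((k : ℝ) / 4) (((k + 1 : ℕ) : ℝ) / 4),
      HasDerivWithinAt u (FA gt (a t) (b t)) (Icc ((k : ℝ) / 4) (((k + 1 : ℕ) : ℝ) / 4)) t) ∧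
    (∀ t ∈ Icc ((k : ℝ) / 4) (((k + 1 : ℕ) : ℝ) / 4),
      HasDerivWithinAt v (FB gt (a t) (b t)) (Icc ((k : ℝ) / 4) (((k + 1 : ℕ) : ℝ) / 4)) t) := by
  have hk' : ((k + 1 : ℕ) : ℝ) ≤ 30 := by exact_mod_cast hk
  have hsub : Icc ((k : ℝ) / 4) (((k + 1 : ℕ) : ℝ) / 4) ⊆ Icc (0 : ℝ) (15 / 2) := by
    intro t ht
    have h1 := ht.1
    have h2 := ht.2
    have h3 : (0 : ℝ) ≤ k := Nat.cast_nonneg k
    constructor <;> linarith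
  exact ⟨fun t ht => (h.da t (hsub ht)).mono hsub, fun t ht => (h.db t (hsub ht)).mono hsub,
    fun t ht => (h.du t (hsub ht)).mono hsub, fun t ht => (h.dv t (hsub ht)).mono hsub⟩

/-- Claim 1: the central solution stays near the reference. -/
theorem claim1 (h : Chain a b u v fa fb fu fv Λ l κ ell w0 cl cw)
    {a₀ b₀ u₀ v₀ : ℝ → ℂ} (hs : Sol (15 / 2) a₀ b₀ u₀ v₀)
    (ia : a₀ 0 = -(ell : ℂ)) (ib : b₀ 0 = (ell : ℂ)) (iu : u₀ 0 = w0) (iv : v₀ 0 = w0) :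
    ∀ k : ℕ, k < 30 → ∀ t ∈ Icc ((k : ℝ) / 4) (((k + 1 : ℕ) : ℝ) / 4),
      ‖((a₀ t - a k t, b₀ t - b k t, u₀ t - u k t, v₀ t - v k t) : ℂ × ℂ × ℂ × ℂ)‖ ≤
        1 / 2 ^ 49 := by
  have key := chain_ind (fun k t => rr 0 a₀ b₀ u₀ v₀ (a k) (b k) (u k) (v k)
    (fa k) (fb k) (fu k) (fv k) t) κ l (θ := 1 / 2 ^ 73) (by positivity) h.hl1 h.κhi h.κlo h.κs
    (by
      change ‖rr 0 a₀ b₀ u₀ v₀ (a 0) (b 0) (u 0) (v 0) (fa 0) (fb 0) (fu 0) (fv 0) 0‖ ≤ _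
      have e : (256 : ℝ) * (1 / 2 ^ 73) = 1 / 2 ^ 65 := by norm_num
      rw [e, rr, lin_zero, lin_zero, lin_zero, lin_zero, ia, ib, iu, iv]
      simp only [sub_zero]
      exact norm4_le h.ia h.ib h.iu h.iv)
    (by
      intro k hk hini t ht
      have hR := h.ref k hk
      obtain ⟨p1, p2, p3, p4⟩ := hs.piece hk
      have hwa : ∀ t : ℝ, t ∈ Icc ((k : ℝ) / 4) (((k + 1 : ℕ) : ℝ) / 4) →
        ∃ w, HasDerivAt (u k) w t ∧ ‖w - FA g (a k t) (b k t)‖ ≤ 1 / 2 ^ 69 := hR.du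
      have hwb : ∀ t : ℝ, t ∈ Icc ((k : ℝ) / 4) (((k + 1 : ℕ) : ℝ) / 4) →
        ∃ w, HasDerivAt (v k) w t ∧ ‖w - FB g (a k t) (b k t)‖ ≤ 1 / 2 ^ 69 := hR.dv
      choose! wa hwa1 hwa2 using hwa
      choose! wb hwb1 hwb2 using hwb
      have hFA : ∀ t ∈ Icc ((k : ℝ) / 4) (((k + 1 : ℕ) : ℝ) / 4),
          FA gt (a k t) (b k t) = FA g (a k t) (b k t) := fun t ht =>
        FA_gt (by linarith [hR.ha t ht]) (by linarith [hR.hb t ht]) (by linarith [hR.hc t ht])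
      have hFB : ∀ t ∈ Icc ((k : ℝ) / 4) (((k + 1 : ℕ) : ℝ) / 4),
          FB gt (a k t) (b k t) = FB g (a k t) (b k t) := fun t ht =>
        FB_gt (by linarith [hR.ha t ht]) (by linarith [hR.hb t ht]) (by linarith [hR.hc t ht])
      have hκ := h.κlo k hk.le
      refine tube hR (h.hl k hk) (h.hl1 k hk) (β := κ k * (1 / 2 ^ 73)) (ε := 1 / 2 ^ 69)
        (R := 1 / 2 ^ 40) 0 (by positivity) (by positivity) (by norm_num) ?_ p1 p2 p3 p4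
        (fun t _ => (hR.da t).hasDerivWithinAt) (fun t _ => (hR.db t).hasDerivWithinAt)
        (ea := fun t => wa t - FA gt (a k t) (b k t)) (eb := fun t => wb t - FB gt (a k t) (b k t))
        ?_ ?_ ?_ ?_ hini ?_ t ht
      · rw [norm_zero]
        have : (1 / 8 - 310 * (1 / 2 ^ 40) : ℝ) * (256 * (1 / 2 ^ 73)) ≤
            (1 / 8 - 310 * (1 / 2 ^ 40)) * (κ k * (1 / 2 ^ 73)) := by
          apply mul_le_mul_of_nonneg_left _ (by norm_num)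
          apply mul_le_mul_of_nonneg_right hκ (by norm_num)
        refine lt_of_lt_of_le ?_ this
        norm_num
      · intro t ht
        have : FA gt (a k t) (b k t) + (wa t - FA gt (a k t) (b k t)) = wa t := by ring
        rw [this]
        exact (hwa1 t ht).hasDerivWithinAt
      · intro t ht
        have : FB gt (a k t) (b k t) + (wb t - FB gt (a k t) (b k t)) = wb t := by ring
        rw [this]
        exact (hwb1 t ht).hasDerivWithinAt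
      · intro t ht
        change ‖wa t - FA gt (a k t) (b k t)‖ ≤ _
        rw [hFA t ht]
        exact hwa2 t ht
      · intro t ht
        change ‖wb t - FB gt (a k t) (b k t)‖ ≤ _
        rw [hFB t ht]
        exact hwb2 t ht
      · intro t ht hc
        have h1 := h.exp_le (θ := 1 / 2 ^ 73) (by positivity) hk ht
        have h2 := hc.trans h1
        have h3 : (2 : ℝ) ^ 24 * (1 / 2 ^ 73) ≤ 1 / 2 ^ 40 := by norm_num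
        have h4 := h2.trans h3
        have k1 := (norm4_1 _).trans h4
        have k2 := (norm4_2 _).trans h4
        simp only [rr, lin_zero, sub_zero] at k1 k2
        refine ⟨k1, k2, ?_, ?_⟩ <;> simp)
    (by
      intro k hk
      change ‖rr 0 a₀ b₀ u₀ v₀ (a (k + 1)) (b (k + 1)) (u (k + 1)) (v (k + 1)) (fa (k + 1))
        (fb (k + 1)) (fu (k + 1)) (fv (k + 1)) _‖ ≤
        ‖rr 0 a₀ b₀ u₀ v₀ (a k) (b k) (u k) (v k) (fa k) (fb k) (fu k) (fv k) _‖ + _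
      set t := (((k + 1 : ℕ) : ℝ) / 4) with ht
      have e : rr 0 a₀ b₀ u₀ v₀ (a (k + 1)) (b (k + 1)) (u (k + 1)) (v (k + 1)) (fa (k + 1))
          (fb (k + 1)) (fu (k + 1)) (fv (k + 1)) t =
          rr 0 a₀ b₀ u₀ v₀ (a k) (b k) (u k) (v k) (fa k) (fb k) (fu k) (fv k) t +
          (a k t - a (k + 1) t, b k t - b (k + 1) t, u k t - u (k + 1) t, v k t - v (k + 1) t) := by
        simp only [rr, lin_zero, sub_zero, Prod.mk_add_mk, sub_add_sub_cancel]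
      rw [e]
      refine (norm_add_le _ _).trans ?_
      gcongr
      exact norm4_le (h.na k hk) (h.nb k hk) (h.nu k hk) (h.nv k hk))
  intro k hk t ht
  have h1 := (key k hk).2 t ht
  simp only [rr, lin_zero, sub_zero] at h1
  refine h1.trans (le_of_eq ?_)
  norm_num

/-- the pair estimate -/
theorem pair (h : Chain a b u v fa fb fu fv Λ l κ ell w0 cl cw)
    {x x' : Fin 3 → ℝ} (hx : x - x' ≠ 0)
    {a₁ b₁ u₁ v₁ a₂ b₂ u₂ v₂ : ℝ → ℂ} (hs₁ : Sol (15 / 2) a₁ b₁ u₁ v₁)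
    (hs₂ : Sol (15 / 2) a₂ b₂ u₂ v₂)
    (ia₁ : a₁ 0 = -((ell : ℂ) + lin x (fun i => (cl i : ℂ))))
    (ib₁ : b₁ 0 = (ell : ℂ) + lin x (fun i => (cl i : ℂ)))
    (iu₁ : u₁ 0 = w0 + lin x cw) (iv₁ : v₁ 0 = w0 + lin x cw)
    (ia₂ : a₂ 0 = -((ell : ℂ) + lin x' (fun i => (cl i : ℂ))))
    (ib₂ : b₂ 0 = (ell : ℂ) + lin x' (fun i => (cl i : ℂ)))
    (iu₂ : u₂ 0 = w0 + lin x' cw) (iv₂ : v₂ 0 = w0 + lin x' cw)
    (hcon : ∀ k : ℕ, k < 30 → ∀ t ∈ Icc ((k : ℝ) / 4) (((k + 1 : ℕ) : ℝ) / 4),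
      ‖rr (x - x') a₁ b₁ u₁ v₁ a₂ b₂ u₂ v₂ (fa k) (fb k) (fu k) (fv k) t‖ ≤
        1 / 2 ^ 8 * ‖x - x'‖ →
      ‖a₁ t - a k t‖ ≤ 1 / 2 ^ 40 ∧ ‖b₁ t - b k t‖ ≤ 1 / 2 ^ 40 ∧
      ‖a₂ t - a k t‖ ≤ 1 / 2 ^ 40 ∧ ‖b₂ t - b k t‖ ≤ 1 / 2 ^ 40) :
    ∀ k : ℕ, k < 30 → ∀ t ∈ Icc ((k : ℝ) / 4) (((k + 1 : ℕ) : ℝ) / 4),
      ‖rr (x - x') a₁ b₁ u₁ v₁ a₂ b₂ u₂ v₂ (fa k) (fb k) (fu k) (fv k) t‖ ≤
        1 / 2 ^ 8 * ‖x - x'‖ := by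
  have hxp : 0 < ‖x - x'‖ := norm_pos_iff.2 hx
  have key := chain_ind (fun k t => rr (x - x') a₁ b₁ u₁ v₁ a₂ b₂ u₂ v₂
    (fa k) (fb k) (fu k) (fv k) t) κ l (θ := 1 / 2 ^ 32 * ‖x - x'‖) (by positivity)
    h.hl1 h.κhi h.κlo h.κs
    (by
      change ‖rr (x - x') a₁ b₁ u₁ v₁ a₂ b₂ u₂ v₂ (fa 0) (fb 0) (fu 0) (fv 0) 0‖ ≤ _
      have e : (256 : ℝ) * (1 / 2 ^ 32 * ‖x - x'‖) = 1 / 2 ^ 24 * ‖x - x'‖ := by ring
      rw [e, rr, ia₁, ib₁, iu₁, iv₁, ia₂, ib₂, iu₂, iv₂]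
      have f1 := h.ifa (x - x')
      have f2 := h.ifb (x - x')
      have f3 := h.ifu (x - x')
      have f4 := h.ifv (x - x')
      apply norm4_le
      · convert f1 using 2
        rw [lin_sub x x' (fun i => (cl i : ℂ))]; ring
      · convert f2 using 2
        rw [lin_sub x x' (fun i => (cl i : ℂ))]; ring
      · convert f3 using 2
        rw [lin_sub x x' cw]; ring
      · convert f4 using 2
        rw [lin_sub x x' cw]; ring)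
    (by
      intro k hk hini t ht
      have hR := h.ref k hk
      obtain ⟨p1, p2, p3, p4⟩ := hs₁.piece hk
      obtain ⟨q1, q2, q3, q4⟩ := hs₂.piece hk
      have hκ := h.κlo k hk.le
      have hκ0 : 0 < κ k := by linarith
      refine tube hR (h.hl k hk) (h.hl1 k hk) (β := κ k * (1 / 2 ^ 32 * ‖x - x'‖)) (ε := 0)
        (R := 1 / 2 ^ 40) (x - x') (by positivity) (by positivity) (by norm_num) ?_ p1 p2 p3 p4
        q1 q2 (ea := fun _ => 0) (eb := fun _ => 0) ?_ ?_ ?_ ?_ hini ?_ t ht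
      · have : (1 / 8 - 310 * (1 / 2 ^ 40) : ℝ) * (256 * (1 / 2 ^ 32 * ‖x - x'‖)) ≤
            (1 / 8 - 310 * (1 / 2 ^ 40)) * (κ k * (1 / 2 ^ 32 * ‖x - x'‖)) := by
          apply mul_le_mul_of_nonneg_left _ (by norm_num)
          apply mul_le_mul_of_nonneg_right hκ (by positivity)
        refine lt_of_lt_of_le ?_ this
        nlinarith
      · intro t ht
        simpa using q3 t ht
      · intro t ht
        simpa using q4 t ht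
      · intro t _
        simp
      · intro t _
        simp
      · intro t ht hc
        apply hcon k hk t ht
        refine (hc.trans (h.exp_le (by positivity) hk ht)).trans (le_of_eq ?_)
        ring)
    (by
      intro k hk
      change ‖rr (x - x') a₁ b₁ u₁ v₁ a₂ b₂ u₂ v₂ (fa (k + 1))
        (fb (k + 1)) (fu (k + 1)) (fv (k + 1)) _‖ ≤
        ‖rr (x - x') a₁ b₁ u₁ v₁ a₂ b₂ u₂ v₂ (fa k) (fb k) (fu k) (fv k) _‖ + _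
      set t := (((k + 1 : ℕ) : ℝ) / 4) with ht
      have e : rr (x - x') a₁ b₁ u₁ v₁ a₂ b₂ u₂ v₂ (fa (k + 1))
          (fb (k + 1)) (fu (k + 1)) (fv (k + 1)) t =
          rr (x - x') a₁ b₁ u₁ v₁ a₂ b₂ u₂ v₂ (fa k) (fb k) (fu k) (fv k) t +
          (lin (x - x') (fa k t) - lin (x - x') (fa (k + 1) t),
            lin (x - x') (fb k t) - lin (x - x') (fb (k + 1) t),
            lin (x - x') (fu k t) - lin (x - x') (fu (k + 1) t),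
            lin (x - x') (fv k t) - lin (x - x') (fv (k + 1) t)) := by
        simp only [rr, Prod.mk_add_mk, sub_add_sub_cancel]
      rw [e]
      refine (norm_add_le _ _).trans ?_
      gcongr
      exact norm4_le (h.nfa k hk (x - x')) (h.nfb k hk (x - x')) (h.nfu k hk (x - x'))
        (h.nfv k hk (x - x')))
  intro k hk t ht
  have h1 := (key k hk).2 t ht
  refine h1.trans (le_of_eq ?_)
  ring

end

end Pool.Agent.H70TB
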