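import Pool.Agent.helper70.TB.Sound4
import Pool.Agent.helper70.TB.Shoot

/-!
# From checked pieces to a `Chain`
-/

set_option autoImplicit false
set_option exponentiation.threshold 1000

open Complex ComplexConjugate Set

namespace Pool.Agent.H70TB

/-- local parameter of piece `k` -/
noncomputable def sk (k : ℕ) (t : ℝ) : ℝ := 8 * t - (2 * (k : ℝ) + 1)

lemma sk_mem {k : ℕ} {t : ℝ} (ht : t ∈ Icc ((k : ℝ) / 4) (((k + 1 : ℕ) : ℝ) / 4)) :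
    |sk k t| ≤ 1 := by
  have h1 := ht.1
  have h2 := ht.2
  push_cast at h2
  rw [sk, abs_le]
  constructor <;> linarith

lemma hasDerivAt_sk (k : ℕ) (t : ℝ) : HasDerivAt (sk k) 8 t := by
  have h : HasDerivAt (fun t : ℝ => 8 * t - (2 * (k : ℝ) + 1)) (8 * 1) t :=
    ((hasDerivAt_id t).const_mul (8 : ℝ)).sub_const (2 * (k : ℝ) + 1)
  rw [mul_one] at h
  exact h

/-- polynomial in the local parameter -/
noncomputable def pt (σ : ℝ) (p q : List ℤ) (k : ℕ) (t : ℝ) : ℂ := cz σ p q (sk k t)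

lemma hasDerivAt_pt (σ : ℝ) (p q : List ℤ) (k : ℕ) (t : ℝ) :
    HasDerivAt (pt σ p q k) (8 * pt σ (d1 p) (d1 q) k t) t := by
  have h := (hasDerivAt_cz σ p q (sk k t)).scomp t (hasDerivAt_sk k t)
  have e : (8 : ℝ) • cz σ (d1 p) (d1 q) (sk k t) = 8 * pt σ (d1 p) (d1 q) k t := by
    rw [Complex.real_smul, pt]; norm_num
  rw [e] at h
  exact h

lemma hasDerivAt_pt' (σ : ℝ) (p q : List ℤ) (k : ℕ) (t : ℝ) :
    HasDerivAt (fun t => 8 * pt σ (d1 p) (d1 q) k t) (64 * cz σ (dd p) (dd q) (sk k t)) t := by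
  have h := (hasDerivAt_pt σ (d1 p) (d1 q) k t).const_mul (8 : ℂ)
  refine h.congr_deriv ?_
  rw [pt, dd, dd]; ring

noncomputable def aF (D : List (List ℤ)) (k : ℕ) (t : ℝ) : ℂ :=
  pt (2 ^ 90) (nthL D 0) (nthL D 1) k t
noncomputable def bF (D : List (List ℤ)) (k : ℕ) (t : ℝ) : ℂ :=
  pt (2 ^ 90) (nthL D 2) (nthL D 3) k t
noncomputable def uF (D : List (List ℤ)) (k : ℕ) (t : ℝ) : ℂ :=
  8 * pt (2 ^ 90) (d1 (nthL D 0)) (d1 (nthL D 1)) k t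
noncomputable def vF (D : List (List ℤ)) (k : ℕ) (t : ℝ) : ℂ :=
  8 * pt (2 ^ 90) (d1 (nthL D 2)) (d1 (nthL D 3)) k t
noncomputable def faF (D : List (List ℤ)) (k : ℕ) (t : ℝ) (j : Fin 3) : ℂ :=
  pt (2 ^ 50) (nthL D (7 + 4 * (j : ℕ))) (nthL D (8 + 4 * (j : ℕ))) k t
noncomputable def fbF (D : List (List ℤ)) (k : ℕ) (t : ℝ) (j : Fin 3) : ℂ :=
  pt (2 ^ 50) (nthL D (9 + 4 * (j : ℕ))) (nthL D (10 + 4 * (j : ℕ))) k t
noncomputable def fuF (D : List (List ℤ)) (k : ℕ) (t : ℝ) (j : Fin 3) : ℂ :=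
  8 * pt (2 ^ 50) (d1 (nthL D (7 + 4 * (j : ℕ)))) (d1 (nthL D (8 + 4 * (j : ℕ)))) k t
noncomputable def fvF (D : List (List ℤ)) (k : ℕ) (t : ℝ) (j : Fin 3) : ℂ :=
  8 * pt (2 ^ 50) (d1 (nthL D (9 + 4 * (j : ℕ)))) (d1 (nthL D (10 + 4 * (j : ℕ)))) k t

theorem ref_of_ok {D : List (List ℤ)} {j k : ℕ} (h : okPiece D j = true) :
    Ref ((k : ℝ) / 4) (((k + 1 : ℕ) : ℝ) / 4) ((j : ℝ) / 64 - 1 / 8) (aF D k) (bF D k) (uF D k)
      (vF D k) (faF D k) (fbF D k) (fuF D k) (fvF D k) where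
  da _ := hasDerivAt_pt _ _ _ _ _
  db _ := hasDerivAt_pt _ _ _ _ _
  du _ ht := ⟨_, hasDerivAt_pt' _ _ _ _ _, (piece_sound h (sk_mem ht)).du⟩
  dv _ ht := ⟨_, hasDerivAt_pt' _ _ _ _ _, (piece_sound h (sk_mem ht)).dv⟩
  dfa _ _ := hasDerivAt_pt _ _ _ _ _
  dfb _ _ := hasDerivAt_pt _ _ _ _ _
  dfu _ ht := ⟨_, fun _ => hasDerivAt_pt' _ _ _ _ _, (piece_sound h (sk_mem ht)).dfu⟩
  dfv _ ht := ⟨_, fun _ => hasDerivAt_pt' _ _ _ _ _, (piece_sound h (sk_mem ht)).dfv⟩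
  ha _ ht := (piece_sound h (sk_mem ht)).ha
  hb _ ht := (piece_sound h (sk_mem ht)).hb
  hc _ ht := (piece_sound h (sk_mem ht)).hc
  hΛ _ ht := (piece_sound h (sk_mem ht)).hΛ
  hM _ ht := (piece_sound h (sk_mem ht)).hM

/-! ### end point values -/

lemma sk_right (k : ℕ) : sk k (((k + 1 : ℕ) : ℝ) / 4) = 1 := by
  rw [sk]; push_cast; ring

lemma sk_left (k : ℕ) : sk (k + 1) (((k + 1 : ℕ) : ℝ) / 4) = -1 := by
  rw [sk]; push_cast; ring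

lemma near_sound {p q : List ℤ} {tol : ℕ} (h : near p q tol = true) :
    |ev (1 : ℝ) p - ev (-1 : ℝ) q| ≤ tol := by
  have h1 : Int.natAbs (evZ 1 p - evZ (-1) q) ≤ tol := Nat.le_of_ble_eq_true h
  rw [evZ_eq', evZ_eq'] at h1
  have h2 : (((ev (1 : ℤ) p - ev (-1 : ℤ) q).natAbs : ℕ) : ℝ) ≤ tol := by exact_mod_cast h1
  rw [Nat.cast_natAbs] at h2
  push_cast at h2
  rw [ev_cast (R := ℝ), ev_cast (R := ℝ)] at h2
  push_cast at h2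
  exact h2

lemma pt_near {σ : ℝ} (hσ : 0 < σ) {p q p' q' : List ℤ} {tol : ℕ} (k : ℕ)
    (h1 : near p p' tol = true) (h2 : near q q' tol = true) :
    ‖pt σ p q k (((k + 1 : ℕ) : ℝ) / 4) - pt σ p' q' (k + 1) (((k + 1 : ℕ) : ℝ) / 4)‖ ≤
      2 * tol / σ := by
  rw [pt, pt, sk_right, sk_left]
  have e : (2 * tol / σ : ℝ) = tol / σ + tol / σ := by ring
  rw [e]
  apply norm_le_re_im
  · rw [sub_re, cz_re, cz_re, ← sub_div, abs_div, abs_of_pos hσ]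
    gcongr
    exact near_sound h1
  · rw [sub_im, cz_im, cz_im, ← sub_div, abs_div, abs_of_pos hσ]
    gcongr
    exact near_sound h2

lemma norm8 (x y : ℂ) : ‖8 * x - 8 * y‖ = 8 * ‖x - y‖ := by
  rw [← mul_sub, norm_mul]; norm_num

/-- the node conditions -/
theorem node_sound {D D' : List (List ℤ)} (h : okNode D D' = true) (k : ℕ) :
    (‖aF D k (((k + 1 : ℕ) : ℝ) / 4) - aF D' (k + 1) (((k + 1 : ℕ) : ℝ) / 4)‖ ≤ 1 / 2 ^ 73 ∧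
    ‖bF D k (((k + 1 : ℕ) : ℝ) / 4) - bF D' (k + 1) (((k + 1 : ℕ) : ℝ) / 4)‖ ≤ 1 / 2 ^ 73 ∧
    ‖uF D k (((k + 1 : ℕ) : ℝ) / 4) - uF D' (k + 1) (((k + 1 : ℕ) : ℝ) / 4)‖ ≤ 1 / 2 ^ 73 ∧
    ‖vF D k (((k + 1 : ℕ) : ℝ) / 4) - vF D' (k + 1) (((k + 1 : ℕ) : ℝ) / 4)‖ ≤ 1 / 2 ^ 73) ∧
    ∀ x : Fin 3 → ℝ,
    (‖lin x (faF D k (((k + 1 : ℕ) : ℝ) / 4)) - lin x (faF D' (k + 1) (((k + 1 : ℕ) : ℝ) / 4))‖ ≤
      1 / 2 ^ 32 * ‖x‖ ∧
    ‖lin x (fbF D k (((k + 1 : ℕ) : ℝ) / 4)) - lin x (fbF D' (k + 1) (((k + 1 : ℕ) : ℝ) / 4))‖ ≤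
      1 / 2 ^ 32 * ‖x‖ ∧
    ‖lin x (fuF D k (((k + 1 : ℕ) : ℝ) / 4)) - lin x (fuF D' (k + 1) (((k + 1 : ℕ) : ℝ) / 4))‖ ≤
      1 / 2 ^ 32 * ‖x‖ ∧
    ‖lin x (fvF D k (((k + 1 : ℕ) : ℝ) / 4)) - lin x (fvF D' (k + 1) (((k + 1 : ℕ) : ℝ) / 4))‖ ≤
      1 / 2 ^ 32 * ‖x‖) := by
  rw [okNode, Bool.and_eq_true, List.all_eq_true, List.all_eq_true] at h
  obtain ⟨h1, h2⟩ := h
  have g1 : ∀ i ∈ [0, 1, 2, 3], near (nthL D i) (nthL D' i) (2 ^ 13) = true ∧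
      near (d1 (nthL D i)) (d1 (nthL D' i)) (2 ^ 13) = true := by
    intro i hi
    have := h1 i hi
    rwa [Bool.and_eq_true] at this
  have g2 : ∀ i ∈ [7, 8, 9, 10, 11, 12, 13, 14, 15, 16, 17, 18],
      near (nthL D i) (nthL D' i) 4096 = true ∧
      near (d1 (nthL D i)) (d1 (nthL D' i)) 4096 = true := by
    intro i hi
    have := h2 i hi
    rwa [Bool.and_eq_true] at this
  have t1 : (2 * ((2 ^ 13 : ℕ) : ℝ) / 2 ^ 90 : ℝ) ≤ 1 / 2 ^ 76 := by norm_num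
  have t2 : (2 * ((4096 : ℕ) : ℝ) / 2 ^ 50 : ℝ) = 1 / 2 ^ 37 := by norm_num
  refine ⟨⟨?_, ?_, ?_, ?_⟩, fun x => ⟨?_, ?_, ?_, ?_⟩⟩
  · refine ((pt_near S90 k (g1 0 (by simp)).1 (g1 1 (by simp)).1).trans t1).trans ?_
    norm_num
  · refine ((pt_near S90 k (g1 2 (by simp)).1 (g1 3 (by simp)).1).trans t1).trans ?_
    norm_num
  · rw [uF, uF, norm8]
    have := ((pt_near S90 k (g1 0 (by simp)).2 (g1 1 (by simp)).2).trans t1)
    calc _ ≤ 8 * (1 / 2 ^ 76 : ℝ) := by gcongr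
      _ = _ := by norm_num
  · rw [vF, vF, norm8]
    have := ((pt_near S90 k (g1 2 (by simp)).2 (g1 3 (by simp)).2).trans t1)
    calc _ ≤ 8 * (1 / 2 ^ 76 : ℝ) := by gcongr
      _ = _ := by norm_num
  · rw [lin_sub']
    have k0 := (pt_near P50 k (g2 7 (by simp)).1 (g2 8 (by simp)).1)
    have k1 := (pt_near P50 k (g2 11 (by simp)).1 (g2 12 (by simp)).1)
    have k2 := (pt_near P50 k (g2 15 (by simp)).1 (g2 16 (by simp)).1)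
    rw [t2] at k0 k1 k2
    refine (norm_lin_le x _ k0 k1 k2).trans ?_
    gcongr
    norm_num
  · rw [lin_sub']
    have k0 := (pt_near P50 k (g2 9 (by simp)).1 (g2 10 (by simp)).1)
    have k1 := (pt_near P50 k (g2 13 (by simp)).1 (g2 14 (by simp)).1)
    have k2 := (pt_near P50 k (g2 17 (by simp)).1 (g2 18 (by simp)).1)
    rw [t2] at k0 k1 k2
    refine (norm_lin_le x _ k0 k1 k2).trans ?_
    gcongr
    norm_num
  · rw [lin_sub']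
    have k0 := (pt_near P50 k (g2 7 (by simp)).2 (g2 8 (by simp)).2)
    have k1 := (pt_near P50 k (g2 11 (by simp)).2 (g2 12 (by simp)).2)
    have k2 := (pt_near P50 k (g2 15 (by simp)).2 (g2 16 (by simp)).2)
    rw [t2] at k0 k1 k2
    have b : ∀ z w : ℂ, ‖z - w‖ ≤ 1 / 2 ^ 37 → ‖8 * z - 8 * w‖ ≤ 8 * (1 / 2 ^ 37) := by
      intro z w hzw
      rw [norm8]; gcongr
    refine (norm_lin_le x _ (b _ _ k0) (b _ _ k1) (b _ _ k2)).trans ?_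
    gcongr
    norm_num
  · rw [lin_sub']
    have k0 := (pt_near P50 k (g2 9 (by simp)).2 (g2 10 (by simp)).2)
    have k1 := (pt_near P50 k (g2 13 (by simp)).2 (g2 14 (by simp)).2)
    have k2 := (pt_near P50 k (g2 17 (by simp)).2 (g2 18 (by simp)).2)
    rw [t2] at k0 k1 k2
    have b : ∀ z w : ℂ, ‖z - w‖ ≤ 1 / 2 ^ 37 → ‖8 * z - 8 * w‖ ≤ 8 * (1 / 2 ^ 37) := by
      intro z w hzw
      rw [norm8]; gcongr
    refine (norm_lin_le x _ (b _ _ k0) (b _ _ k1) (b _ _ k2)).trans ?_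
    gcongr
    norm_num

/-- sign conditions -/
theorem sign_sound {D : List (List ℤ)} (h : okSign D = true) {k : ℕ} {t : ℝ}
    (ht : t ∈ Icc ((k : ℝ) / 4) (((k + 1 : ℕ) : ℝ) / 4)) :
    (1 / 100 ≤ (bF D k t).re ∧
    (1 / 100 ≤ (aF D k t).re ∨ (aF D k t).re ≤ -(1 / 100) ∨ (aF D k t).im ≤ -(1 / 100))) ∧
    (1 / 100 ≤ (bF D k t - aF D k t).re ∨ (bF D k t - aF D k t).re ≤ -(1 / 100) ∨
      (bF D k t - aF D k t).im ≤ -(1 / 100)) := by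
  have hs := sk_mem ht
  have hpos : ∀ p, okPos p = true → 1 / 100 ≤ ev (sk k t) p / 2 ^ 90 := by
    intro p hp
    have h1 := zle_sound hp
    have h2 : ((2 : ℝ) ^ 90) ≤ 100 * (2 * ((nthZ p 0 : ℤ) : ℝ) - ((nrm p : ℕ) : ℝ)) := by
      exact_mod_cast h1
    have h3 := ev_ge _ hs p
    rw [le_div_iff₀ S90]
    linarith
  have hneg : ∀ p, okNeg p = true → ev (sk k t) p / 2 ^ 90 ≤ -(1 / 100) := by
    intro p hp
    have h1 := zle_sound hp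
    have h2 : ((2 : ℝ) ^ 90) ≤ 100 * (-2 * ((nthZ p 0 : ℤ) : ℝ) - ((nrm p : ℕ) : ℝ)) := by
      exact_mod_cast h1
    have h3 := ev_le _ hs p
    rw [div_le_iff₀ S90]
    linarith
  simp only [okSign, Bool.and_eq_true, Bool.or_eq_true] at h
  obtain ⟨⟨h1, h2⟩, h3⟩ := h
  have hpsub : ∀ p q : List ℤ, ev (sk k t) (psub p q) = ev (sk k t) p - ev (sk k t) q := by
    intro p q
    rw [psub, ev_padd, ev_pscale]; push_cast; ring
  refine ⟨⟨?_, ?_⟩, ?_⟩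
  · rw [bF, pt, cz_re]; exact hpos _ h1
  · rw [aF, pt, cz_re, cz_im]
    rcases h2 with (h2 | h2) | h2
    · exact Or.inl (hpos _ h2)
    · exact Or.inr (Or.inl (hneg _ h2))
    · exact Or.inr (Or.inr (hneg _ h2))
  · rw [sub_re, sub_im, bF, aF, pt, pt, cz_re, cz_im, cz_re, cz_im, ← sub_div, ← sub_div,
      ← hpsub, ← hpsub]
    rcases h3 with (h3 | h3) | h3
    · exact Or.inl (hpos _ h3)
    · exact Or.inr (Or.inl (hneg _ h3))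
    · exact Or.inr (Or.inr (hneg _ h3))

end Pool.Agent.H70TB
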