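import Mathlib

/-!
# Integer polynomials as lists, and certified bounds through Kronecker substitution
-/

set_option autoImplicit false

namespace Pool.Agent.H70TB

/-- evaluation of a list of integers as a polynomial -/
def ev {R : Type*} [CommRing R] (x : R) : List ℤ → R
  | [] => 0
  | a :: l => (a : R) + x * ev x l

def padd : List ℤ → List ℤ → List ℤ
  | [], q => q
  | a :: p, [] => a :: p
  | a :: p, b :: q => (a + b) :: padd p q

def pscale (c : ℤ) : List ℤ → List ℤ
  | [] => []
  | a :: p => (c * a) :: pscale c p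

def pmul : List ℤ → List ℤ → List ℤ
  | [], _ => []
  | a :: p, q => padd (pscale a q) (0 :: pmul p q)

/-- sum of the absolute values of the coefficients -/
def nrm : List ℤ → ℕ
  | [] => 0
  | a :: p => a.natAbs + nrm p

section ring
variable {R : Type*} [CommRing R] (x : R)

@[simp] lemma ev_nil : ev x [] = 0 := rfl
@[simp] lemma ev_cons (a : ℤ) (l : List ℤ) : ev x (a :: l) = (a : R) + x * ev x l := rfl

lemma ev_padd : ∀ p q : List ℤ, ev x (padd p q) = ev x p + ev x q
  | [], q => by simp [padd]
  | a :: p, [] => by simp [padd]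
  | a :: p, b :: q => by
    rw [padd, ev_cons, ev_cons, ev_cons, ev_padd p q]; push_cast; ring

lemma ev_pscale (c : ℤ) : ∀ p : List ℤ, ev x (pscale c p) = (c : R) * ev x p
  | [] => by simp [pscale]
  | a :: p => by rw [pscale, ev_cons, ev_cons, ev_pscale c p]; push_cast; ring

lemma ev_pmul : ∀ p q : List ℤ, ev x (pmul p q) = ev x p * ev x q
  | [], q => by simp [pmul]
  | a :: p, q => by
    rw [pmul, ev_padd, ev_pscale, ev_cons, ev_cons, ev_pmul p q]; push_cast; ring
end ring

lemma nrm_padd : ∀ p q : List ℤ, nrm (padd p q) ≤ nrm p + nrm q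
  | [], q => by simp [padd, nrm]
  | a :: p, [] => by simp [padd, nrm]
  | a :: p, b :: q => by
    have := nrm_padd p q
    have h2 := Int.natAbs_add_le a b
    simp only [padd, nrm]; omega

lemma nrm_pscale (c : ℤ) : ∀ p : List ℤ, nrm (pscale c p) = c.natAbs * nrm p
  | [] => by simp [pscale, nrm]
  | a :: p => by rw [pscale, nrm, nrm, nrm_pscale c p, Int.natAbs_mul]; ring

lemma nrm_pmul : ∀ p q : List ℤ, nrm (pmul p q) ≤ nrm p * nrm q
  | [], q => by simp [pmul, nrm]
  | a :: p, q => by
    have h1 := nrm_padd (pscale a q) (0 :: pmul p q)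
    have h2 := nrm_pmul p q
    rw [nrm_pscale] at h1
    simp only [pmul, nrm, Int.natAbs_zero, zero_add] at *
    nlinarith

lemma length_padd : ∀ p q : List ℤ, (padd p q).length = max p.length q.length
  | [], q => by simp [padd]
  | a :: p, [] => by simp [padd]
  | a :: p, b :: q => by
    simp only [padd, List.length_cons, length_padd p q]; omega

lemma length_pscale (c : ℤ) : ∀ p : List ℤ, (pscale c p).length = p.length
  | [] => rfl
  | a :: p => by simp [pscale, length_pscale c p]

lemma length_pmul : ∀ p q : List ℤ, (pmul p q).length ≤ p.length + q.length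
  | [], q => by simp [pmul]
  | a :: p, q => by
    have := length_pmul p q
    simp only [pmul, length_padd, length_pscale, List.length_cons]; omega

lemma abs_ev_le (s : ℝ) (hs : |s| ≤ 1) : ∀ p : List ℤ, |ev s p| ≤ nrm p
  | [] => by simp [nrm]
  | a :: p => by
    have ih := abs_ev_le s hs p
    rw [ev_cons, nrm]
    push_cast
    have h1 : |(a : ℝ) + s * ev s p| ≤ |(a : ℝ)| + |s| * |ev s p| := by
      rw [← abs_mul]; exact abs_add_le _ _
    have h2 : ((a.natAbs : ℕ) : ℝ) = |(a : ℝ)| := by
      rw [Nat.cast_natAbs]; simp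
    have h3 : |s| * |ev s p| ≤ 1 * (nrm p : ℝ) := mul_le_mul hs ih (abs_nonneg _) zero_le_one
    have h4 : (|a| : ℤ) = |(a : ℝ)| := by simp
    first
      | linarith
      | (rw [h4]; linarith)

/-! ### Digits -/

/-- sum of the absolute values of the balanced digits -/
def dsum (b h : ℕ) : ℕ → ℕ → ℕ
  | 0, m => m
  | n + 1, m => ((m % b - h) + (h - m % b)) +
      (match m / b with
       | 0 => dsum b h n 0
       | k + 1 => dsum b h n (k + 1))

lemma dsum_succ (b h n m : ℕ) : dsum b h (n + 1) m =
    ((m % b - h) + (h - m % b)) + dsum b h n (m / b) := by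
  rw [dsum]
  cases m / b <;> rfl

/-- the offset -/
def off (b h : ℕ) : ℕ → ℕ
  | 0 => 0
  | n + 1 => h + b * off b h n

/-- all coefficients less than `h` -/
lemma dsum_eq (b h : ℕ) (hb : b = 2 * h) (hh : 0 < h) : ∀ (n : ℕ) (l : List ℤ), l.length ≤ n →
    (∀ a ∈ l, a.natAbs < h) → ∀ m : ℕ, (m : ℤ) = ev (b : ℤ) l + off b h n → dsum b h n m = nrm l := by
  intro n
  induction n with
  | zero =>
    intro l hl _ m hm
    have : l = [] := List.length_eq_zero_iff.1 (by omega)
    subst this
    simp [ev, off] at hm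
    simp [dsum, nrm, hm]
  | succ n ih =>
    intro l hl hc m hm
    rw [dsum_succ]
    have hbpos : 0 < b := by omega
    cases l with
    | nil =>
      have h1 : m = h + b * off b h n := by
        have : (m : ℤ) = ((h + b * off b h n : ℕ) : ℤ) := by rw [hm]; simp [ev, off]
        exact_mod_cast this
      have h2 : m % b = h := by
        rw [h1, Nat.add_mul_mod_self_left, Nat.mod_eq_of_lt (by omega)]
      have h3 : m / b = off b h n := by
        rw [h1, Nat.add_mul_div_left _ _ hbpos, Nat.div_eq_of_lt (by omega)]; simp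
      rw [h2, h3, ih [] (by simp) (by simp) (off b h n) (by simp [ev])]
      simp [nrm]
    | cons a l =>
      have ha := hc a (by simp)
      have hlow : 0 ≤ a + h := by omega
      have hup : a + h < b := by omega
      have hval : (m : ℤ) = (a + h) + b * (ev (b : ℤ) l + off b h n) := by
        rw [hm, ev_cons, off]; push_cast; ring
      have hmod : ((m % b : ℕ) : ℤ) = a + h := by
        push_cast
        rw [hval, Int.add_mul_emod_self_left, Int.emod_eq_of_lt hlow hup]
      have hdiv : ((m / b : ℕ) : ℤ) = ev (b : ℤ) l + off b h n := by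
        push_cast
        rw [hval, Int.add_mul_ediv_left _ _ (by omega : (b : ℤ) ≠ 0), Int.ediv_eq_zero_of_lt hlow hup]
        simp
      rw [ih l (by simp at hl; omega) (fun c hc' => hc c (by simp [hc'])) (m / b) hdiv, nrm]
      omega

lemma coeff_lt_of_nrm {h : ℕ} : ∀ {l : List ℤ}, nrm l < h → ∀ a ∈ l, a.natAbs < h
  | [], _, a, ha => by simp at ha
  | c :: l, hl, a, ha => by
    rw [nrm] at hl
    rcases List.mem_cons.1 ha with rfl | ha
    · omega
    · exact coeff_lt_of_nrm (l := l) (by omega) a ha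

lemma ev_off_nonneg (b h : ℕ) (hb : b = 2 * h) : ∀ (n : ℕ) (l : List ℤ), l.length ≤ n →
    (∀ a ∈ l, a.natAbs < h) → 0 ≤ ev (b : ℤ) l + off b h n := by
  intro n
  induction n with
  | zero =>
    intro l hl _
    have : l = [] := List.length_eq_zero_iff.1 (by omega)
    subst this
    simp [ev, off]
  | succ n ih =>
    intro l hl hc
    cases l with
    | nil => simp [ev]
    | cons a l =>
      have ha := hc a (by simp)
      have h1 := ih l (by simp at hl; omega) (fun c hc' => hc c (by simp [hc']))
      have hval : ev (b : ℤ) (a :: l) + off b h (n + 1) = (a + h) + b * (ev (b : ℤ) l + off b h n) := by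
        rw [ev_cons, off]; push_cast; ring
      rw [hval]
      have : 0 ≤ (b : ℤ) * (ev (b : ℤ) l + off b h n) := by positivity
      omega

/-! ### Expressions -/

/-- polynomial expressions in named integer polynomials -/
inductive Ex : Type
  | v (i : ℕ) : Ex
  | c (k : ℤ) : Ex
  | add (e f : Ex) : Ex
  | mul (e f : Ex) : Ex

namespace Ex

/-- semantics in a commutative ring -/
def eval {R : Type*} [CommRing R] (ρ : ℕ → R) : Ex → R
  | v i => ρ i
  | c k => (k : R)
  | add e f => eval ρ e + eval ρ f
  | mul e f => eval ρ e * eval ρ f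

/-- semantics in the integers, for computation -/
def evalZ (ρ : ℕ → ℤ) : Ex → ℤ
  | v i => ρ i
  | c k => k
  | add e f => Int.add (evalZ ρ e) (evalZ ρ f)
  | mul e f => Int.mul (evalZ ρ e) (evalZ ρ f)

/-- semantics as lists -/
def toL (env : ℕ → List ℤ) : Ex → List ℤ
  | v i => env i
  | c k => [k]
  | add e f => padd (toL env e) (toL env f)
  | mul e f => pmul (toL env e) (toL env f)

/-- bound for the `ℓ¹` norm -/
def bnd (β : ℕ → ℕ) : Ex → ℕ
  | v i => β i
  | c k => k.natAbs
  | add e f => Nat.add (bnd β e) (bnd β f)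
  | mul e f => Nat.mul (bnd β e) (bnd β f)

/-- bound for the length -/
def len (d : ℕ) : Ex → ℕ
  | v _ => d
  | c _ => 1
  | add e f => max (len d e) (len d f)
  | mul e f => Nat.add (len d e) (len d f)

lemma evalZ_eq (ρ : ℕ → ℤ) : ∀ e : Ex, evalZ ρ e = eval ρ e
  | v i => rfl
  | c k => by simp [evalZ, eval]
  | add e f => by
    rw [evalZ, eval, ← evalZ_eq ρ e, ← evalZ_eq ρ f]; rfl
  | mul e f => by
    rw [evalZ, eval, ← evalZ_eq ρ e, ← evalZ_eq ρ f]; rfl

lemma ev_toL {R : Type*} [CommRing R] (x : R) (env : ℕ → List ℤ) :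
    ∀ e : Ex, ev x (toL env e) = eval (fun i => ev x (env i)) e
  | v i => rfl
  | c k => by simp [toL, eval]
  | add e f => by rw [toL, eval, ev_padd, ev_toL x env e, ev_toL x env f]
  | mul e f => by rw [toL, eval, ev_pmul, ev_toL x env e, ev_toL x env f]

lemma nrm_toL (env : ℕ → List ℤ) (β : ℕ → ℕ) (hβ : ∀ i, nrm (env i) ≤ β i) :
    ∀ e : Ex, nrm (toL env e) ≤ bnd β e
  | v i => hβ i
  | c k => by simp [toL, bnd, nrm]
  | add e f => by
    have h1 := nrm_toL env β hβ e
    have h2 := nrm_toL env β hβ f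
    have h3 := nrm_padd (toL env e) (toL env f)
    have h4 : bnd β (add e f) = bnd β e + bnd β f := rfl
    rw [toL, h4]; omega
  | mul e f => by
    have h1 := nrm_toL env β hβ e
    have h2 := nrm_toL env β hβ f
    have h3 := nrm_pmul (toL env e) (toL env f)
    have h4 : bnd β (mul e f) = bnd β e * bnd β f := rfl
    rw [toL, h4]
    exact h3.trans (Nat.mul_le_mul h1 h2)

lemma length_toL (env : ℕ → List ℤ) (d : ℕ) (hd : ∀ i, (env i).length ≤ d) :
    ∀ e : Ex, (toL env e).length ≤ len d e
  | v i => hd i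
  | c k => by simp [toL, len]
  | add e f => by
    have h1 := length_toL env d hd e
    have h2 := length_toL env d hd f
    simp only [toL, len, length_padd]; omega
  | mul e f => by
    have h1 := length_toL env d hd e
    have h2 := length_toL env d hd f
    have h3 := length_pmul (toL env e) (toL env f)
    have h4 : len d (mul e f) = len d e + len d f := rfl
    rw [toL, h4]; omega

/-- the certificate: `h` half base, `o` the offset `off b h n`, `n` number of digits -/
def chk (h n o : ℕ) (ρ : ℕ → ℤ) (e : Ex) (ε : ℕ) : Bool :=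
  Nat.ble (dsum (2 * h) h n (Int.toNat (Int.add (evalZ ρ e) (Int.ofNat o)))) ε

/-- soundness -/
theorem chk_sound {env : ℕ → List ℤ} {β : ℕ → ℕ} {d h n o : ℕ} {ρ : ℕ → ℤ}
    (hβ : ∀ i, nrm (env i) ≤ β i) (hd : ∀ i, (env i).length ≤ d) (hh : 0 < h)
    (ho : o = off (2 * h) h n)
    (hρ : ∀ i, ρ i = ev ((2 * h : ℕ) : ℤ) (env i))
    {e : Ex} (hb : bnd β e < h) (hn : len d e ≤ n) {ε : ℕ}
    (hc : chk h n o ρ e ε = true) {s : ℝ} (hs : |s| ≤ 1) :
    |eval (fun i => ev s (env i)) e| ≤ ε := by
  have h1 := nrm_toL env β hβ e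
  have h2 := length_toL env d hd e
  have hcoef : ∀ a ∈ toL env e, a.natAbs < h := coeff_lt_of_nrm (lt_of_le_of_lt h1 hb)
  have hlen : (toL env e).length ≤ n := h2.trans hn
  have hnn := ev_off_nonneg (2 * h) h rfl n (toL env e) hlen hcoef
  have hev : evalZ ρ e = ev ((2 * h : ℕ) : ℤ) (toL env e) := by
    rw [evalZ_eq, ev_toL]
    congr 1
    ext i
    exact hρ i
  have h3 : ((Int.toNat (Int.add (evalZ ρ e) (Int.ofNat o)) : ℕ) : ℤ) =
      ev ((2 * h : ℕ) : ℤ) (toL env e) + off (2 * h) h n := by
    have h4 : Int.add (evalZ ρ e) (Int.ofNat o) = ev ((2 * h : ℕ) : ℤ) (toL env e) + off (2 * h) h n := by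
      rw [hev, ho]; rfl
    rw [h4, Int.toNat_of_nonneg hnn]
  have h5 := dsum_eq (2 * h) h rfl hh n (toL env e) hlen hcoef _ h3
  have h6 : nrm (toL env e) ≤ ε := by
    rw [← h5]
    exact Nat.le_of_ble_eq_true hc
  rw [← ev_toL]
  exact (abs_ev_le s hs _).trans (by exact_mod_cast h6)

end Ex

end Pool.Agent.H70TB
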