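import Pool.Agent.helper70.TB.Check

/-!
# Soundness of the checks, part 1: lists and packing
-/

set_option autoImplicit false

namespace Pool.Agent.H70TB

section ring
variable {R : Type*} [CommRing R]

lemma ev_d1aux (x : R) : ∀ (l : List ℤ) (n : ℕ),
    ev x (d1aux n l) = (n : R) * ev x l + x * ev x (d1 l)
  | [], n => by simp [d1aux, d1]
  | a :: l, n => by
    have h1 := ev_d1aux x l (n + 1)
    have h2 := ev_d1aux x l 1
    have e : Int.mul (Int.ofNat n) a = (n : ℤ) * a := rfl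
    rw [d1aux, ev_cons, h1, ev_cons, d1, h2, e]
    push_cast
    ring

lemma ev_d1_cons (x : R) (a : ℤ) (l : List ℤ) :
    ev x (d1 (a :: l)) = ev x l + x * ev x (d1 l) := by
  rw [d1, ev_d1aux]; simp

lemma evZ_eq' (x : ℤ) : ∀ l : List ℤ, evZ x l = ev x l
  | [] => rfl
  | a :: l => by
    rw [evZ, ev_cons, ← evZ_eq' x l]
    simp

lemma ev_cast (x : ℤ) : ∀ l : List ℤ, ((ev x l : ℤ) : R) = ev (x : R) l
  | [] => by simp
  | a :: l => by
    rw [ev_cons, ev_cons, ← ev_cast x l]; push_cast; ring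
end ring

lemma hasDerivAt_ev : ∀ (l : List ℤ) (s : ℝ), HasDerivAt (fun s => ev s l) (ev s (d1 l)) s
  | [], s => by simpa [d1] using hasDerivAt_const s (0 : ℝ)
  | a :: l, s => by
    have h := hasDerivAt_ev l s
    rw [ev_d1_cons]
    have h2 : HasDerivAt (fun s : ℝ => (a : ℝ) + s * ev s l) (1 * ev s l + s * ev s (d1 l)) s :=
      ((hasDerivAt_id s).mul h).const_add _
    rw [one_mul] at h2
    exact h2

lemma force_eq {α : Type} (n : ℕ) (k : ℕ → α) : force n k = k n := by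
  cases n <;> rfl

lemma forceZ_eq {α : Type} (n : ℤ) (k : ℤ → α) : forceZ n k = k n := by
  cases n <;> simp [forceZ, force_eq]

lemma packF_eq (b : ℤ) : ∀ (L : List (List ℤ)) (k : List ℤ → Bool),
    packF b L k = k (L.map (evZ b))
  | [], k => rfl
  | l :: L, k => by
    rw [packF, forceZ_eq, packF_eq b L]; rfl

lemma nthZ_map (b : ℤ) : ∀ (L : List (List ℤ)) (i : ℕ),
    nthZ (L.map (evZ b)) i = evZ b (nthL L i)
  | [], i => by cases i <;> rfl
  | l :: L, 0 => rfl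
  | l :: L, i + 1 => by
    rw [List.map_cons, nthZ, nthL, nthZ_map b L i]

lemma okList_sound : ∀ (L : List (List ℤ)) (B : List ℕ), okList L B = true → ∀ i,
    nrm (nthL L i) ≤ nthN B i ∧ (nthL L i).length ≤ 28
  | [], B, _, i => by
    cases i <;> simp [nthL, nrm]
  | l :: L, [], h, i => by
    simp [okList] at h
  | l :: L, b :: B, h, i => by
    simp only [okList, Bool.and_eq_true] at h
    obtain ⟨⟨h1, h2⟩, h3⟩ := h
    cases i with
    | zero => exact ⟨Nat.le_of_ble_eq_true h2, Nat.le_of_ble_eq_true h1⟩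
    | succ i => exact okList_sound L B h3 i

lemma allChk_sound (n o : ℕ) (ρ : ℕ → ℤ) (ε : ℕ) : ∀ (l : List Ex), allChk n o ρ ε l = true →
    ∀ e ∈ l, Ex.chk hh n o ρ e ε = true
  | [], _, e, he => by simp at he
  | a :: l, h, e, he => by
    rw [allChk, Bool.and_eq_true] at h
    rcases List.mem_cons.1 he with rfl | he
    · exact h.1
    · exact allChk_sound n o ρ ε l h.2 e he

lemma offc112 : offc 120 = off (2 * hh) hh 120 := by decide +kernel
lemma offc224 : offc 232 = off (2 * hh) hh 232 := by decide +kernel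

lemma hh_pos : 0 < hh := by decide +kernel

lemma bnd1 : ∀ e ∈ Ex.Es1, Ex.bnd (nthN bL) e < hh ∧ Ex.len 28 e ≤ 120 := by decide +kernel
lemma bnd3 : ∀ e ∈ Ex.Es3, Ex.bnd (nthN bL) e < hh ∧ Ex.len 28 e ≤ 120 := by decide +kernel
lemma bnd4 : ∀ e ∈ Ex.Es4, Ex.bnd (nthN bL) e < hh ∧ Ex.len 28 e ≤ 232 := by decide +kernel

lemma base_eq : (2 ^ 720 : ℤ) = ((2 * hh : ℕ) : ℤ) := by decide +kernel

/-- the polynomial inequalities -/
theorem okPoly_sound {D : List (List ℤ)} (h1 : okList (envL D) bL = true) (h : okPoly D = true)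
    {s : ℝ} (hs : |s| ≤ 1) :
    (∀ e ∈ Ex.Es1, |Ex.eval (fun i => ev s (nthL (envL D) i)) e| ≤ ((2 ^ 280 : ℕ) : ℝ)) ∧
    (∀ e ∈ Ex.Es3, |Ex.eval (fun i => ev s (nthL (envL D) i)) e| ≤ ((50 * 2 ^ 289 : ℕ) : ℝ)) ∧
    (∀ e ∈ Ex.Es4, |Ex.eval (fun i => ev s (nthL (envL D) i)) e| ≤ ((50 * 2 ^ 646 : ℕ) : ℝ)) := by
  rw [okPoly, packF_eq, force_eq, force_eq, Bool.and_eq_true, Bool.and_eq_true] at h
  obtain ⟨⟨g1, g3⟩, g4⟩ := h
  have hl := okList_sound _ _ h1
  have hβ : ∀ i, nrm (nthL (envL D) i) ≤ nthN bL i := fun i => (hl i).1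
  have hd : ∀ i, (nthL (envL D) i).length ≤ 28 := fun i => (hl i).2
  have hρ : ∀ i, nthZ ((envL D).map (evZ (2 ^ 720))) i =
      ev ((2 * hh : ℕ) : ℤ) (nthL (envL D) i) := by
    intro i
    rw [nthZ_map, evZ_eq', base_eq]
  refine ⟨fun e he => ?_, fun e he => ?_, fun e he => ?_⟩
  · have b := bnd1 e he
    exact Ex.chk_sound hβ hd hh_pos offc112 hρ b.1 b.2 (allChk_sound _ _ _ _ _ g1 e he) hs
  · have b := bnd3 e he
    exact Ex.chk_sound hβ hd hh_pos offc112 hρ b.1 b.2 (allChk_sound _ _ _ _ _ g3 e he) hs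
  · have b := bnd4 e he
    exact Ex.chk_sound hβ hd hh_pos offc224 hρ b.1 b.2 (allChk_sound _ _ _ _ _ g4 e he) hs

end Pool.Agent.H70TB
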