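import Pool.Agent.helper70.TB.Field

/-!
# Tubes around a piece of reference trajectory
-/

set_option autoImplicit false

open Complex ComplexConjugate Set

namespace Pool.Agent.H70TB

/-- real linear combination of columns -/
noncomputable def lin (x : Fin 3 → ℝ) (f : Fin 3 → ℂ) : ℂ := ∑ i, (x i : ℂ) * f i

lemma lin_sub (x y : Fin 3 → ℝ) (f : Fin 3 → ℂ) : lin (x - y) f = lin x f - lin y f := by
  simp only [lin, Pi.sub_apply, ofReal_sub, sub_mul, Finset.sum_sub_distrib]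

lemma lin_zero (f : Fin 3 → ℂ) : lin 0 f = 0 := by
  simp [lin]

/-- a piece of reference trajectory with variational columns -/
structure Ref (t0 t1 Λ : ℝ) (a b u v : ℝ → ℂ) (fa fb fu fv : ℝ → Fin 3 → ℂ) : Prop where
  da : ∀ t, HasDerivAt a (u t) t
  db : ∀ t, HasDerivAt b (v t) t
  du : ∀ t ∈ Icc t0 t1, ∃ w, HasDerivAt u w t ∧ ‖w - FA g (a t) (b t)‖ ≤ 1 / 2 ^ 69
  dv : ∀ t ∈ Icc t0 t1, ∃ w, HasDerivAt v w t ∧ ‖w - FB g (a t) (b t)‖ ≤ 1 / 2 ^ 69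
  dfa : ∀ i t, HasDerivAt (fun t => fa t i) (fu t i) t
  dfb : ∀ i t, HasDerivAt (fun t => fb t i) (fv t i) t
  dfu : ∀ t ∈ Icc t0 t1, ∃ w : Fin 3 → ℂ, (∀ i, HasDerivAt (fun t => fu t i) (w i) t) ∧
    ∀ x : Fin 3 → ℝ, ‖DA (a t) (b t) (lin x (fa t)) (lin x (fb t)) - lin x w‖ ≤ 1 / 2 ^ 30 * ‖x‖
  dfv : ∀ t ∈ Icc t0 t1, ∃ w : Fin 3 → ℂ, (∀ i, HasDerivAt (fun t => fv t i) (w i) t) ∧
    ∀ x : Fin 3 → ℝ, ‖DB (a t) (b t) (lin x (fa t)) (lin x (fb t)) - lin x w‖ ≤ 1 / 2 ^ 30 * ‖x‖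
  ha : ∀ t ∈ Icc t0 t1, 9 / 20 ≤ ‖a t‖
  hb : ∀ t ∈ Icc t0 t1, 9 / 20 ≤ ‖b t‖
  hc : ∀ t ∈ Icc t0 t1, 9 / 20 ≤ ‖b t - a t‖
  hΛ : ∀ t ∈ Icc t0 t1, ∀ x y : ℂ, ∀ d : ℝ, ‖x‖ ≤ d → ‖y‖ ≤ d →
    ‖DA (a t) (b t) x y‖ ≤ Λ * d ∧ ‖DB (a t) (b t) x y‖ ≤ Λ * d
  hM : ∀ t ∈ Icc t0 t1, ∀ x : Fin 3 → ℝ, ‖lin x (fa t)‖ ≤ 14 * ‖x‖ ∧ ‖lin x (fb t)‖ ≤ 14 * ‖x‖

lemma hasDerivAt_lin (x : Fin 3 → ℝ) {f : ℝ → Fin 3 → ℂ} {f' : Fin 3 → ℂ} {t : ℝ}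
    (h : ∀ i, HasDerivAt (fun t => f t i) (f' i) t) :
    HasDerivAt (fun t => lin x (f t)) (lin x f') t := by
  unfold lin
  exact HasDerivAt.fun_sum fun i _ => (h i).const_mul _

/-- the difference of two approximate solutions minus the linear part -/
noncomputable def rr (x : Fin 3 → ℝ) (a₁ b₁ u₁ v₁ a₂ b₂ u₂ v₂ : ℝ → ℂ)
    (fa fb fu fv : ℝ → Fin 3 → ℂ) (t : ℝ) : ℂ × ℂ × ℂ × ℂ :=
  (a₁ t - a₂ t - lin x (fa t), b₁ t - b₂ t - lin x (fb t),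
    u₁ t - u₂ t - lin x (fu t), v₁ t - v₂ t - lin x (fv t))

lemma norm4_le {p q r s : ℂ} {d : ℝ} (hp : ‖p‖ ≤ d) (hq : ‖q‖ ≤ d) (hr : ‖r‖ ≤ d) (hs : ‖s‖ ≤ d) :
    ‖((p, q, r, s) : ℂ × ℂ × ℂ × ℂ)‖ ≤ d :=
  max_le hp (max_le hq (max_le hr hs))

lemma norm4_lt {p q r s : ℂ} {d : ℝ} (hp : ‖p‖ < d) (hq : ‖q‖ < d) (hr : ‖r‖ < d) (hs : ‖s‖ < d) :
    ‖((p, q, r, s) : ℂ × ℂ × ℂ × ℂ)‖ < d :=
  max_lt hp (max_lt hq (max_lt hr hs))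

lemma norm4_1 (y : ℂ × ℂ × ℂ × ℂ) : ‖y.1‖ ≤ ‖y‖ := norm_fst_le y
lemma norm4_2 (y : ℂ × ℂ × ℂ × ℂ) : ‖y.2.1‖ ≤ ‖y‖ := (norm_fst_le y.2).trans (norm_snd_le y)
lemma norm4_3 (y : ℂ × ℂ × ℂ × ℂ) : ‖y.2.2.1‖ ≤ ‖y‖ :=
  (norm_fst_le y.2.2).trans ((norm_snd_le y.2).trans (norm_snd_le y))
lemma norm4_4 (y : ℂ × ℂ × ℂ × ℂ) : ‖y.2.2.2‖ ≤ ‖y‖ :=
  (norm_snd_le y.2.2).trans ((norm_snd_le y.2).trans (norm_snd_le y))

theorem tube {t0 t1 Λ l : ℝ} {a b u v : ℝ → ℂ} {fa fb fu fv : ℝ → Fin 3 → ℂ}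
    (h : Ref t0 t1 Λ a b u v fa fb fu fv) (hl : Λ + 1 / 8 ≤ l) (hl1 : 1 < l)
    {β ε R : ℝ} (x : Fin 3 → ℝ) (hβ : 0 < β) (hR : 0 < R) (hR' : R ≤ 1 / 10000)
    (hnum : (310 * R * 14 + 1 / 2 ^ 30) * ‖x‖ + ε < (1 / 8 - 310 * R) * β)
    {a₁ b₁ u₁ v₁ a₂ b₂ u₂ v₂ ea eb : ℝ → ℂ}
    (da₁ : ∀ t ∈ Icc t0 t1, HasDerivWithinAt a₁ (u₁ t) (Icc t0 t1) t)
    (db₁ : ∀ t ∈ Icc t0 t1, HasDerivWithinAt b₁ (v₁ t) (Icc t0 t1) t)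
    (du₁ : ∀ t ∈ Icc t0 t1, HasDerivWithinAt u₁ (FA gt (a₁ t) (b₁ t)) (Icc t0 t1) t)
    (dv₁ : ∀ t ∈ Icc t0 t1, HasDerivWithinAt v₁ (FB gt (a₁ t) (b₁ t)) (Icc t0 t1) t)
    (da₂ : ∀ t ∈ Icc t0 t1, HasDerivWithinAt a₂ (u₂ t) (Icc t0 t1) t)
    (db₂ : ∀ t ∈ Icc t0 t1, HasDerivWithinAt b₂ (v₂ t) (Icc t0 t1) t)
    (du₂ : ∀ t ∈ Icc t0 t1, HasDerivWithinAt u₂ (FA gt (a₂ t) (b₂ t) + ea t) (Icc t0 t1) t)
    (dv₂ : ∀ t ∈ Icc t0 t1, HasDerivWithinAt v₂ (FB gt (a₂ t) (b₂ t) + eb t) (Icc t0 t1) t)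
    (hea : ∀ t ∈ Icc t0 t1, ‖ea t‖ ≤ ε) (heb : ∀ t ∈ Icc t0 t1, ‖eb t‖ ≤ ε)
    (h0 : ‖rr x a₁ b₁ u₁ v₁ a₂ b₂ u₂ v₂ fa fb fu fv t0‖ ≤ β)
    (hcon : ∀ t ∈ Icc t0 t1, ‖rr x a₁ b₁ u₁ v₁ a₂ b₂ u₂ v₂ fa fb fu fv t‖ ≤
        β * Real.exp (l * (t - t0)) →
      ‖a₁ t - a t‖ ≤ R ∧ ‖b₁ t - b t‖ ≤ R ∧ ‖a₂ t - a t‖ ≤ R ∧ ‖b₂ t - b t‖ ≤ R) :
    ∀ t ∈ Icc t0 t1, ‖rr x a₁ b₁ u₁ v₁ a₂ b₂ u₂ v₂ fa fb fu fv t‖ ≤
      β * Real.exp (l * (t - t0)) := by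
  have hwa : ∀ t : ℝ, t ∈ Icc t0 t1 → ∃ w : Fin 3 → ℂ,
      (∀ i, HasDerivAt (fun t => fu t i) (w i) t) ∧
      ∀ x : Fin 3 → ℝ, ‖DA (a t) (b t) (lin x (fa t)) (lin x (fb t)) - lin x w‖ ≤
        1 / 2 ^ 30 * ‖x‖ := h.dfu
  have hwb : ∀ t : ℝ, t ∈ Icc t0 t1 → ∃ w : Fin 3 → ℂ,
      (∀ i, HasDerivAt (fun t => fv t i) (w i) t) ∧
      ∀ x : Fin 3 → ℝ, ‖DB (a t) (b t) (lin x (fa t)) (lin x (fb t)) - lin x w‖ ≤
        1 / 2 ^ 30 * ‖x‖ := h.dfv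
  choose! wa hwa1 hwa2 using hwa
  choose! wb hwb1 hwb2 using hwb
  set r := rr x a₁ b₁ u₁ v₁ a₂ b₂ u₂ v₂ fa fb fu fv with hr
  set r' : ℝ → ℂ × ℂ × ℂ × ℂ := fun t =>
    (u₁ t - u₂ t - lin x (fu t), v₁ t - v₂ t - lin x (fv t),
      FA gt (a₁ t) (b₁ t) - (FA gt (a₂ t) (b₂ t) + ea t) - lin x (wa t),
      FB gt (a₁ t) (b₁ t) - (FB gt (a₂ t) (b₂ t) + eb t) - lin x (wb t)) with hr'
  have hderiv : ∀ t ∈ Icc t0 t1, HasDerivWithinAt r (r' t) (Icc t0 t1) t := by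
    intro t ht
    have k1 := ((da₁ t ht).sub (da₂ t ht)).sub
      (hasDerivAt_lin x (fun i => h.dfa i t)).hasDerivWithinAt
    have k2 := ((db₁ t ht).sub (db₂ t ht)).sub
      (hasDerivAt_lin x (fun i => h.dfb i t)).hasDerivWithinAt
    have k3 := ((du₁ t ht).sub (du₂ t ht)).sub
      (hasDerivAt_lin x (fun i => hwa1 t ht i)).hasDerivWithinAt
    have k4 := ((dv₁ t ht).sub (dv₂ t ht)).sub
      (hasDerivAt_lin x (fun i => hwb1 t ht i)).hasDerivWithinAt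
    exact k1.prodMk (k2.prodMk (k3.prodMk k4))
  have hB : ∀ t, HasDerivAt (fun t => β * Real.exp (l * (t - t0)))
      (l * (β * Real.exp (l * (t - t0)))) t := by
    intro t
    have k1 : HasDerivAt (fun t => l * (t - t0)) (l * 1) t :=
      ((hasDerivAt_id t).sub_const t0).const_mul l
    have k2 := (k1.exp).const_mul β
    refine k2.congr_deriv ?_
    ring
  apply image_norm_le_of_norm_deriv_right_lt_deriv_boundary (f' := r')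
    (B := fun t => β * Real.exp (l * (t - t0)))
    (B' := fun t => l * (β * Real.exp (l * (t - t0))))
  · exact fun t ht => (hderiv t ht).continuousWithinAt
  · intro t ht
    exact (hderiv t (Ico_subset_Icc_self ht)).mono_of_mem_nhdsWithin (Icc_mem_nhdsGE_of_mem ht)
  · simpa using h0
  · exact hB
  · intro t ht' heq
    have ht : t ∈ Icc t0 t1 := Ico_subset_Icc_self ht'
    set Bt := β * Real.exp (l * (t - t0)) with hBt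
    have hBβ : β ≤ Bt := by
      have h1 : 1 ≤ Real.exp (l * (t - t0)) := by
        apply Real.one_le_exp
        have := ht.1
        apply mul_nonneg <;> linarith
      nlinarith
    have hBpos : 0 < Bt := lt_of_lt_of_le hβ hBβ
    obtain ⟨c1, c2, c3, c4⟩ := hcon t ht heq.le
    have hx0 : 0 ≤ ‖x‖ := norm_nonneg _
    have r1 : ‖a₁ t - a₂ t - lin x (fa t)‖ ≤ Bt := by
      rw [← heq]; exact norm4_1 (r t)
    have r2 : ‖b₁ t - b₂ t - lin x (fb t)‖ ≤ Bt := by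
      rw [← heq]; exact norm4_2 (r t)
    have r3 : ‖u₁ t - u₂ t - lin x (fu t)‖ ≤ Bt := by
      rw [← heq]; exact norm4_3 (r t)
    have r4 : ‖v₁ t - v₂ t - lin x (fv t)‖ ≤ Bt := by
      rw [← heq]; exact norm4_4 (r t)
    obtain ⟨m1, m2⟩ := h.hM t ht x
    have d1 : ‖a₁ t - a₂ t‖ ≤ Bt + 14 * ‖x‖ := by
      have := norm_add_le (a₁ t - a₂ t - lin x (fa t)) (lin x (fa t))
      rw [sub_add_cancel] at this
      linarith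
    have d2 : ‖b₁ t - b₂ t‖ ≤ Bt + 14 * ‖x‖ := by
      have := norm_add_le (b₁ t - b₂ t - lin x (fb t)) (lin x (fb t))
      rw [sub_add_cancel] at this
      linarith
    obtain ⟨q1, q2⟩ := F_quad hR (by linarith) (h.ha t ht) (h.hb t ht) (h.hc t ht) c1 c2 c3 c4 d1 d2
    obtain ⟨L1, L2⟩ := h.hΛ t ht (a₁ t - a₂ t - lin x (fa t)) (b₁ t - b₂ t - lin x (fb t)) Bt r1 r2
    have w1 := hwa2 t ht x
    have w2 := hwb2 t ht x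
    have e1 := hea t ht
    have e2 := heb t ht
    have hlam : Λ * Bt + 1 / 8 * Bt ≤ l * Bt := by nlinarith
    have hmain : (310 * R * 14 + 1 / 2 ^ 30) * ‖x‖ + ε < (1 / 8 - 310 * R) * Bt := by
      refine lt_of_lt_of_le hnum ?_
      apply mul_le_mul_of_nonneg_left hBβ
      linarith
    apply norm4_lt
    · calc _ ≤ Bt := r3
        _ < l * Bt := by nlinarith
    · calc _ ≤ Bt := r4
        _ < l * Bt := by nlinarith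
    · have e : FA gt (a₁ t) (b₁ t) - (FA gt (a₂ t) (b₂ t) + ea t) - lin x (wa t) =
          (FA gt (a₁ t) (b₁ t) - FA gt (a₂ t) (b₂ t) -
            DA (a t) (b t) (a₁ t - a₂ t) (b₁ t - b₂ t)) +
          DA (a t) (b t) (a₁ t - a₂ t - lin x (fa t)) (b₁ t - b₂ t - lin x (fb t)) +
          (DA (a t) (b t) (lin x (fa t)) (lin x (fb t)) - lin x (wa t)) - ea t := by
        rw [DA_sub (a t) (b t) (a₁ t - a₂ t) (b₁ t - b₂ t) (lin x (fa t)) (lin x (fb t))]; ring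
      rw [e]
      have n1 := norm_sub_le ((FA gt (a₁ t) (b₁ t) - FA gt (a₂ t) (b₂ t) -
            DA (a t) (b t) (a₁ t - a₂ t) (b₁ t - b₂ t)) +
          DA (a t) (b t) (a₁ t - a₂ t - lin x (fa t)) (b₁ t - b₂ t - lin x (fb t)) +
          (DA (a t) (b t) (lin x (fa t)) (lin x (fb t)) - lin x (wa t))) (ea t)
      have n2 := norm_add₃_le (a := (FA gt (a₁ t) (b₁ t) - FA gt (a₂ t) (b₂ t) -
            DA (a t) (b t) (a₁ t - a₂ t) (b₁ t - b₂ t)))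
          (b := DA (a t) (b t) (a₁ t - a₂ t - lin x (fa t)) (b₁ t - b₂ t - lin x (fb t)))
          (c := (DA (a t) (b t) (lin x (fa t)) (lin x (fb t)) - lin x (wa t)))
      linarith
    · have e : FB gt (a₁ t) (b₁ t) - (FB gt (a₂ t) (b₂ t) + eb t) - lin x (wb t) =
          (FB gt (a₁ t) (b₁ t) - FB gt (a₂ t) (b₂ t) -
            DB (a t) (b t) (a₁ t - a₂ t) (b₁ t - b₂ t)) +
          DB (a t) (b t) (a₁ t - a₂ t - lin x (fa t)) (b₁ t - b₂ t - lin x (fb t)) +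
          (DB (a t) (b t) (lin x (fa t)) (lin x (fb t)) - lin x (wb t)) - eb t := by
        rw [DB_sub (a t) (b t) (a₁ t - a₂ t) (b₁ t - b₂ t) (lin x (fa t)) (lin x (fb t))]; ring
      rw [e]
      have n1 := norm_sub_le ((FB gt (a₁ t) (b₁ t) - FB gt (a₂ t) (b₂ t) -
            DB (a t) (b t) (a₁ t - a₂ t) (b₁ t - b₂ t)) +
          DB (a t) (b t) (a₁ t - a₂ t - lin x (fa t)) (b₁ t - b₂ t - lin x (fb t)) +
          (DB (a t) (b t) (lin x (fa t)) (lin x (fb t)) - lin x (wb t))) (eb t)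
      have n2 := norm_add₃_le (a := (FB gt (a₁ t) (b₁ t) - FB gt (a₂ t) (b₂ t) -
            DB (a t) (b t) (a₁ t - a₂ t) (b₁ t - b₂ t)))
          (b := DB (a t) (b t) (a₁ t - a₂ t - lin x (fa t)) (b₁ t - b₂ t - lin x (fb t)))
          (c := (DB (a t) (b t) (lin x (fa t)) (lin x (fb t)) - lin x (wb t)))
      linarith

end Pool.Agent.H70TB
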