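import Pool.Agent.helper70.TB.Sound1
import Pool.Agent.helper70.TB.Tube

/-!
# Soundness of the checks, part 2: algebra
-/

set_option autoImplicit false

open Complex ComplexConjugate Set

namespace Pool.Agent.H70TB

/-- complex valued polynomial with unit `1/σ` -/
noncomputable def cz (σ : ℝ) (p q : List ℤ) (s : ℝ) : ℂ :=
  ((ev s p / σ : ℝ) : ℂ) + ((ev s q / σ : ℝ) : ℂ) * I

@[simp] lemma cz_re (σ : ℝ) (p q : List ℤ) (s : ℝ) : (cz σ p q s).re = ev s p / σ := by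
  simp [cz]

@[simp] lemma cz_im (σ : ℝ) (p q : List ℤ) (s : ℝ) : (cz σ p q s).im = ev s q / σ := by
  simp [cz]

lemma hasDerivAt_cz (σ : ℝ) (p q : List ℤ) (s : ℝ) :
    HasDerivAt (cz σ p q) (cz σ (d1 p) (d1 q) s) s := by
  have h1 := ((hasDerivAt_ev p s).div_const σ).ofReal_comp
  have h2 := (((hasDerivAt_ev q s).div_const σ).ofReal_comp).mul_const I
  exact h1.add h2

/-- `(U |z|)² ≈ 1` implies `U³ z ≈ g z` -/
lemma y_near {U r : ℝ} (hU : 0 < U) (hr : 0 ≤ r) (h : |U ^ 2 * r ^ 2 - 1| ≤ 1 / 2 ^ 80) :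
    |U * r - 1| ≤ 1 / 2 ^ 80 := by
  have hy : 0 ≤ U * r := by positivity
  have e : U ^ 2 * r ^ 2 - 1 = (U * r - 1) * (U * r + 1) := by ring
  rw [e, abs_mul, abs_of_pos (by linarith : 0 < U * r + 1)] at h
  nlinarith [abs_nonneg (U * r - 1)]

lemma y_pow3 {y : ℝ} (h : |y - 1| ≤ 1 / 2 ^ 80) : |y ^ 3 - 1| ≤ 4 / 2 ^ 80 := by
  have h' := abs_le.1 h
  have e : y ^ 3 - 1 = (y - 1) * (y ^ 2 + y + 1) := by ring
  have h1 : |y ^ 2 + y + 1| ≤ 4 := by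
    have : (1 : ℝ) / 2 ^ 80 ≤ 1 / 100 := by norm_num
    rw [abs_le]; constructor <;> nlinarith
  rw [e, abs_mul]
  calc |y - 1| * |y ^ 2 + y + 1| ≤ (1 / 2 ^ 80) * 4 := by gcongr
    _ = _ := by ring

lemma y_pow5 {y : ℝ} (h : |y - 1| ≤ 1 / 2 ^ 80) : |y ^ 5 - 1| ≤ 6 / 2 ^ 80 := by
  have h' := abs_le.1 h
  have e : y ^ 5 - 1 = (y - 1) * (y ^ 4 + y ^ 3 + y ^ 2 + y + 1) := by ring
  have hy0 : 0 ≤ y := by
    have : (1 : ℝ) / 2 ^ 80 ≤ 1 / 100 := by norm_num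
    linarith
  have hy1 : y ≤ 101 / 100 := by
    have : (1 : ℝ) / 2 ^ 80 ≤ 1 / 100 := by norm_num
    linarith
  have h1 : |y ^ 4 + y ^ 3 + y ^ 2 + y + 1| ≤ 6 := by
    rw [abs_of_nonneg (by positivity)]
    have h2 : y ^ 2 ≤ (101 / 100) ^ 2 := by gcongr
    have h3 : y ^ 3 ≤ (101 / 100) ^ 3 := by gcongr
    have h4 : y ^ 4 ≤ (101 / 100) ^ 4 := by gcongr
    norm_num at h2 h3 h4 ⊢
    linarith
  rw [e, abs_mul]
  calc |y - 1| * |y ^ 4 + y ^ 3 + y ^ 2 + y + 1| ≤ (1 / 2 ^ 80) * 6 := by gcongr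
    _ = _ := by ring

lemma key_g {U : ℝ} {z : ℂ} (hU : 0 < U) (h : |U ^ 2 * ‖z‖ ^ 2 - 1| ≤ 1 / 2 ^ 80)
    (hz : 9 / 20 ≤ ‖z‖) : ‖((U ^ 3 : ℝ) : ℂ) * z - g z‖ ≤ 1 / 2 ^ 75 := by
  have hn : 0 < ‖z‖ := by linarith
  have h1 := y_pow3 (y_near hU hn.le h)
  have e : ((U ^ 3 : ℝ) : ℂ) * z - g z = (((U * ‖z‖) ^ 3 - 1 : ℝ) : ℂ) * (z / (‖z‖ : ℂ) ^ 3) := by
    rw [g]
    have : (‖z‖ : ℂ) ≠ 0 := by exact_mod_cast hn.ne'
    push_cast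
    field_simp
  rw [e, norm_mul, Complex.norm_real, Real.norm_eq_abs, norm_div, norm_pow, Complex.norm_real,
    norm_norm]
  have h2 : ‖z‖ / ‖z‖ ^ 3 ≤ 5 := by
    rw [div_le_iff₀ (by positivity)]
    nlinarith [mul_le_mul hz hz (by norm_num) hn.le]
  calc |(U * ‖z‖) ^ 3 - 1| * (‖z‖ / ‖z‖ ^ 3) ≤ (4 / 2 ^ 80) * 5 := by gcongr
    _ ≤ _ := by norm_num

/-- the approximate derivative -/
noncomputable def Da (U : ℝ) (z φ : ℂ) : ℂ :=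
  ((U ^ 3 : ℝ) : ℂ) * φ - 3 * ((U ^ 5 : ℝ) : ℂ) * ((z.re * φ.re + z.im * φ.im : ℝ) : ℂ) * z

lemma key_D {U : ℝ} {z : ℂ} (hU : 0 < U) (h : |U ^ 2 * ‖z‖ ^ 2 - 1| ≤ 1 / 2 ^ 80)
    (hz : 9 / 20 ≤ ‖z‖) (φ : ℂ) : ‖Da U z φ - DgL z φ‖ ≤ 1 / 2 ^ 70 * ‖φ‖ := by
  have hn : 0 < ‖z‖ := by linarith
  have hy := y_near hU hn.le h
  have h3 := y_pow3 hy
  have h5 := y_pow5 hy
  rw [Da, DgL_apply]
  have e : ((U ^ 3 : ℝ) : ℂ) * φ - 3 * ((U ^ 5 : ℝ) : ℂ) *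
      ((z.re * φ.re + z.im * φ.im : ℝ) : ℂ) * z -
      (((‖z‖⁻¹ ^ 3 : ℝ) : ℂ) * φ - 3 * ((‖z‖⁻¹ ^ 5 : ℝ) : ℂ) *
        ((z.re * φ.re + z.im * φ.im : ℝ) : ℂ) * z) =
      (((((U * ‖z‖) ^ 3 - 1) * ‖z‖⁻¹ ^ 3 : ℝ)) : ℂ) * φ -
      ((3 * (((U * ‖z‖) ^ 5 - 1) * ‖z‖⁻¹ ^ 5) : ℝ) : ℂ) *
        (((z.re * φ.re + z.im * φ.im : ℝ) : ℂ) * z) := by
    have : (‖z‖ : ℂ) ≠ 0 := by exact_mod_cast hn.ne'
    push_cast
    field_simp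
    ring
  rw [e]
  have hni : ‖z‖⁻¹ ≤ 20 / 9 := by
    rw [inv_le_comm₀ hn (by norm_num)]; linarith
  have hni0 : 0 < ‖z‖⁻¹ := by positivity
  have hdot : |z.re * φ.re + z.im * φ.im| ≤ ‖z‖ * ‖φ‖ := by
    have h1 : z.re * φ.re + z.im * φ.im = (z * conj φ).re := by
      simp [mul_re]
    rw [h1]
    refine (Complex.abs_re_le_norm _).trans ?_
    rw [norm_mul, RCLike.norm_conj]
  refine (norm_sub_le _ _).trans ?_
  rw [norm_mul, norm_mul, norm_mul, Complex.norm_real, Complex.norm_real, Complex.norm_real,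
    Real.norm_eq_abs, Real.norm_eq_abs, Real.norm_eq_abs, abs_mul, abs_mul, abs_mul,
    abs_of_pos (by positivity : 0 < ‖z‖⁻¹ ^ 3), abs_of_pos (by positivity : 0 < ‖z‖⁻¹ ^ 5),
    abs_of_pos (by norm_num : (0 : ℝ) < 3)]
  have k1 : |(U * ‖z‖) ^ 3 - 1| * ‖z‖⁻¹ ^ 3 ≤ (4 / 2 ^ 80) * (20 / 9) ^ 3 := by gcongr
  have k2 : 3 * (|(U * ‖z‖) ^ 5 - 1| * ‖z‖⁻¹ ^ 5) * (|z.re * φ.re + z.im * φ.im| * ‖z‖) ≤
      3 * ((6 / 2 ^ 80) * (20 / 9) ^ 3) * ‖φ‖ := by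
    calc 3 * (|(U * ‖z‖) ^ 5 - 1| * ‖z‖⁻¹ ^ 5) * (|z.re * φ.re + z.im * φ.im| * ‖z‖)
        ≤ 3 * (|(U * ‖z‖) ^ 5 - 1| * ‖z‖⁻¹ ^ 5) * ((‖z‖ * ‖φ‖) * ‖z‖) := by gcongr
      _ = 3 * (|(U * ‖z‖) ^ 5 - 1| * ‖z‖⁻¹ ^ 3) * ‖φ‖ := by field_simp
      _ ≤ 3 * ((6 / 2 ^ 80) * (20 / 9) ^ 3) * ‖φ‖ := by gcongr
  have k3 : |(U * ‖z‖) ^ 3 - 1| * ‖z‖⁻¹ ^ 3 * ‖φ‖ ≤ (4 / 2 ^ 80) * (20 / 9) ^ 3 * ‖φ‖ := by gcongr
  have hφ := norm_nonneg φ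
  have k4 : (4 / 2 ^ 80 : ℝ) * (20 / 9) ^ 3 + 3 * ((6 / 2 ^ 80) * (20 / 9) ^ 3) ≤ 1 / 2 ^ 70 := by
    norm_num
  have k5 := mul_le_mul_of_nonneg_right k4 hφ
  linarith

lemma norm_le_re_im {z : ℂ} {p q : ℝ} (h1 : |z.re| ≤ p) (h2 : |z.im| ≤ q) : ‖z‖ ≤ p + q :=
  (Complex.norm_le_abs_re_add_abs_im z).trans (add_le_add h1 h2)

lemma norm_lin_le (x : Fin 3 → ℝ) (f : Fin 3 → ℂ) {c0 c1 c2 : ℝ} (h0 : ‖f 0‖ ≤ c0)
    (h1 : ‖f 1‖ ≤ c1) (h2 : ‖f 2‖ ≤ c2) : ‖lin x f‖ ≤ (c0 + c1 + c2) * ‖x‖ := by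
  have e : lin x f = (x 0 : ℂ) * f 0 + (x 1 : ℂ) * f 1 + (x 2 : ℂ) * f 2 := by
    rw [lin, Fin.sum_univ_three]
  rw [e]
  have n : ∀ i, |x i| ≤ ‖x‖ := fun i => by
    have := norm_le_pi_norm x i
    rwa [Real.norm_eq_abs] at this
  have hx := norm_nonneg x
  have a0 : ‖(x 0 : ℂ) * f 0‖ ≤ ‖x‖ * c0 := by
    rw [norm_mul, Complex.norm_real, Real.norm_eq_abs]
    exact mul_le_mul (n 0) h0 (norm_nonneg _) hx
  have a1 : ‖(x 1 : ℂ) * f 1‖ ≤ ‖x‖ * c1 := by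
    rw [norm_mul, Complex.norm_real, Real.norm_eq_abs]
    exact mul_le_mul (n 1) h1 (norm_nonneg _) hx
  have a2 : ‖(x 2 : ℂ) * f 2‖ ≤ ‖x‖ * c2 := by
    rw [norm_mul, Complex.norm_real, Real.norm_eq_abs]
    exact mul_le_mul (n 2) h2 (norm_nonneg _) hx
  have := norm_add₃_le (a := (x 0 : ℂ) * f 0) (b := (x 1 : ℂ) * f 1) (c := (x 2 : ℂ) * f 2)
  linarith

/-- linearity of `DA` in the columns -/
lemma DA_lin (a b : ℂ) (x : Fin 3 → ℝ) (f f' : Fin 3 → ℂ) :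
    DA a b (lin x f) (lin x f') = lin x (fun i => DA a b (f i) (f' i)) := by
  have hL : ∀ z : ℂ, ∀ k : Fin 3 → ℂ, DgL z (lin x k) = lin x (fun i => DgL z (k i)) := by
    intro z k
    rw [lin, lin, map_sum]
    refine Finset.sum_congr rfl fun i _ => ?_
    rw [← Complex.real_smul, map_smul, Complex.real_smul]
  have hs : lin x f' - lin x f = lin x (fun i => f' i - f i) := by
    simp only [lin, ← Finset.sum_sub_distrib, mul_sub]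
  rw [DA, hs, hL, hL, hL]
  simp only [DA, lin, mul_add, mul_sub, Finset.sum_add_distrib, Finset.sum_sub_distrib,
    Finset.mul_sum]
  congr 1
  · refine Finset.sum_congr rfl fun i _ => by ring
  · congr 1 <;> refine Finset.sum_congr rfl fun i _ => by ring

lemma DB_lin (a b : ℂ) (x : Fin 3 → ℝ) (f f' : Fin 3 → ℂ) :
    DB a b (lin x f) (lin x f') = lin x (fun i => DB a b (f i) (f' i)) := by
  have hL : ∀ z : ℂ, ∀ k : Fin 3 → ℂ, DgL z (lin x k) = lin x (fun i => DgL z (k i)) := by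
    intro z k
    rw [lin, lin, map_sum]
    refine Finset.sum_congr rfl fun i _ => ?_
    rw [← Complex.real_smul, map_smul, Complex.real_smul]
  have hs : lin x f' - lin x f = lin x (fun i => f' i - f i) := by
    simp only [lin, ← Finset.sum_sub_distrib, mul_sub]
  rw [DB, hs, hL, hL, hL]
  simp only [DB, lin, mul_add, mul_sub, Finset.sum_add_distrib, Finset.sum_sub_distrib,
    Finset.mul_sum]
  congr 1
  · refine Finset.sum_congr rfl fun i _ => by ring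
  · congr 1 <;> refine Finset.sum_congr rfl fun i _ => by ring

lemma lin_sub' (x : Fin 3 → ℝ) (f f' : Fin 3 → ℂ) :
    lin x f - lin x f' = lin x (fun i => f i - f' i) := by
  simp only [lin, ← Finset.sum_sub_distrib, mul_sub]

/-! ### raw inequalities -/

lemma raw1 {S X x y ε : ℝ} (hS : 0 < S)
    (h : |X * X * (x * x + y * y) + (-(S ^ 4))| ≤ ε) :
    |(X / S) ^ 2 * ((x / S) ^ 2 + (y / S) ^ 2) - 1| ≤ ε / S ^ 4 := by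
  have e : (X / S) ^ 2 * ((x / S) ^ 2 + (y / S) ^ 2) - 1 =
      (X * X * (x * x + y * y) + (-(S ^ 4))) / S ^ 4 := by
    field_simp
    ring
  rw [e, abs_div, abs_of_pos (by positivity : 0 < S ^ 4)]
  gcongr

lemma raw3a {S A B C x y w X ε : ℝ} (hS : 0 < S)
    (h : |3200 * S ^ 3 * X + (8 * (A * (A * A) * x) + (-5 * (C * (C * C) * w) +
      5 * (B * (B * B) * y)))| ≤ ε) :
    |64 * (X / S) - (-(4 / 25) * ((A / S) ^ 3 * (x / S)) +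
      (1 / 10) * ((C / S) ^ 3 * (w / S) - (B / S) ^ 3 * (y / S)))| ≤ ε / (50 * S ^ 4) := by
  have e : 64 * (X / S) - (-(4 / 25) * ((A / S) ^ 3 * (x / S)) +
      (1 / 10) * ((C / S) ^ 3 * (w / S) - (B / S) ^ 3 * (y / S))) =
      (3200 * S ^ 3 * X + (8 * (A * (A * A) * x) + (-5 * (C * (C * C) * w) +
      5 * (B * (B * B) * y)))) / (50 * S ^ 4) := by
    field_simp
    ring
  rw [e, abs_div, abs_of_pos (by positivity : 0 < 50 * S ^ 4)]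
  gcongr

lemma raw3b {S A B C x y w X ε : ℝ} (hS : 0 < S)
    (h : |3200 * S ^ 3 * X + (8 * (B * (B * B) * y) + (5 * (C * (C * C) * w) +
      5 * (A * (A * A) * x)))| ≤ ε) :
    |64 * (X / S) - (-(4 / 25) * ((B / S) ^ 3 * (y / S)) -
      (1 / 10) * ((C / S) ^ 3 * (w / S) + (A / S) ^ 3 * (x / S)))| ≤ ε / (50 * S ^ 4) := by
  have e : 64 * (X / S) - (-(4 / 25) * ((B / S) ^ 3 * (y / S)) -
      (1 / 10) * ((C / S) ^ 3 * (w / S) + (A / S) ^ 3 * (x / S))) =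
      (3200 * S ^ 3 * X + (8 * (B * (B * B) * y) + (5 * (C * (C * C) * w) +
      5 * (A * (A * A) * x)))) / (50 * S ^ 4) := by
    field_simp
    ring
  rw [e, abs_div, abs_of_pos (by positivity : 0 < 50 * S ^ 4)]
  gcongr

/-- `U³ φ_w − 3 U⁵ (z·φ) z_w` -/
noncomputable def Tc (U zx zy fx fy zw fw : ℝ) : ℝ :=
  U ^ 3 * fw - 3 * U ^ 5 * (zx * fx + zy * fy) * zw

lemma PP_raw {S P u zx zy fx fy zw fw : ℝ} (hS : 0 < S) (hP : 0 < P) :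
    u * (u * u) * (S ^ 4 * fw + (-3) * (u * u * (zx * fx + zy * fy) * zw)) =
      S ^ 7 * P * Tc (u / S) (zx / S) (zy / S) (fx / P) (fy / P) (zw / S) (fw / P) := by
  rw [Tc]
  field_simp
  ring

lemma raw4a {S P X ra rb rc TA TB TC ε : ℝ} (hS : 0 < S) (hP : 0 < P)
    (ha : ra = S ^ 7 * P * TA) (hb : rb = S ^ 7 * P * TB) (hc : rc = S ^ 7 * P * TC)
    (h : |3200 * S ^ 7 * X + (8 * ra + (-5 * rc + 5 * rb))| ≤ ε) :
    |64 * (X / P) - (-(4 / 25) * TA + (1 / 10) * (TC - TB))| ≤ ε / (50 * S ^ 7 * P) := by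
  have e : 64 * (X / P) - (-(4 / 25) * TA + (1 / 10) * (TC - TB)) =
      (3200 * S ^ 7 * X + (8 * ra + (-5 * rc + 5 * rb))) / (50 * S ^ 7 * P) := by
    rw [ha, hb, hc]
    field_simp
    ring
  rw [e, abs_div, abs_of_pos (by positivity : 0 < 50 * S ^ 7 * P)]
  gcongr

lemma raw4b {S P X ra rb rc TA TB TC ε : ℝ} (hS : 0 < S) (hP : 0 < P)
    (ha : ra = S ^ 7 * P * TA) (hb : rb = S ^ 7 * P * TB) (hc : rc = S ^ 7 * P * TC)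
    (h : |3200 * S ^ 7 * X + (8 * rb + (5 * rc + 5 * ra))| ≤ ε) :
    |64 * (X / P) - (-(4 / 25) * TB - (1 / 10) * (TC + TA))| ≤ ε / (50 * S ^ 7 * P) := by
  have e : 64 * (X / P) - (-(4 / 25) * TB - (1 / 10) * (TC + TA)) =
      (3200 * S ^ 7 * X + (8 * rb + (5 * rc + 5 * ra))) / (50 * S ^ 7 * P) := by
    rw [ha, hb, hc]
    field_simp
    ring
  rw [e, abs_div, abs_of_pos (by positivity : 0 < 50 * S ^ 7 * P)]
  gcongr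

lemma Da_re (U : ℝ) (z φ : ℂ) : (Da U z φ).re = Tc U z.re z.im φ.re φ.im z.re φ.re := by
  rw [Da, Tc, sub_re, re_ofReal_mul]
  have e : (3 * ((U ^ 5 : ℝ) : ℂ) * ((z.re * φ.re + z.im * φ.im : ℝ) : ℂ) * z) =
    ((3 * U ^ 5 * (z.re * φ.re + z.im * φ.im) : ℝ) : ℂ) * z := by push_cast; ring
  rw [e, re_ofReal_mul]

lemma Da_im (U : ℝ) (z φ : ℂ) : (Da U z φ).im = Tc U z.re z.im φ.re φ.im z.im φ.im := by
  rw [Da, Tc, sub_im, im_ofReal_mul]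
  have e : (3 * ((U ^ 5 : ℝ) : ℂ) * ((z.re * φ.re + z.im * φ.im : ℝ) : ℂ) * z) =
    ((3 * U ^ 5 * (z.re * φ.re + z.im * φ.im) : ℝ) : ℂ) * z := by push_cast; ring
  rw [e, im_ofReal_mul]

end Pool.Agent.H70TB
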