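import Pool.Agent.helper70.TB.Sound2

/-!
# Soundness of the checks, part 3: facts about one piece
-/

set_option autoImplicit false
set_option exponentiation.threshold 1000

open Complex ComplexConjugate Set

namespace Pool.Agent.H70TB

noncomputable def zAf (D : List (List ℤ)) (s : ℝ) : ℂ := cz (2 ^ 90) (nthL D 0) (nthL D 1) s
noncomputable def zBf (D : List (List ℤ)) (s : ℝ) : ℂ := cz (2 ^ 90) (nthL D 2) (nthL D 3) s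
noncomputable def fAf (D : List (List ℤ)) (s : ℝ) (j : Fin 3) : ℂ :=
  cz (2 ^ 50) (nthL D (7 + 4 * (j : ℕ))) (nthL D (8 + 4 * (j : ℕ))) s
noncomputable def fBf (D : List (List ℤ)) (s : ℝ) (j : Fin 3) : ℂ :=
  cz (2 ^ 50) (nthL D (9 + 4 * (j : ℕ))) (nthL D (10 + 4 * (j : ℕ))) s

/-- facts about a piece at the parameter `s` -/
structure PF (D : List (List ℤ)) (Λ s : ℝ) : Prop where
  ha : 9 / 20 ≤ ‖zAf D s‖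
  hb : 9 / 20 ≤ ‖zBf D s‖
  hc : 9 / 20 ≤ ‖zBf D s - zAf D s‖
  du : ‖64 * cz (2 ^ 90) (dd (nthL D 0)) (dd (nthL D 1)) s - FA g (zAf D s) (zBf D s)‖ ≤ 1 / 2 ^ 69
  dv : ‖64 * cz (2 ^ 90) (dd (nthL D 2)) (dd (nthL D 3)) s - FB g (zAf D s) (zBf D s)‖ ≤ 1 / 2 ^ 69
  dfu : ∀ x : Fin 3 → ℝ, ‖DA (zAf D s) (zBf D s) (lin x (fAf D s)) (lin x (fBf D s)) -
    lin x (fun j => 64 * cz (2 ^ 50) (dd (nthL D (7 + 4 * (j : ℕ))))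
      (dd (nthL D (8 + 4 * (j : ℕ)))) s)‖ ≤ 1 / 2 ^ 30 * ‖x‖
  dfv : ∀ x : Fin 3 → ℝ, ‖DB (zAf D s) (zBf D s) (lin x (fAf D s)) (lin x (fBf D s)) -
    lin x (fun j => 64 * cz (2 ^ 50) (dd (nthL D (9 + 4 * (j : ℕ))))
      (dd (nthL D (10 + 4 * (j : ℕ)))) s)‖ ≤ 1 / 2 ^ 30 * ‖x‖
  hΛ : ∀ x y : ℂ, ∀ d : ℝ, ‖x‖ ≤ d → ‖y‖ ≤ d →
    ‖DA (zAf D s) (zBf D s) x y‖ ≤ Λ * d ∧ ‖DB (zAf D s) (zBf D s) x y‖ ≤ Λ * d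
  hM : ∀ x : Fin 3 → ℝ, ‖lin x (fAf D s)‖ ≤ 14 * ‖x‖ ∧ ‖lin x (fBf D s)‖ ≤ 14 * ‖x‖

/-! ### evaluation of the expressions -/

lemma c_360 : (((-(2 ^ 360) : ℤ)) : ℝ) = -(((2 : ℝ) ^ 90) ^ 4) := by norm_num
lemma c_360' : (((2 ^ 360 : ℤ)) : ℝ) = ((2 : ℝ) ^ 90) ^ 4 := by norm_num
lemma c_270 : (((3200 * 2 ^ 270 : ℤ)) : ℝ) = 3200 * ((2 : ℝ) ^ 90) ^ 3 := by norm_num
lemma c_630 : (((3200 * 2 ^ 630 : ℤ)) : ℝ) = 3200 * ((2 : ℝ) ^ 90) ^ 7 := by norm_num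
lemma c_m1 : (((-1 : ℤ)) : ℝ) = -1 := by norm_num
lemma c_m3 : (((-3 : ℤ)) : ℝ) = -3 := by norm_num
lemma c_m5 : (((-5 : ℤ)) : ℝ) = -5 := by norm_num
lemma c_5 : (((5 : ℤ)) : ℝ) = 5 := by norm_num
lemma c_8 : (((8 : ℤ)) : ℝ) = 8 := by norm_num

/-- raw form of `PP` -/
noncomputable def PPr (S u zx zy fx fy zw fw : ℝ) : ℝ :=
  u * (u * u) * (S ^ 4 * fw + (-3) * (u * u * (zx * fx + zy * fy) * zw))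

lemma eval_E1A (ρ : ℕ → ℝ) : Ex.eval ρ (Ex.E1 Ex.uA (Ex.zA 0) (Ex.zA 1)) =
    ρ 4 * ρ 4 * (ρ 0 * ρ 0 + ρ 1 * ρ 1) + (-(((2 : ℝ) ^ 90) ^ 4)) := by
  simp only [Ex.E1, Ex.uA, Ex.zA, Ex.eval, c_360]

lemma eval_E1B (ρ : ℕ → ℝ) : Ex.eval ρ (Ex.E1 Ex.uB (Ex.zB 0) (Ex.zB 1)) =
    ρ 5 * ρ 5 * (ρ 2 * ρ 2 + ρ 3 * ρ 3) + (-(((2 : ℝ) ^ 90) ^ 4)) := by
  simp only [Ex.E1, Ex.uB, Ex.zB, Ex.eval, c_360]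

lemma eval_E1C (ρ : ℕ → ℝ) : Ex.eval ρ (Ex.E1 Ex.uC (Ex.zC 0) (Ex.zC 1)) =
    ρ 6 * ρ 6 * ((ρ 2 - ρ 0) * (ρ 2 - ρ 0) + (ρ 3 - ρ 1) * (ρ 3 - ρ 1)) +
      (-(((2 : ℝ) ^ 90) ^ 4)) := by
  simp only [Ex.E1, Ex.uC, Ex.zC, Ex.zB, Ex.zA, Ex.sub, Ex.neg, Ex.eval, c_360, c_m1, neg_one_mul,
    ← sub_eq_add_neg]

lemma eval_E3a (ρ : ℕ → ℝ) (w : ℕ) : Ex.eval ρ (Ex.E3a w) =
    3200 * ((2 : ℝ) ^ 90) ^ 3 * ρ (19 + w) + (8 * (ρ 4 * (ρ 4 * ρ 4) * ρ w) +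
      (-5 * (ρ 6 * (ρ 6 * ρ 6) * (ρ (2 + w) - ρ w)) + 5 * (ρ 5 * (ρ 5 * ρ 5) * ρ (2 + w)))) := by
  simp only [Ex.E3a, Ex.CU, Ex.uA, Ex.uB, Ex.uC, Ex.zC, Ex.zB, Ex.zA, Ex.sub, Ex.neg, Ex.eval,
    c_270, c_m1, c_m5, c_5, c_8, neg_one_mul (ρ w), ← sub_eq_add_neg]

lemma eval_E3b (ρ : ℕ → ℝ) (w : ℕ) : Ex.eval ρ (Ex.E3b w) =
    3200 * ((2 : ℝ) ^ 90) ^ 3 * ρ (21 + w) + (8 * (ρ 5 * (ρ 5 * ρ 5) * ρ (2 + w)) +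
      (5 * (ρ 6 * (ρ 6 * ρ 6) * (ρ (2 + w) - ρ w)) + 5 * (ρ 4 * (ρ 4 * ρ 4) * ρ w))) := by
  simp only [Ex.E3b, Ex.CU, Ex.uA, Ex.uB, Ex.uC, Ex.zC, Ex.zB, Ex.zA, Ex.sub, Ex.neg, Ex.eval,
    c_270, c_m1, c_5, c_8, neg_one_mul (ρ w), ← sub_eq_add_neg]

lemma eval_PA (ρ : ℕ → ℝ) (j w : ℕ) : Ex.eval ρ (Ex.PA j w) =
    PPr (2 ^ 90) (ρ 4) (ρ 0) (ρ 1) (ρ (7 + 4 * j)) (ρ (8 + 4 * j)) (ρ w) (ρ (7 + 4 * j + w)) := by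
  have e : 7 + 4 * j + 1 = 8 + 4 * j := by ring
  simp only [Ex.PA, Ex.PP, Ex.uA, Ex.zA, Ex.fA, Ex.eval, c_360', c_m3, PPr, add_zero, e]

lemma eval_PB (ρ : ℕ → ℝ) (j w : ℕ) : Ex.eval ρ (Ex.PB j w) =
    PPr (2 ^ 90) (ρ 5) (ρ 2) (ρ 3) (ρ (9 + 4 * j)) (ρ (10 + 4 * j)) (ρ (2 + w))
      (ρ (9 + 4 * j + w)) := by
  have e : 9 + 4 * j + 1 = 10 + 4 * j := by ring
  simp only [Ex.PB, Ex.PP, Ex.uB, Ex.zB, Ex.fB, Ex.eval, c_360', c_m3, PPr, add_zero, e]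

lemma eval_PC (ρ : ℕ → ℝ) (j w : ℕ) : Ex.eval ρ (Ex.PC j w) =
    PPr (2 ^ 90) (ρ 6) (ρ 2 - ρ 0) (ρ 3 - ρ 1) (ρ (9 + 4 * j) - ρ (7 + 4 * j))
      (ρ (10 + 4 * j) - ρ (8 + 4 * j)) (ρ (2 + w) - ρ w)
      (ρ (9 + 4 * j + w) - ρ (7 + 4 * j + w)) := by
  have e : 9 + 4 * j + 1 = 10 + 4 * j := by ring
  have e' : 7 + 4 * j + 1 = 8 + 4 * j := by ring
  simp only [Ex.PC, Ex.PP, Ex.uC, Ex.zC, Ex.zB, Ex.zA, Ex.fC, Ex.fA, Ex.fB, Ex.sub, Ex.neg,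
    Ex.eval, c_360', c_m3, c_m1, PPr, add_zero, e, e']
  ring

lemma eval_E4a (ρ : ℕ → ℝ) (j w : ℕ) : Ex.eval ρ (Ex.E4a j w) =
    3200 * ((2 : ℝ) ^ 90) ^ 7 * ρ (23 + 4 * j + w) + (8 * Ex.eval ρ (Ex.PA j w) +
      (-5 * Ex.eval ρ (Ex.PC j w) + 5 * Ex.eval ρ (Ex.PB j w))) := by
  simp only [Ex.E4a, Ex.eval, c_630, c_m5, c_5, c_8]

lemma eval_E4b (ρ : ℕ → ℝ) (j w : ℕ) : Ex.eval ρ (Ex.E4b j w) =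
    3200 * ((2 : ℝ) ^ 90) ^ 7 * ρ (25 + 4 * j + w) + (8 * Ex.eval ρ (Ex.PB j w) +
      (5 * Ex.eval ρ (Ex.PC j w) + 5 * Ex.eval ρ (Ex.PA j w))) := by
  simp only [Ex.E4b, Ex.eval, c_630, c_5, c_8]

/-! ### elementary bounds -/

lemma ev_ge (s : ℝ) (hs : |s| ≤ 1) (p : List ℤ) :
    2 * ((nthZ p 0 : ℤ) : ℝ) - (nrm p : ℝ) ≤ ev s p := by
  cases p with
  | nil => simp [nthZ, nrm]
  | cons a p =>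
    rw [ev_cons, nthZ, nrm]
    have h1 := abs_ev_le s hs p
    have h2 : |s * ev s p| ≤ nrm p := by
      rw [abs_mul]
      calc |s| * |ev s p| ≤ 1 * (nrm p : ℝ) := mul_le_mul hs h1 (abs_nonneg _) zero_le_one
        _ = _ := one_mul _
    have h3 := (abs_le.1 h2).1
    have h4 : (a : ℝ) ≤ (a.natAbs : ℝ) := by
      rw [Nat.cast_natAbs]; exact_mod_cast le_abs_self a
    push_cast
    linarith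

lemma ev_le (s : ℝ) (hs : |s| ≤ 1) (p : List ℤ) :
    ev s p ≤ 2 * ((nthZ p 0 : ℤ) : ℝ) + (nrm p : ℝ) := by
  cases p with
  | nil => simp [nthZ, nrm]
  | cons a p =>
    rw [ev_cons, nthZ, nrm]
    have h1 := abs_ev_le s hs p
    have h2 : |s * ev s p| ≤ nrm p := by
      rw [abs_mul]
      calc |s| * |ev s p| ≤ 1 * (nrm p : ℝ) := mul_le_mul hs h1 (abs_nonneg _) zero_le_one
        _ = _ := one_mul _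
    have h3 := (abs_le.1 h2).2
    have h4 : -(a : ℝ) ≤ (a.natAbs : ℝ) := by
      rw [Nat.cast_natAbs]; exact_mod_cast neg_le_abs a
    push_cast
    linarith

lemma zle_sound {x y : ℤ} (h : zle x y = true) : x ≤ y := of_decide_eq_true h

lemma okU_sound {u : List ℤ} (h : okU u = true) {s : ℝ} (hs : |s| ≤ 1) :
    0 < ev s u / 2 ^ 90 ∧ ev s u / 2 ^ 90 ≤ (nrm u : ℝ) / 2 ^ 90 ∧ (nrm u : ℝ) / 2 ^ 90 ≤ 11 / 5 := by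
  rw [okU, Bool.and_eq_true] at h
  obtain ⟨h1, h2⟩ := h
  have h1' : ((nrm u : ℤ) : ℝ) + 1 ≤ 2 * ((nthZ u 0 : ℤ) : ℝ) := by exact_mod_cast zle_sound h1
  have h2' : ((nrm u : ℕ) : ℝ) * 5 ≤ 11 * 2 ^ 90 := by exact_mod_cast Nat.le_of_ble_eq_true h2
  have h3 := ev_ge s hs u
  have h4 := (abs_le.1 (abs_ev_le s hs u)).2
  push_cast at h1'
  refine ⟨by apply div_pos _ (by positivity); linarith, by gcongr, ?_⟩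
  rw [div_le_div_iff₀ (by positivity) (by norm_num)]
  linarith

/-- geometry of one side -/
lemma side {U : ℝ} {z : ℂ} {n : ℝ} (hU : 0 < U) (hUn : U ≤ n) (hn : n ≤ 11 / 5)
    (h : |U ^ 2 * ‖z‖ ^ 2 - 1| ≤ 1 / 2 ^ 80) :
    9 / 20 ≤ ‖z‖ ∧ ‖z‖⁻¹ ≤ n * (1 + 1 / 2 ^ 60) := by
  have h1 := (abs_le.1 (y_near hU (norm_nonneg z) h)).1
  have hz : 9 / 20 ≤ ‖z‖ := by
    by_contra hlt
    push Not at hlt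
    have h2 : U * ‖z‖ ≤ 11 / 5 * (9 / 20) := by
      apply mul_le_mul (hUn.trans hn) hlt.le (norm_nonneg _) (by norm_num)
    have : (1 : ℝ) / 2 ^ 80 < 1 / 100 := by norm_num
    linarith
  refine ⟨hz, ?_⟩
  have hzp : 0 < ‖z‖ := by linarith
  rw [inv_le_iff_one_le_mul₀ hzp]
  have h3 : U * ‖z‖ ≤ n * ‖z‖ := by gcongr
  have h4 : (1 : ℝ) ≤ (1 - 1 / 2 ^ 80) * (1 + 1 / 2 ^ 60) := by norm_num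
  have h5 : (1 - 1 / 2 ^ 80) * (1 + 1 / 2 ^ 60) ≤ (n * ‖z‖) * (1 + 1 / 2 ^ 60) := by
    apply mul_le_mul_of_nonneg_right _ (by positivity)
    linarith
  calc (1 : ℝ) ≤ _ := h4
    _ ≤ _ := h5
    _ = _ := by ring

lemma norm_sq_eq (z : ℂ) : ‖z‖ ^ 2 = z.re ^ 2 + z.im ^ 2 := by
  rw [Complex.sq_norm, Complex.normSq_apply]; ring

lemma lam_arith {p q r : ℕ} {j : ℕ} (hj : 65 ≤ j)
    (h : (8 * p ^ 3 + 10 * r ^ 3 + 5 * q ^ 3) * (2 ^ 20 + 1) * 64 ≤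
      25 * 2 ^ 270 * 2 ^ 20 * (j - 8)) :
    8 / 25 * ((p : ℝ) / 2 ^ 90 * (1 + 1 / 2 ^ 60)) ^ 3 +
      2 / 5 * ((r : ℝ) / 2 ^ 90 * (1 + 1 / 2 ^ 60)) ^ 3 +
      1 / 5 * ((q : ℝ) / 2 ^ 90 * (1 + 1 / 2 ^ 60)) ^ 3 ≤ (j : ℝ) / 64 - 1 / 8 := by
  have h' : (8 * (p : ℝ) ^ 3 + 10 * (r : ℝ) ^ 3 + 5 * (q : ℝ) ^ 3) * (2 ^ 20 + 1) * 64 ≤
      25 * 2 ^ 270 * 2 ^ 20 * ((j : ℝ) - 8) := by
    have h1 : (((8 * p ^ 3 + 10 * r ^ 3 + 5 * q ^ 3) * (2 ^ 20 + 1) * 64 : ℕ) : ℝ) ≤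
      ((25 * 2 ^ 270 * 2 ^ 20 * (j - 8) : ℕ) : ℝ) := by exact_mod_cast h
    push_cast [Nat.cast_sub (by omega : 8 ≤ j)] at h1
    norm_num at h1 ⊢
    linarith
  have hX : 0 ≤ 8 * (p : ℝ) ^ 3 + 10 * (r : ℝ) ^ 3 + 5 * (q : ℝ) ^ 3 := by positivity
  have e : 8 / 25 * ((p : ℝ) / 2 ^ 90 * (1 + 1 / 2 ^ 60)) ^ 3 +
      2 / 5 * ((r : ℝ) / 2 ^ 90 * (1 + 1 / 2 ^ 60)) ^ 3 +
      1 / 5 * ((q : ℝ) / 2 ^ 90 * (1 + 1 / 2 ^ 60)) ^ 3 =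
      (8 * (p : ℝ) ^ 3 + 10 * (r : ℝ) ^ 3 + 5 * (q : ℝ) ^ 3) *
        ((1 + 1 / 2 ^ 60) ^ 3 / (25 * 2 ^ 270)) := by
    ring
  have h2 : ((1 + 1 / 2 ^ 60 : ℝ)) ^ 3 / (25 * 2 ^ 270) ≤
      (2 ^ 20 + 1) * 64 / (25 * 2 ^ 270 * 2 ^ 20 * 64) := by norm_num
  rw [e]
  calc _ ≤ (8 * (p : ℝ) ^ 3 + 10 * (r : ℝ) ^ 3 + 5 * (q : ℝ) ^ 3) *
        ((2 ^ 20 + 1) * 64 / (25 * 2 ^ 270 * 2 ^ 20 * 64)) := by gcongr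
    _ = ((8 * (p : ℝ) ^ 3 + 10 * (r : ℝ) ^ 3 + 5 * (q : ℝ) ^ 3) * (2 ^ 20 + 1) * 64) /
        (25 * 2 ^ 270 * 2 ^ 20 * 64) := by ring
    _ ≤ (25 * 2 ^ 270 * 2 ^ 20 * ((j : ℝ) - 8)) / (25 * 2 ^ 270 * 2 ^ 20 * 64) := by gcongr
    _ = _ := by
      rw [mul_div_mul_left _ _ (by positivity)]
      ring

lemma norm_cz_le {σ : ℝ} (hσ : 0 < σ) (p q : List ℤ) {s : ℝ} (hs : |s| ≤ 1) :
    ‖cz σ p q s‖ ≤ ((nrm p : ℝ) + nrm q) / σ := by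
  have h1 := abs_ev_le s hs p
  have h2 := abs_ev_le s hs q
  have := norm_le_re_im (z := cz σ p q s) (p := (nrm p : ℝ) / σ) (q := (nrm q : ℝ) / σ)
    (by rw [cz_re, abs_div, abs_of_pos hσ]; gcongr) (by rw [cz_im, abs_div, abs_of_pos hσ]; gcongr)
  refine this.trans (le_of_eq ?_)
  ring

end Pool.Agent.H70TB
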