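import Pool.Agent.helper70.TB.Sound3

/-!
# Soundness of the checks, part 4: a checked piece satisfies `PF`
-/

set_option autoImplicit false
set_option exponentiation.threshold 1000

open Complex ComplexConjugate Set

namespace Pool.Agent.H70TB

lemma c425 : (4 / 25 : ℂ) = ((4 / 25 : ℝ) : ℂ) := by norm_num
lemma c110 : (1 / 10 : ℂ) = ((1 / 10 : ℝ) : ℂ) := by norm_num
lemma c64 : (64 : ℂ) = ((64 : ℝ) : ℂ) := by norm_num

lemma comb1_re (w x y z : ℂ) : (64 * w - (-(4 / 25) * x + (1 / 10) * (y - z))).re =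
    64 * w.re - (-(4 / 25) * x.re + (1 / 10) * (y.re - z.re)) := by
  rw [c425, c110, c64, ← ofReal_neg, sub_re, add_re, re_ofReal_mul, re_ofReal_mul, re_ofReal_mul,
    sub_re]

lemma comb1_im (w x y z : ℂ) : (64 * w - (-(4 / 25) * x + (1 / 10) * (y - z))).im =
    64 * w.im - (-(4 / 25) * x.im + (1 / 10) * (y.im - z.im)) := by
  rw [c425, c110, c64, ← ofReal_neg, sub_im, add_im, im_ofReal_mul, im_ofReal_mul, im_ofReal_mul,
    sub_im]

lemma comb2_re (w x y z : ℂ) : (64 * w - (-(4 / 25) * x - (1 / 10) * (y + z))).re =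
    64 * w.re - (-(4 / 25) * x.re - (1 / 10) * (y.re + z.re)) := by
  rw [c425, c110, c64, ← ofReal_neg, sub_re, sub_re, re_ofReal_mul, re_ofReal_mul, re_ofReal_mul,
    add_re]

lemma comb2_im (w x y z : ℂ) : (64 * w - (-(4 / 25) * x - (1 / 10) * (y + z))).im =
    64 * w.im - (-(4 / 25) * x.im - (1 / 10) * (y.im + z.im)) := by
  rw [c425, c110, c64, ← ofReal_neg, sub_im, sub_im, im_ofReal_mul, im_ofReal_mul, im_ofReal_mul,
    add_im]

/-- from approximate to exact force -/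
lemma force_near1 {w GA GB GC za zb zc : ℂ} {p q : ℝ}
    (hre : |(64 * w - (-(4 / 25) * GA + (1 / 10) * (GC - GB))).re| ≤ p)
    (him : |(64 * w - (-(4 / 25) * GA + (1 / 10) * (GC - GB))).im| ≤ p)
    (ha : ‖GA - za‖ ≤ q) (hb : ‖GB - zb‖ ≤ q) (hc : ‖GC - zc‖ ≤ q) :
    ‖64 * w - (-(4 / 25) * za + (1 / 10) * (zc - zb))‖ ≤ 2 * p + 36 / 100 * q := by
  have h1 := norm_le_re_im hre him
  have e : 64 * w - (-(4 / 25) * za + (1 / 10) * (zc - zb)) =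
      (64 * w - (-(4 / 25) * GA + (1 / 10) * (GC - GB))) +
      (-(4 / 25) * (GA - za) + (1 / 10) * ((GC - zc) - (GB - zb))) := by ring
  rw [e]
  have h2 := norm_comb1 (GA - za) (GC - zc) (GB - zb)
  have h3 := norm_add_le (64 * w - (-(4 / 25) * GA + (1 / 10) * (GC - GB)))
    (-(4 / 25) * (GA - za) + (1 / 10) * ((GC - zc) - (GB - zb)))
  linarith

lemma force_near2 {w GA GB GC za zb zc : ℂ} {p q : ℝ}
    (hre : |(64 * w - (-(4 / 25) * GB - (1 / 10) * (GC + GA))).re| ≤ p)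
    (him : |(64 * w - (-(4 / 25) * GB - (1 / 10) * (GC + GA))).im| ≤ p)
    (ha : ‖GA - za‖ ≤ q) (hb : ‖GB - zb‖ ≤ q) (hc : ‖GC - zc‖ ≤ q) :
    ‖64 * w - (-(4 / 25) * zb - (1 / 10) * (zc + za))‖ ≤ 2 * p + 36 / 100 * q := by
  have h1 := norm_le_re_im hre him
  have e : 64 * w - (-(4 / 25) * zb - (1 / 10) * (zc + za)) =
      (64 * w - (-(4 / 25) * GB - (1 / 10) * (GC + GA))) +
      (-(4 / 25) * (GB - zb) - (1 / 10) * ((GC - zc) + (GA - za))) := by ring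
  rw [e]
  have h2 := norm_comb2 (GB - zb) (GC - zc) (GA - za)
  have h3 := norm_add_le (64 * w - (-(4 / 25) * GB - (1 / 10) * (GC + GA)))
    (-(4 / 25) * (GB - zb) - (1 / 10) * ((GC - zc) + (GA - za)))
  linarith

/-- components of the approximate derivative in terms of raw data -/
lemma PPr_re {S P u zx zy fx fy : ℝ} (hS : 0 < S) (hP : 0 < P) {z f : ℂ}
    (h1 : z.re = zx / S) (h2 : z.im = zy / S) (h3 : f.re = fx / P) (h4 : f.im = fy / P) :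
    PPr S u zx zy fx fy zx fx = S ^ 7 * P * (Da (u / S) z f).re := by
  rw [PPr, PP_raw hS hP, Da_re, h1, h2, h3, h4]

lemma PPr_im {S P u zx zy fx fy : ℝ} (hS : 0 < S) (hP : 0 < P) {z f : ℂ}
    (h1 : z.re = zx / S) (h2 : z.im = zy / S) (h3 : f.re = fx / P) (h4 : f.im = fy / P) :
    PPr S u zx zy fx fy zy fy = S ^ 7 * P * (Da (u / S) z f).im := by
  rw [PPr, PP_raw hS hP, Da_im, h1, h2, h3, h4]

lemma S90 : (0 : ℝ) < 2 ^ 90 := by positivity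
lemma P50 : (0 : ℝ) < 2 ^ 50 := by positivity

theorem piece_sound {D : List (List ℤ)} {j : ℕ} (h : okPiece D j = true) {s : ℝ} (hs : |s| ≤ 1) :
    PF D ((j : ℝ) / 64 - 1 / 8) s := by
  simp only [okPiece, Bool.and_eq_true] at h
  obtain ⟨⟨hlist, hu4, hu5, hu6⟩, ⟨hlam, hM, -⟩, hpoly⟩ := h
  obtain ⟨p1, p3, p4⟩ := okPoly_sound hlist hpoly hs
  set ρ : ℕ → ℝ := fun i => ev s (nthL (envL D) i) with hρ
  obtain ⟨uA0, uA1, uA2⟩ := okU_sound hu4 hs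
  obtain ⟨uB0, uB1, uB2⟩ := okU_sound hu5 hs
  obtain ⟨uC0, uC1, uC2⟩ := okU_sound hu6 hs
  set UA : ℝ := ev s (nthL D 4) / 2 ^ 90 with hUA
  set UB : ℝ := ev s (nthL D 5) / 2 ^ 90 with hUB
  set UC : ℝ := ev s (nthL D 6) / 2 ^ 90 with hUC
  have r4 : ρ 4 / 2 ^ 90 = UA := rfl
  have r5 : ρ 5 / 2 ^ 90 = UB := rfl
  have r6 : ρ 6 / 2 ^ 90 = UC := rfl
  have zAr : (zAf D s).re = ρ 0 / 2 ^ 90 := cz_re _ _ _ _
  have zAi : (zAf D s).im = ρ 1 / 2 ^ 90 := cz_im _ _ _ _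
  have zBr : (zBf D s).re = ρ 2 / 2 ^ 90 := cz_re _ _ _ _
  have zBi : (zBf D s).im = ρ 3 / 2 ^ 90 := cz_im _ _ _ _
  have zCr : (zBf D s - zAf D s).re = (ρ 2 - ρ 0) / 2 ^ 90 := by
    rw [sub_re, zAr, zBr, sub_div]
  have zCi : (zBf D s - zAf D s).im = (ρ 3 - ρ 1) / 2 ^ 90 := by
    rw [sub_im, zAi, zBi, sub_div]
  -- E1
  have e1A : |UA ^ 2 * ‖zAf D s‖ ^ 2 - 1| ≤ 1 / 2 ^ 80 := by
    have h1 := p1 (Ex.E1 Ex.uA (Ex.zA 0) (Ex.zA 1)) (by simp [Ex.Es1])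
    rw [eval_E1A] at h1
    have h2 := raw1 S90 h1
    rw [norm_sq_eq, zAr, zAi, ← r4]
    refine h2.trans (le_of_eq ?_)
    norm_num
  have e1B : |UB ^ 2 * ‖zBf D s‖ ^ 2 - 1| ≤ 1 / 2 ^ 80 := by
    have h1 := p1 (Ex.E1 Ex.uB (Ex.zB 0) (Ex.zB 1)) (by simp [Ex.Es1])
    rw [eval_E1B] at h1
    have h2 := raw1 S90 h1
    rw [norm_sq_eq, zBr, zBi, ← r5]
    refine h2.trans (le_of_eq ?_)
    norm_num
  have e1C : |UC ^ 2 * ‖zBf D s - zAf D s‖ ^ 2 - 1| ≤ 1 / 2 ^ 80 := by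
    have h1 := p1 (Ex.E1 Ex.uC (Ex.zC 0) (Ex.zC 1)) (by simp [Ex.Es1])
    rw [eval_E1C] at h1
    have h2 := raw1 S90 h1
    rw [norm_sq_eq, zCr, zCi, ← r6]
    refine h2.trans (le_of_eq ?_)
    norm_num
  obtain ⟨nA, iA⟩ := side uA0 uA1 uA2 e1A
  obtain ⟨nB, iB⟩ := side uB0 uB1 uB2 e1B
  obtain ⟨nC, iC⟩ := side uC0 uC1 uC2 e1C
  have gA := key_g uA0 e1A nA
  have gB := key_g uB0 e1B nB
  have gC := key_g uC0 e1C nC
  have hε3 : ((50 * 2 ^ 289 : ℕ) : ℝ) / (50 * ((2 : ℝ) ^ 90) ^ 4) = 1 / 2 ^ 71 := by norm_num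
  have hε4 : ((50 * 2 ^ 646 : ℕ) : ℝ) / (50 * ((2 : ℝ) ^ 90) ^ 7 * 2 ^ 50) = 1 / 2 ^ 34 := by
    norm_num
  -- norms of the columns
  have hcol : ∀ i, nrm (nthL (envL D) i) ≤ nthN bL i := fun i => (okList_sound _ _ hlist i).1
  have nfA : ∀ k : Fin 3, ‖fAf D s k‖ ≤ 16 := by
    intro k
    refine (norm_cz_le P50 _ _ hs).trans ?_
    rw [div_le_iff₀ P50]
    have a1 : nrm (nthL D (7 + 4 * (k : ℕ))) ≤ 2 ^ 53 := by
      fin_cases k
      · exact hcol 7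
      · exact hcol 11
      · exact hcol 15
    have a2 : nrm (nthL D (8 + 4 * (k : ℕ))) ≤ 2 ^ 53 := by
      fin_cases k
      · exact hcol 8
      · exact hcol 12
      · exact hcol 16
    have a1' : ((nrm (nthL D (7 + 4 * (k : ℕ))) : ℕ) : ℝ) ≤ 2 ^ 53 := by exact_mod_cast a1
    have a2' : ((nrm (nthL D (8 + 4 * (k : ℕ))) : ℕ) : ℝ) ≤ 2 ^ 53 := by exact_mod_cast a2
    linarith
  have nfB : ∀ k : Fin 3, ‖fBf D s k‖ ≤ 16 := by
    intro k
    refine (norm_cz_le P50 _ _ hs).trans ?_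
    rw [div_le_iff₀ P50]
    have a1 : nrm (nthL D (9 + 4 * (k : ℕ))) ≤ 2 ^ 53 := by
      fin_cases k
      · exact hcol 9
      · exact hcol 13
      · exact hcol 17
    have a2 : nrm (nthL D (10 + 4 * (k : ℕ))) ≤ 2 ^ 53 := by
      fin_cases k
      · exact hcol 10
      · exact hcol 14
      · exact hcol 18
    have a1' : ((nrm (nthL D (9 + 4 * (k : ℕ))) : ℕ) : ℝ) ≤ 2 ^ 53 := by exact_mod_cast a1
    have a2' : ((nrm (nthL D (10 + 4 * (k : ℕ))) : ℕ) : ℝ) ≤ 2 ^ 53 := by exact_mod_cast a2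
    linarith
  have nfC : ∀ k : Fin 3, ‖fBf D s k - fAf D s k‖ ≤ 32 := by
    intro k
    have := norm_sub_le (fBf D s k) (fAf D s k)
    linarith [nfA k, nfB k]
  -- approximate derivatives
  have dA : ∀ k : Fin 3, ‖Da UA (zAf D s) (fAf D s k) - DgL (zAf D s) (fAf D s k)‖ ≤ 1 / 2 ^ 65 := by
    intro k
    refine (key_D uA0 e1A nA _).trans ?_
    have := nfA k
    linarith
  have dB : ∀ k : Fin 3, ‖Da UB (zBf D s) (fBf D s k) - DgL (zBf D s) (fBf D s k)‖ ≤ 1 / 2 ^ 65 := by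
    intro k
    refine (key_D uB0 e1B nB _).trans ?_
    have := nfB k
    linarith
  have dC : ∀ k : Fin 3, ‖Da UC (zBf D s - zAf D s) (fBf D s k - fAf D s k) -
      DgL (zBf D s - zAf D s) (fBf D s k - fAf D s k)‖ ≤ 1 / 2 ^ 65 := by
    intro k
    refine (key_D uC0 e1C nC _).trans ?_
    have := nfC k
    linarith
  have fAr : ∀ k : Fin 3, (fAf D s k).re = ρ (7 + 4 * (k : ℕ)) / 2 ^ 50 := by
    intro k
    fin_cases k <;> exact cz_re _ _ _ _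
  have fAi : ∀ k : Fin 3, (fAf D s k).im = ρ (8 + 4 * (k : ℕ)) / 2 ^ 50 := by
    intro k
    fin_cases k <;> exact cz_im _ _ _ _
  have fBr : ∀ k : Fin 3, (fBf D s k).re = ρ (9 + 4 * (k : ℕ)) / 2 ^ 50 := by
    intro k
    fin_cases k <;> exact cz_re _ _ _ _
  have fBi : ∀ k : Fin 3, (fBf D s k).im = ρ (10 + 4 * (k : ℕ)) / 2 ^ 50 := by
    intro k
    fin_cases k <;> exact cz_im _ _ _ _
  have fCr : ∀ k : Fin 3, (fBf D s k - fAf D s k).re =
      (ρ (9 + 4 * (k : ℕ)) - ρ (7 + 4 * (k : ℕ))) / 2 ^ 50 := by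
    intro k
    rw [sub_re, fAr, fBr, sub_div]
  have fCi : ∀ k : Fin 3, (fBf D s k - fAf D s k).im =
      (ρ (10 + 4 * (k : ℕ)) - ρ (8 + 4 * (k : ℕ))) / 2 ^ 50 := by
    intro k
    rw [sub_im, fAi, fBi, sub_div]
  have PAr : ∀ k : Fin 3, Ex.eval ρ (Ex.PA k 0) =
      ((2 : ℝ) ^ 90) ^ 7 * 2 ^ 50 * (Da UA (zAf D s) (fAf D s k)).re := by
    intro k
    rw [eval_PA, add_zero]
    exact PPr_re S90 P50 zAr zAi (fAr k) (fAi k)
  have PAi : ∀ k : Fin 3, Ex.eval ρ (Ex.PA k 1) =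
      ((2 : ℝ) ^ 90) ^ 7 * 2 ^ 50 * (Da UA (zAf D s) (fAf D s k)).im := by
    intro k
    rw [eval_PA, show 7 + 4 * (k : ℕ) + 1 = 8 + 4 * (k : ℕ) by ring]
    exact PPr_im S90 P50 zAr zAi (fAr k) (fAi k)
  have PBr : ∀ k : Fin 3, Ex.eval ρ (Ex.PB k 0) =
      ((2 : ℝ) ^ 90) ^ 7 * 2 ^ 50 * (Da UB (zBf D s) (fBf D s k)).re := by
    intro k
    rw [eval_PB, add_zero, add_zero]
    exact PPr_re S90 P50 zBr zBi (fBr k) (fBi k)
  have PBi : ∀ k : Fin 3, Ex.eval ρ (Ex.PB k 1) =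
      ((2 : ℝ) ^ 90) ^ 7 * 2 ^ 50 * (Da UB (zBf D s) (fBf D s k)).im := by
    intro k
    rw [eval_PB, show 9 + 4 * (k : ℕ) + 1 = 10 + 4 * (k : ℕ) by ring]
    exact PPr_im S90 P50 zBr zBi (fBr k) (fBi k)
  have PCr : ∀ k : Fin 3, Ex.eval ρ (Ex.PC k 0) =
      ((2 : ℝ) ^ 90) ^ 7 * 2 ^ 50 *
        (Da UC (zBf D s - zAf D s) (fBf D s k - fAf D s k)).re := by
    intro k
    rw [eval_PC, add_zero, add_zero, add_zero]
    exact PPr_re S90 P50 zCr zCi (fCr k) (fCi k)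
  have PCi : ∀ k : Fin 3, Ex.eval ρ (Ex.PC k 1) =
      ((2 : ℝ) ^ 90) ^ 7 * 2 ^ 50 *
        (Da UC (zBf D s - zAf D s) (fBf D s k - fAf D s k)).im := by
    intro k
    rw [eval_PC, show 9 + 4 * (k : ℕ) + 1 = 10 + 4 * (k : ℕ) by ring,
      show 7 + 4 * (k : ℕ) + 1 = 8 + 4 * (k : ℕ) by ring]
    exact PPr_im S90 P50 zCr zCi (fCr k) (fCi k)
  have hlam' := hlam
  simp only [okLam, Bool.and_eq_true] at hlam'
  obtain ⟨⟨l1, l2⟩, l3⟩ := hlam'
  have hj : 65 ≤ j := Nat.le_of_ble_eq_true l3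
  have L1 := lam_arith hj (Nat.le_of_ble_eq_true l1)
  have L2 := lam_arith hj (Nat.le_of_ble_eq_true l2)
  have neA : zAf D s ≠ 0 := fun h0 => by rw [h0, norm_zero] at nA; norm_num at nA
  have neB : zBf D s ≠ 0 := fun h0 => by rw [h0, norm_zero] at nB; norm_num at nB
  have neC : zBf D s - zAf D s ≠ 0 := fun h0 => by rw [h0, norm_zero] at nC; norm_num at nC
  refine ⟨nA, nB, nC, ?_, ?_, ?_, ?_, ?_, ?_⟩
  · -- du
    have h0 := p3 (Ex.E3a 0) (by simp [Ex.Es3])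
    have h1 := p3 (Ex.E3a 1) (by simp [Ex.Es3])
    rw [eval_E3a] at h0 h1
    have k0 := raw3a S90 h0
    have k1 := raw3a S90 h1
    rw [hε3] at k0 k1
    have := force_near1 (w := cz (2 ^ 90) (dd (nthL D 0)) (dd (nthL D 1)) s)
      (GA := ((UA ^ 3 : ℝ) : ℂ) * zAf D s) (GB := ((UB ^ 3 : ℝ) : ℂ) * zBf D s)
      (GC := ((UC ^ 3 : ℝ) : ℂ) * (zBf D s - zAf D s)) (p := 1 / 2 ^ 71) (q := 1 / 2 ^ 75)
      (za := g (zAf D s)) (zb := g (zBf D s)) (zc := g (zBf D s - zAf D s))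
      (by
        rw [comb1_re, re_ofReal_mul, re_ofReal_mul, re_ofReal_mul, zAr, zBr, zCr, cz_re]
        exact k0)
      (by
        rw [comb1_im, im_ofReal_mul, im_ofReal_mul, im_ofReal_mul, zAi, zBi, zCi, cz_im]
        exact k1) gA gB gC
    rw [FA]
    refine this.trans ?_
    norm_num
  · -- dv
    have h0 := p3 (Ex.E3b 0) (by simp [Ex.Es3])
    have h1 := p3 (Ex.E3b 1) (by simp [Ex.Es3])
    rw [eval_E3b] at h0 h1
    have k0 := raw3b S90 h0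
    have k1 := raw3b S90 h1
    rw [hε3] at k0 k1
    have := force_near2 (w := cz (2 ^ 90) (dd (nthL D 2)) (dd (nthL D 3)) s)
      (GA := ((UA ^ 3 : ℝ) : ℂ) * zAf D s) (GB := ((UB ^ 3 : ℝ) : ℂ) * zBf D s)
      (GC := ((UC ^ 3 : ℝ) : ℂ) * (zBf D s - zAf D s)) (p := 1 / 2 ^ 71) (q := 1 / 2 ^ 75)
      (za := g (zAf D s)) (zb := g (zBf D s)) (zc := g (zBf D s - zAf D s))
      (by
        rw [comb2_re, re_ofReal_mul, re_ofReal_mul, re_ofReal_mul, zAr, zBr, zCr, cz_re]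
        exact k0)
      (by
        rw [comb2_im, im_ofReal_mul, im_ofReal_mul, im_ofReal_mul, zAi, zBi, zCi, cz_im]
        exact k1) gA gB gC
    rw [FB]
    refine this.trans ?_
    norm_num
  · -- dfu
    intro x
    rw [DA_lin, lin_sub']
    have hk : ∀ k : Fin 3, ‖DA (zAf D s) (zBf D s) (fAf D s k) (fBf D s k) -
        64 * cz (2 ^ 50) (dd (nthL D (7 + 4 * (k : ℕ)))) (dd (nthL D (8 + 4 * (k : ℕ)))) s‖ ≤
        1 / 2 ^ 32 := by
      intro k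
      have m0 : Ex.E4a k 0 ∈ Ex.Es4 := by fin_cases k <;> simp [Ex.Es4]
      have m1 : Ex.E4a k 1 ∈ Ex.Es4 := by fin_cases k <;> simp [Ex.Es4]
      have h0 := p4 _ m0
      have h1 := p4 _ m1
      rw [eval_E4a] at h0 h1
      have k0 := raw4a S90 P50 (PAr k) (PBr k) (PCr k) h0
      have k1 := raw4a S90 P50 (PAi k) (PBi k) (PCi k) h1
      rw [hε4] at k0 k1
      have s0 : ρ (23 + 4 * (k : ℕ) + 0) = ev s (dd (nthL D (7 + 4 * (k : ℕ)))) := by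
        fin_cases k <;> rfl
      have s1 : ρ (23 + 4 * (k : ℕ) + 1) = ev s (dd (nthL D (8 + 4 * (k : ℕ)))) := by
        fin_cases k <;> rfl
      rw [s0] at k0
      rw [s1] at k1
      have := force_near1
        (w := cz (2 ^ 50) (dd (nthL D (7 + 4 * (k : ℕ)))) (dd (nthL D (8 + 4 * (k : ℕ)))) s)
        (GA := Da UA (zAf D s) (fAf D s k)) (GB := Da UB (zBf D s) (fBf D s k))
        (GC := Da UC (zBf D s - zAf D s) (fBf D s k - fAf D s k)) (p := 1 / 2 ^ 34)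
        (q := 1 / 2 ^ 65) (by rw [comb1_re, cz_re]; exact k0) (by rw [comb1_im, cz_im]; exact k1)
        (dA k) (dB k) (dC k)
      rw [DA, ← norm_neg, neg_sub]
      refine this.trans ?_
      norm_num
    refine (norm_lin_le x _ (hk 0) (hk 1) (hk 2)).trans ?_
    gcongr
    norm_num
  · -- dfv
    intro x
    rw [DB_lin, lin_sub']
    have hk : ∀ k : Fin 3, ‖DB (zAf D s) (zBf D s) (fAf D s k) (fBf D s k) -
        64 * cz (2 ^ 50) (dd (nthL D (9 + 4 * (k : ℕ)))) (dd (nthL D (10 + 4 * (k : ℕ)))) s‖ ≤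
        1 / 2 ^ 32 := by
      intro k
      have m0 : Ex.E4b k 0 ∈ Ex.Es4 := by fin_cases k <;> simp [Ex.Es4]
      have m1 : Ex.E4b k 1 ∈ Ex.Es4 := by fin_cases k <;> simp [Ex.Es4]
      have h0 := p4 _ m0
      have h1 := p4 _ m1
      rw [eval_E4b] at h0 h1
      have k0 := raw4b S90 P50 (PAr k) (PBr k) (PCr k) h0
      have k1 := raw4b S90 P50 (PAi k) (PBi k) (PCi k) h1
      rw [hε4] at k0 k1
      have s0 : ρ (25 + 4 * (k : ℕ) + 0) = ev s (dd (nthL D (9 + 4 * (k : ℕ)))) := by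
        fin_cases k <;> rfl
      have s1 : ρ (25 + 4 * (k : ℕ) + 1) = ev s (dd (nthL D (10 + 4 * (k : ℕ)))) := by
        fin_cases k <;> rfl
      rw [s0] at k0
      rw [s1] at k1
      have := force_near2
        (w := cz (2 ^ 50) (dd (nthL D (9 + 4 * (k : ℕ)))) (dd (nthL D (10 + 4 * (k : ℕ)))) s)
        (GA := Da UA (zAf D s) (fAf D s k)) (GB := Da UB (zBf D s) (fBf D s k))
        (GC := Da UC (zBf D s - zAf D s) (fBf D s k - fAf D s k)) (p := 1 / 2 ^ 34)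
        (q := 1 / 2 ^ 65) (by rw [comb2_re, cz_re]; exact k0) (by rw [comb2_im, cz_im]; exact k1)
        (dA k) (dB k) (dC k)
      rw [DB, ← norm_neg, neg_sub]
      refine this.trans ?_
      norm_num
    refine (norm_lin_le x _ (hk 0) (hk 1) (hk 2)).trans ?_
    gcongr
    norm_num
  · -- hΛ
    intro x y d hx hy
    obtain ⟨b1, b2⟩ := D_bound neA neB neC iA iB iC hx hy
    have hd : 0 ≤ d := (norm_nonneg _).trans hx
    exact ⟨b1.trans (by gcongr), b2.trans (by gcongr)⟩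
  · -- hM
    intro x
    simp only [okM, Bool.and_eq_true] at hM
    obtain ⟨m1, m2⟩ := hM
    have m1' : ((nrm (nthL D 7) + nrm (nthL D 8) + nrm (nthL D 11) + nrm (nthL D 12) +
      nrm (nthL D 15) + nrm (nthL D 16) : ℕ) : ℝ) ≤ ((14 * 2 ^ 50 : ℕ) : ℝ) := by
      exact_mod_cast Nat.le_of_ble_eq_true m1
    have m2' : ((nrm (nthL D 9) + nrm (nthL D 10) + nrm (nthL D 13) + nrm (nthL D 14) +
      nrm (nthL D 17) + nrm (nthL D 18) : ℕ) : ℝ) ≤ ((14 * 2 ^ 50 : ℕ) : ℝ) := by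
      exact_mod_cast Nat.le_of_ble_eq_true m2
    push_cast at m1' m2'
    constructor
    · refine (norm_lin_le x _ (norm_cz_le P50 (nthL D 7) (nthL D 8) hs)
        (norm_cz_le P50 (nthL D 11) (nthL D 12) hs)
        (norm_cz_le P50 (nthL D 15) (nthL D 16) hs)).trans ?_
      gcongr
      rw [← add_div, ← add_div, div_le_iff₀ P50]
      linarith
    · refine (norm_lin_le x _ (norm_cz_le P50 (nthL D 9) (nthL D 10) hs)
        (norm_cz_le P50 (nthL D 13) (nthL D 14) hs)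
        (norm_cz_le P50 (nthL D 17) (nthL D 18) hs)).trans ?_
      gcongr
      rw [← add_div, ← add_div, div_le_iff₀ P50]
      linarith

end Pool.Agent.H70TB
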